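import Pool.Agent.Work.MP_8826fd_mp.AL.Stmts

/-!
# Modes `k ≥ 3`: certificates for `FA ≥ 0`, `k ≥ 2` real

Generated polynomial certificates (Bernstein expansions with nonnegative coefficients).
-/

set_option autoImplicit false

noncomputable section

namespace Pool.Agent.MFK.AL.CA

/-- a monomial -/
def tm (r w θ τ σ κ : ℝ) (t : ℕ × ℕ × ℕ × ℕ × ℕ × ℕ × ℕ) : ℝ :=
  (t.1 : ℝ) * r ^ t.2.1 * w ^ t.2.2.1 * θ ^ t.2.2.2.1 * τ ^ t.2.2.2.2.1 * σ ^ t.2.2.2.2.2.1 *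
    κ ^ t.2.2.2.2.2.2

theorem sum_tm_nonneg (r w θ τ σ κ : ℝ) (hr : 0 ≤ r) (hw : 0 ≤ w) (hθ : 0 ≤ θ) (hτ : 0 ≤ τ)
    (hσ : 0 ≤ σ) (hκ : 0 ≤ κ) (L : List (ℕ × ℕ × ℕ × ℕ × ℕ × ℕ × ℕ)) :
    0 ≤ (L.map (tm r w θ τ σ κ)).sum := by
  apply List.sum_nonneg
  intro x hx
  obtain ⟨t, -, rfl⟩ := List.mem_map.1 hx
  unfold tm
  positivity

/-- `F_A(k) - l (k² - 1) R` in terms of `p, y = p + u, M, k` -/
def Fp (p y M k : ℝ) : ℝ :=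
  ((k - 1) * p + y) ^ 2 * (k * p + y) ^ 2 +
    M * ((k - 1) * p + y) * (k * p + y) * ((y - p) / 4 - 3 / 2) +
    (M + 3 / 4 * p + y / 4 - 3 / 2) / 3 *
      ((k ^ 2 - 1) * (2 * p * ((k - 1) * p + y) + p ^ 2) - (2 * k + 1) * ((k - 1) * p + y) ^ 2) +
    (M + 3 / 4 * p + y / 4 - 3 / 2) / 3 * (k + 2) *
      (k * ((k - 1) * p + y) * M -
        (M + 3 / 4 * p + y / 4 - 3 / 2) / 3 * (k - 1) * (2 * k * p + y))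

/-- the coefficient of `M²` -/
def qA (p y k : ℝ) : ℝ :=
  (k + 2) / 9 * (k * (k - 1) * p + (2 * k + 1) * y) - (k * (k - 1) * p + y) / 4

/-- the linear coefficient in `M` (without the nonnegative part) -/
def qB (p y k : ℝ) : ℝ :=
  -(3 / 2) * ((k - 1) * p + y) * (k * p + y) +
    1 / 3 * ((k ^ 2 - 1) * (2 * p * ((k - 1) * p + y) + p ^ 2) -
      (2 * k + 1) * ((k - 1) * p + y) ^ 2) +
    1 / 3 * (3 / 4 * p + y / 4 - 3 / 2) * (k + 2) * k * ((k - 1) * p + y) -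
    2 / 9 * (3 / 4 * p + y / 4 - 3 / 2) * (k + 2) * (k - 1) * (2 * k * p + y) -
    1 / 4 * y * (k * (k - 1) * p + y)

/-- the constant coefficient in `M` -/
def qC (p y k : ℝ) : ℝ :=
  ((k - 1) * p + y) ^ 2 * (k * p + y) ^ 2 +
    1 / 3 * (3 / 4 * p + y / 4 - 3 / 2) *
      ((k ^ 2 - 1) * (2 * p * ((k - 1) * p + y) + p ^ 2) - (2 * k + 1) * ((k - 1) * p + y) ^ 2) -
    1 / 9 * (3 / 4 * p + y / 4 - 3 / 2) ^ 2 * (k + 2) * (k - 1) * (2 * k * p + y)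

/-- list of monomials -/
def Ldir : List (ℕ × ℕ × ℕ × ℕ × ℕ × ℕ × ℕ) :=
   [(32, 1, 0, 0, 0, 0, 5), (32, 1, 0, 0, 0, 1, 4), (8, 1, 0, 0, 0, 2, 3),
    (64, 1, 0, 0, 1, 2, 0), (112, 1, 0, 0, 1, 2, 1), (56, 1, 0, 0, 1, 2, 2),
    (384, 1, 0, 1, 0, 2, 0), (320, 1, 0, 1, 0, 2, 1), (88, 1, 0, 1, 0, 2, 2),
    (332, 1, 1, 0, 1, 1, 3), (460, 1, 1, 1, 0, 1, 3), (1768, 1, 2, 0, 2, 1, 1),
    (1204, 1, 2, 0, 2, 1, 2), (864, 1, 2, 0, 3, 1, 0), (7120, 1, 2, 1, 1, 1, 1),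
    (3600, 1, 2, 1, 1, 1, 2), (6048, 1, 2, 1, 2, 1, 0), (5352, 1, 2, 2, 0, 1, 1),
    (2396, 1, 2, 2, 0, 1, 2), (9504, 1, 2, 2, 1, 1, 0), (4320, 1, 2, 3, 0, 1, 0),
    (440, 1, 3, 0, 1, 0, 4), (2284, 1, 3, 0, 2, 0, 3), (6264, 1, 3, 0, 3, 0, 1),
    (5548, 1, 3, 0, 3, 0, 2), (2592, 1, 3, 0, 4, 0, 0), (568, 1, 3, 1, 0, 0, 4),
    (6120, 1, 3, 1, 1, 0, 3), (31860, 1, 3, 1, 2, 0, 1), (23504, 1, 3, 1, 2, 0, 2),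
    (19440, 1, 3, 1, 3, 0, 0), (3836, 1, 3, 2, 0, 0, 3), (44928, 1, 3, 2, 1, 0, 1),
    (30364, 1, 3, 2, 1, 0, 2), (42768, 1, 3, 2, 2, 0, 0), (19332, 1, 3, 3, 0, 0, 1),
    (12408, 1, 3, 3, 0, 0, 2), (37584, 1, 3, 3, 1, 0, 0), (11664, 1, 3, 4, 0, 0, 0),
    (342, 2, 0, 0, 1, 1, 3), (466, 2, 0, 1, 0, 1, 3), (3496, 2, 1, 0, 2, 1, 1),
    (2418, 2, 1, 0, 2, 1, 2), (1688, 2, 1, 0, 3, 1, 0), (13896, 2, 1, 1, 1, 1, 1),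
    (7172, 2, 1, 1, 1, 1, 2), (11936, 2, 1, 1, 2, 1, 0), (10272, 2, 1, 2, 0, 1, 1),
    (4762, 2, 1, 2, 0, 1, 2), (18024, 2, 1, 2, 1, 1, 0), (7776, 2, 1, 3, 0, 1, 0),
    (1340, 2, 2, 0, 1, 0, 4), (6980, 2, 2, 0, 2, 0, 3), (18928, 2, 2, 0, 3, 0, 1),
    (16888, 2, 2, 0, 3, 0, 2), (7776, 2, 2, 0, 4, 0, 0), (1716, 2, 2, 1, 0, 0, 4),
    (18520, 2, 2, 1, 1, 0, 3), (95080, 2, 2, 1, 2, 0, 1), (70752, 2, 2, 1, 2, 0, 2),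
    (58320, 2, 2, 1, 3, 0, 0), (11556, 2, 2, 2, 0, 0, 3), (131448, 2, 2, 2, 1, 0, 1),
    (90656, 2, 2, 2, 1, 0, 2), (124416, 2, 2, 2, 2, 0, 0), (55296, 2, 2, 3, 0, 0, 1),
    (36792, 2, 2, 3, 0, 0, 2), (104976, 2, 2, 3, 1, 0, 0), (31104, 2, 2, 4, 0, 0, 0),
    (1674, 3, 0, 0, 2, 1, 1), (1196, 3, 0, 0, 2, 1, 2), (788, 3, 0, 0, 3, 1, 0),
    (6704, 3, 0, 1, 1, 1, 1), (3572, 3, 0, 1, 1, 1, 2), (5744, 3, 0, 1, 2, 1, 0),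
    (5046, 3, 0, 2, 0, 1, 1), (2384, 3, 0, 2, 0, 1, 2), (8484, 3, 0, 2, 1, 1, 0),
    (3672, 3, 0, 3, 0, 1, 0), (1360, 3, 1, 0, 1, 0, 4), (7065, 3, 1, 0, 2, 0, 3),
    (18498, 3, 1, 0, 3, 0, 1), (16843, 3, 1, 0, 3, 0, 2), (7456, 3, 1, 0, 4, 0, 0),
    (1728, 3, 1, 1, 0, 0, 4), (18650, 3, 1, 1, 1, 0, 3), (92197, 3, 1, 1, 2, 0, 1),
    (70192, 3, 1, 1, 2, 0, 2), (56236, 3, 1, 1, 3, 0, 0), (11613, 3, 1, 2, 0, 0, 3),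
    (125664, 3, 1, 2, 1, 0, 1), (89695, 3, 1, 2, 1, 0, 2), (115740, 3, 1, 2, 2, 0, 0),
    (52137, 3, 1, 3, 0, 0, 1), (36342, 3, 1, 3, 0, 0, 2), (93204, 3, 1, 3, 1, 0, 0),
    (26244, 3, 1, 4, 0, 0, 0), (532, 4, 0, 0, 1, 0, 4), (2801, 4, 0, 0, 2, 0, 3),
    (6644, 4, 0, 0, 3, 0, 1), (6421, 4, 0, 0, 3, 0, 2), (2524, 4, 0, 0, 4, 0, 0),
    (652, 4, 0, 1, 0, 0, 4), (7690, 4, 0, 1, 1, 0, 3), (35187, 4, 0, 1, 2, 0, 1),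
    (28326, 4, 0, 1, 2, 0, 2), (20056, 4, 0, 1, 3, 0, 0), (4901, 4, 0, 2, 0, 0, 3),
    (54462, 4, 0, 2, 1, 0, 1), (39141, 4, 0, 2, 1, 0, 2), (44568, 4, 0, 2, 2, 0, 0),
    (28395, 4, 0, 3, 0, 0, 1), (17232, 4, 0, 3, 0, 0, 2), (43272, 4, 0, 3, 1, 0, 0),
    (17388, 4, 0, 4, 0, 0, 0)]

/-- certificate -/
theorem dir (r w θ τ σ κ : ℝ) (hr : 0 ≤ r) (hw : 0 ≤ w) (hθ : 0 ≤ θ) (hτ : 0 ≤ τ)
    (hσ : 0 ≤ σ) (hκ : 0 ≤ κ) (e1 : τ = 1 - θ) (e2 : w = 1 - r) :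
    0 ≤ Fp r (2 * r * θ) (r + 2 * (κ + 2) + 2 + σ) (κ + 2) := by
  have h : 72 * (Fp r (2 * r * θ) (r + 2 * (κ + 2) + 2 + σ) (κ + 2)) = ((Ldir).map (tm r w θ τ σ κ)).sum := by
    simp only [Ldir, List.map_cons, List.map_nil, List.sum_cons, List.sum_nil, tm,
      Nat.cast_ofNat, pow_zero, pow_one, mul_one]
    rw [e1, e2]
    unfold Fp
    ring
  have h2 := sum_tm_nonneg r w θ τ σ κ hr hw hθ hτ hσ hκ Ldir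
  rw [← h] at h2
  exact nonneg_of_mul_nonneg_right h2 (by norm_num)

/-- list of monomials -/
def Ldisca : List (ℕ × ℕ × ℕ × ℕ × ℕ × ℕ × ℕ) :=
   [(64, 0, 0, 0, 0, 0, 7), (679, 0, 0, 0, 2, 0, 6), (3000, 0, 0, 0, 3, 0, 5),
    (9426, 0, 0, 0, 4, 0, 3), (7067, 0, 0, 0, 4, 0, 4), (304, 0, 0, 0, 5, 0, 0),
    (2504, 0, 0, 0, 5, 0, 1), (6944, 0, 0, 0, 5, 0, 2), (2138, 0, 0, 1, 1, 0, 6),
    (17160, 0, 0, 1, 2, 0, 5), (110040, 0, 0, 1, 3, 0, 3), (62574, 0, 0, 1, 3, 0, 4),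
    (7680, 0, 0, 1, 4, 0, 0), (51436, 0, 0, 1, 4, 0, 1), (112886, 0, 0, 1, 4, 0, 2),
    (1455, 0, 0, 2, 0, 0, 6), (28832, 0, 0, 2, 1, 0, 5), (397524, 0, 0, 2, 2, 0, 3),
    (179356, 0, 0, 2, 2, 0, 4), (63408, 0, 0, 2, 3, 0, 0), (332724, 0, 0, 2, 3, 0, 1),
    (588920, 0, 0, 2, 3, 0, 2), (14656, 0, 0, 3, 0, 0, 5), (570488, 0, 0, 3, 1, 0, 3),
    (207058, 0, 0, 3, 1, 0, 4), (230096, 0, 0, 3, 2, 0, 0), (944052, 0, 0, 3, 2, 0, 1),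
    (1358556, 0, 0, 3, 2, 0, 2), (282346, 0, 0, 4, 0, 0, 3), (83193, 0, 0, 4, 0, 0, 4),
    (383376, 0, 0, 4, 1, 0, 0), (1227492, 0, 0, 4, 1, 0, 1), (1433784, 0, 0, 4, 1, 0, 2),
    (245664, 0, 0, 5, 0, 0, 0), (593856, 0, 0, 5, 0, 0, 1), (562302, 0, 0, 5, 0, 0, 2),
    (320, 1, 0, 0, 0, 0, 7), (3440, 1, 0, 0, 2, 0, 6), (15576, 1, 0, 0, 3, 0, 5),
    (53976, 1, 0, 0, 4, 0, 3), (38144, 1, 0, 0, 4, 0, 4), (3072, 1, 0, 0, 5, 0, 0),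
    (18400, 1, 0, 0, 5, 0, 1), (43616, 1, 0, 0, 5, 0, 2), (10744, 1, 0, 1, 1, 0, 6),
    (86944, 1, 0, 1, 2, 0, 5), (579208, 1, 0, 1, 3, 0, 3), (321976, 1, 0, 1, 3, 0, 4),
    (62528, 1, 0, 1, 4, 0, 0), (320064, 1, 0, 1, 4, 0, 1), (629232, 1, 0, 1, 4, 0, 2),
    (7288, 1, 0, 2, 0, 0, 6), (144696, 1, 0, 2, 1, 0, 5), (2027656, 1, 0, 2, 2, 0, 3),
    (905864, 1, 0, 2, 2, 0, 4), (435008, 1, 0, 2, 3, 0, 0), (1894176, 1, 0, 2, 3, 0, 1),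
    (3117936, 1, 0, 2, 3, 0, 2), (73264, 1, 0, 3, 0, 0, 5), (2874264, 1, 0, 3, 1, 0, 3),
    (1037672, 1, 0, 3, 1, 0, 4), (1413632, 1, 0, 3, 2, 0, 0), (5123648, 1, 0, 3, 2, 0, 1),
    (7019600, 1, 0, 3, 2, 0, 2), (1416128, 1, 0, 4, 0, 0, 3), (415576, 1, 0, 4, 0, 0, 4),
    (2206464, 1, 0, 4, 1, 0, 0), (6490368, 1, 0, 4, 1, 0, 1), (7321072, 1, 0, 4, 1, 0, 2),
    (1350144, 1, 0, 5, 0, 0, 0), (3092352, 1, 0, 5, 0, 0, 1), (2854272, 1, 0, 5, 0, 0, 2),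
    (640, 2, 0, 0, 0, 0, 7), (6898, 2, 0, 0, 2, 0, 6), (31416, 2, 0, 0, 3, 0, 5),
    (111684, 2, 0, 0, 4, 0, 3), (77706, 2, 0, 0, 4, 0, 4), (7136, 2, 0, 0, 5, 0, 0),
    (40400, 2, 0, 0, 5, 0, 1), (92400, 2, 0, 0, 5, 0, 2), (21476, 2, 0, 1, 1, 0, 6),
    (173728, 2, 0, 1, 2, 0, 5), (1168312, 2, 0, 1, 3, 0, 3), (644956, 2, 0, 1, 3, 0, 4),
    (147200, 2, 0, 1, 4, 0, 0), (689960, 2, 0, 1, 4, 0, 1), (1297684, 2, 0, 1, 4, 0, 2),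
    (14554, 2, 0, 2, 0, 0, 6), (288328, 2, 0, 2, 1, 0, 5), (4058752, 2, 0, 2, 2, 0, 3),
    (1805104, 2, 0, 2, 2, 0, 4), (1007456, 2, 0, 2, 3, 0, 0), (4022712, 2, 0, 2, 3, 0, 1),
    (6359056, 2, 0, 2, 3, 0, 2), (145920, 2, 0, 3, 0, 0, 5), (5745352, 2, 0, 3, 1, 0, 3),
    (2065444, 2, 0, 3, 1, 0, 4), (3201120, 2, 0, 3, 2, 0, 0), (10767704, 2, 0, 3, 2, 0, 1),
    (14249192, 2, 0, 3, 2, 0, 2), (2832700, 2, 0, 4, 0, 0, 3), (827494, 2, 0, 4, 0, 0, 4),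
    (4888800, 2, 0, 4, 1, 0, 0), (13531128, 2, 0, 4, 1, 0, 1), (14831200, 2, 0, 4, 1, 0, 2),
    (2918592, 2, 0, 5, 0, 0, 0), (6402816, 2, 0, 5, 0, 0, 1)]

/-- list of monomials -/
def Ldiscb : List (ℕ × ℕ × ℕ × ℕ × ℕ × ℕ × ℕ) :=
   [(5776740, 2, 0, 5, 0, 0, 2), (640, 3, 0, 0, 0, 0, 7), (6880, 3, 0, 0, 2, 0, 6),
    (31224, 3, 0, 0, 3, 0, 5), (110424, 3, 0, 0, 4, 0, 3), (76976, 3, 0, 0, 4, 0, 4),
    (7168, 3, 0, 0, 5, 0, 0), (40160, 3, 0, 0, 5, 0, 1), (91424, 3, 0, 0, 5, 0, 2),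
    (21416, 3, 0, 1, 1, 0, 6), (172560, 3, 0, 1, 2, 0, 5), (1158456, 3, 0, 1, 3, 0, 3),
    (638760, 3, 0, 1, 3, 0, 4), (156480, 3, 0, 1, 4, 0, 0), (704896, 3, 0, 1, 4, 0, 1),
    (1297712, 3, 0, 1, 4, 0, 2), (14520, 3, 0, 2, 0, 0, 6), (286712, 3, 0, 2, 1, 0, 5),
    (4042584, 3, 0, 2, 2, 0, 3), (1791544, 3, 0, 2, 2, 0, 4), (1096512, 3, 0, 2, 3, 0, 0),
    (4164384, 3, 0, 2, 3, 0, 1), (6406064, 3, 0, 2, 3, 0, 2), (145312, 3, 0, 3, 0, 0, 5),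
    (5744168, 3, 0, 3, 1, 0, 3), (2054776, 3, 0, 3, 1, 0, 4), (3504896, 3, 0, 3, 2, 0, 0),
    (11200896, 3, 0, 3, 2, 0, 1), (14415120, 3, 0, 3, 2, 0, 2), (2839984, 3, 0, 4, 0, 0, 3),
    (824952, 3, 0, 4, 0, 0, 4), (5323008, 3, 0, 4, 1, 0, 0), (14064768, 3, 0, 4, 1, 0, 1),
    (15034608, 3, 0, 4, 1, 0, 2), (3128832, 3, 0, 5, 0, 0, 0), (6629760, 3, 0, 5, 0, 0, 1),
    (5860224, 3, 0, 5, 0, 0, 2), (320, 4, 0, 0, 0, 0, 7), (3431, 4, 0, 0, 2, 0, 6),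
    (15504, 4, 0, 0, 3, 0, 5), (54570, 4, 0, 0, 4, 0, 3), (38075, 4, 0, 0, 4, 0, 4),
    (3696, 4, 0, 0, 5, 0, 0), (20200, 4, 0, 0, 5, 0, 1), (45392, 4, 0, 0, 5, 0, 2),
    (10690, 4, 0, 1, 1, 0, 6), (85912, 4, 0, 1, 2, 0, 5), (578608, 4, 0, 1, 3, 0, 3),
    (317686, 4, 0, 1, 3, 0, 4), (83072, 4, 0, 1, 4, 0, 0), (362988, 4, 0, 1, 4, 0, 1),
    (654870, 4, 0, 1, 4, 0, 2), (7255, 4, 0, 2, 0, 0, 6), (143064, 4, 0, 2, 1, 0, 5),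
    (2031916, 4, 0, 2, 2, 0, 3), (894452, 4, 0, 2, 2, 0, 4), (593648, 4, 0, 2, 3, 0, 0),
    (2173716, 4, 0, 2, 3, 0, 1), (3262104, 4, 0, 2, 3, 0, 2), (72640, 4, 0, 3, 0, 0, 5),
    (2896896, 4, 0, 3, 1, 0, 3), (1028618, 4, 0, 3, 1, 0, 4), (1910480, 4, 0, 3, 2, 0, 0),
    (5873012, 4, 0, 3, 2, 0, 1), (7368284, 4, 0, 3, 2, 0, 2), (1434650, 4, 0, 4, 0, 0, 3),
    (413761, 4, 0, 4, 0, 0, 4), (2888592, 4, 0, 4, 1, 0, 0), (7360164, 4, 0, 4, 1, 0, 1),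
    (7690984, 4, 0, 4, 1, 0, 2), (1674144, 4, 0, 5, 0, 0, 0), (3451200, 4, 0, 5, 0, 0, 1),
    (2995806, 4, 0, 5, 0, 0, 2), (64, 5, 0, 0, 0, 0, 7), (688, 5, 0, 0, 1, 0, 6),
    (3120, 5, 0, 0, 2, 0, 5), (7728, 5, 0, 0, 3, 0, 4), (11280, 5, 0, 0, 4, 0, 3),
    (896, 5, 0, 0, 5, 0, 0), (4544, 5, 0, 0, 5, 0, 1), (9696, 5, 0, 0, 5, 0, 2),
    (1456, 5, 0, 1, 0, 0, 6), (14176, 5, 0, 1, 1, 0, 5), (56752, 5, 0, 1, 2, 0, 4),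
    (119296, 5, 0, 1, 3, 0, 3), (18944, 5, 0, 1, 4, 0, 0), (79424, 5, 0, 1, 4, 0, 1),
    (138496, 5, 0, 1, 4, 0, 2), (14640, 5, 0, 2, 0, 0, 5), (124752, 5, 0, 2, 1, 0, 4),
    (417952, 5, 0, 2, 2, 0, 3), (132992, 5, 0, 2, 3, 0, 0), (470592, 5, 0, 2, 3, 0, 1),
    (686080, 5, 0, 2, 3, 0, 2), (83920, 5, 0, 3, 0, 0, 4), (594304, 5, 0, 3, 1, 0, 3),
    (423168, 5, 0, 3, 2, 0, 0), (1260224, 5, 0, 3, 2, 0, 1), (1541312, 5, 0, 3, 2, 0, 2),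
    (293584, 5, 0, 4, 0, 0, 3), (631296, 5, 0, 4, 1, 0, 0), (1563648, 5, 0, 4, 1, 0, 1),
    (1600288, 5, 0, 4, 1, 0, 2), (359424, 5, 0, 5, 0, 0, 0), (725760, 5, 0, 5, 0, 0, 1),
    (620352, 5, 0, 5, 0, 0, 2)]

/-- certificate -/
theorem disc (r w θ τ σ κ : ℝ) (hr : 0 ≤ r) (hw : 0 ≤ w) (hθ : 0 ≤ θ) (hτ : 0 ≤ τ)
    (hσ : 0 ≤ σ) (hκ : 0 ≤ κ) (e1 : τ = 1 - θ) :
    0 ≤ 4 * qA (1 + r) (2 * (1 + r) * θ) (κ + 2) * qC (1 + r) (2 * (1 + r) * θ) (κ + 2) -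
      qB (1 + r) (2 * (1 + r) * θ) (κ + 2) ^ 2 := by
  have h : 144 * (4 * qA (1 + r) (2 * (1 + r) * θ) (κ + 2) * qC (1 + r) (2 * (1 + r) * θ) (κ + 2) -
      qB (1 + r) (2 * (1 + r) * θ) (κ + 2) ^ 2) = ((Ldisca).map (tm r w θ τ σ κ)).sum +
        ((Ldiscb).map (tm r w θ τ σ κ)).sum := by
    simp only [Ldisca, Ldiscb, List.map_cons, List.map_nil, List.sum_cons, List.sum_nil, tm,
      Nat.cast_ofNat, pow_zero, pow_one, mul_one]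
    rw [e1]
    unfold qA qB qC
    ring
  have h2 := sum_tm_nonneg r w θ τ σ κ hr hw hθ hτ hσ hκ Ldisca
  have h3 := sum_tm_nonneg r w θ τ σ κ hr hw hθ hτ hσ hκ Ldiscb
  have h0 := add_nonneg h2 h3
  rw [← h] at h0
  exact nonneg_of_mul_nonneg_right h0 (by norm_num)

/-- the main inequality, `p ≤ 1` -/
theorem Fp_small (p y M k : ℝ) (hp : 0 < p) (hp1 : p ≤ 1) (hy : 0 ≤ y) (hy2 : y ≤ 2 * p)
    (hk : 2 ≤ k) (hM : p + 2 * (k + 1) ≤ M) : 0 ≤ Fp p y M k := by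
  have h := dir p (1 - p) (y / (2 * p)) (1 - y / (2 * p)) (M - (p + 2 * (k + 1))) (k - 2) hp.le
    (by linarith) (by positivity) (by rw [sub_nonneg, div_le_one (by positivity)]; exact hy2)
    (by linarith) (by linarith) rfl rfl
  have e1 : 2 * p * (y / (2 * p)) = y := by field_simp
  have e2 : p + 2 * (k - 2 + 2) + 2 + (M - (p + 2 * (k + 1))) = M := by ring
  have e3 : k - 2 + 2 = k := by ring
  rw [e1, e2, e3] at h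
  exact h

/-- the main inequality, `p ≥ 1` -/
theorem Fp_large (p y M k : ℝ) (hp1 : 1 ≤ p) (hy : 0 ≤ y) (hy2 : y ≤ 2 * p) (hk : 2 ≤ k)
    (hM0 : 0 ≤ M) (hM : p ^ 2 - y ≤ M) : 0 ≤ Fp p y M k := by
  have hp : 0 < p := by linarith
  have h := disc (p - 1) 0 (y / (2 * p)) (1 - y / (2 * p)) 0 (k - 2) (by linarith) le_rfl
    (by positivity) (by rw [sub_nonneg, div_le_one (by positivity)]; exact hy2) le_rfl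
    (by linarith) rfl
  have e0 : (1 : ℝ) + (p - 1) = p := by ring
  have e1 : 2 * p * (y / (2 * p)) = y := by field_simp
  have e3 : k - 2 + 2 = k := by ring
  rw [e0, e1, e3] at h
  have hkk : 0 < k * (k - 1) * p := mul_pos (mul_pos (by linarith) (by linarith)) hp
  have hA : 0 < qA p y k := by
    unfold qA
    have h1 : 4 / 9 * (k * (k - 1) * p + (2 * k + 1) * y) ≤
        (k + 2) / 9 * (k * (k - 1) * p + (2 * k + 1) * y) := by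
      refine mul_le_mul_of_nonneg_right (by linarith) ?_
      exact add_nonneg hkk.le (mul_nonneg (by linarith) hy)
    have h2 : 5 * y ≤ (2 * k + 1) * y := mul_le_mul_of_nonneg_right (by linarith) hy
    linarith
  have hq : 0 ≤ qA p y k * M ^ 2 + qB p y k * M + qC p y k := by
    have h1 : 4 * qA p y k * (qA p y k * M ^ 2 + qB p y k * M + qC p y k) =
        (2 * qA p y k * M + qB p y k) ^ 2 +
          (4 * qA p y k * qC p y k - qB p y k ^ 2) := by ring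
    have h2 : 0 ≤ 4 * qA p y k * (qA p y k * M ^ 2 + qB p y k * M + qC p y k) := by
      rw [h1]; exact add_nonneg (sq_nonneg _) h
    exact nonneg_of_mul_nonneg_right h2 (by linarith)
  have hid : Fp p y M k = (M - (p ^ 2 - y)) * M * ((k * (k - 1) * p + y) / 4) +
      (qA p y k * M ^ 2 + qB p y k * M + qC p y k) +
      M * ((p ^ 2 * y * ((k - 1) * (k - 2)) + p * y ^ 2 * (2 * k - 2) + y ^ 3) / 4) := by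
    unfold Fp qA qB qC; ring
  have hb : 0 ≤ p ^ 2 * y * ((k - 1) * (k - 2)) + p * y ^ 2 * (2 * k - 2) + y ^ 3 := by
    have h1 : 0 ≤ (k - 1) * (k - 2) := mul_nonneg (by linarith) (by linarith)
    have h2 : 0 ≤ 2 * k - 2 := by linarith
    positivity
  rw [hid]
  have t1 : 0 ≤ (M - (p ^ 2 - y)) * M * ((k * (k - 1) * p + y) / 4) :=
    mul_nonneg (mul_nonneg (by linarith) hM0) (by linarith)
  have t2 : 0 ≤ M * ((p ^ 2 * y * ((k - 1) * (k - 2)) + p * y ^ 2 * (2 * k - 2) + y ^ 3) / 4) :=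
    mul_nonneg hM0 (by linarith)
  linarith

end CA

open CA in
/-- `FA ≥ 0` for real `k ≥ 2` where it is needed -/
theorem stA_raw (p u M k : ℝ) (hp : 0 < p) (hu1 : -p ≤ u) (hu2 : u ≤ p)
    (hlt : p ^ 2 - u ≤ M + p) (hk : 2 ≤ k) (hM : p + 2 * (k + 1) ≤ M)
    (hR : (M + p + u / 4 - 3 / 2) / 3 * ((k + 1) ^ 2 - 1) ≤ M * ((k + 1) * p + u)) :
    0 ≤ FA M p u ((M + p + u / 4 - 3 / 2) / 3) k := by
  have hF : 0 ≤ Fp p (p + u) M k := by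
    rcases le_total p 1 with h | h
    · exact Fp_small p (p + u) M k hp h (by linarith) (by linarith) hk hM
    · exact Fp_large p (p + u) M k h (by linarith) (by linarith) hk (by linarith) (by linarith)
  have hid : FA M p u ((M + p + u / 4 - 3 / 2) / 3) k =
      (M + p + u / 4 - 3 / 2) / 3 * (k ^ 2 - 1) * (M * ((k + 1) * p + u) -
        (M + p + u / 4 - 3 / 2) / 3 * ((k + 1) ^ 2 - 1)) + Fp p (p + u) M k := by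
    unfold FA Fp; ring
  rw [hid]
  have hl : 0 ≤ (M + p + u / 4 - 3 / 2) / 3 := by linarith
  have hk2 : 0 ≤ k ^ 2 - 1 := by nlinarith
  exact add_nonneg (mul_nonneg (mul_nonneg hl hk2) (by linarith)) hF

end Pool.Agent.MFK.AL
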