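import Pool.Agent.Work.MP_8826fd_mp.AL.Frame
import Pool.Agent.Work.MP_8826fd_mp.AL.CertA

/-!
# Modes `k ≥ 3`: the alpha side, `FA ≥ 0` for real `k ≥ 2`
-/

set_option autoImplicit false

noncomputable section

namespace Pool.Agent.MFK.AL

theorem stA : StA := fun p u M k h1 h2 h3 h4 h5 h6 h7 => stA_raw p u M k h1 h2 h3 h4 h5 h6 h7

end Pool.Agent.MFK.AL
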