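import Pool.Agent.Work.MP_8826fd_mp.AL.Stmts

/-! # Fact (A0) -/

set_option autoImplicit false

namespace Pool.Agent.MFK.AL

theorem A0_small {p x s : ℝ} (hp : 0 < p) (hx : 0 ≤ x) (hxp : x ≤ 2 * p) (hp2 : p ≤ 3 / 2)
    (hs : 0 ≤ s) :
    0 ≤ 4 * (p + 4 + s) ^ 2 + (p + 4 + s) * (x ^ 2 - p ^ 2 - 3 * p - 9 * x - 6)
      + x * (4 * (p + x) ^ 2 - (3 * p + x) + 6) := by
  have e : 4 * (p + 4 + s) ^ 2 + (p + 4 + s) * (x ^ 2 - p ^ 2 - 3 * p - 9 * x - 6)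
      + x * (4 * (p + x) ^ 2 - (3 * p + x) + 6)
      = 4 * s ^ 2 + (x ^ 2 - 9 * x - p ^ 2 + 5 * p + 26) * s
        + (4 * x ^ 3 + 9 * p * x ^ 2 + 4 * x * p ^ 2 - p ^ 3 + 3 * x ^ 2 - 3 * p ^ 2
          - 12 * p * x - 30 * x + 14 * p + 40) := by ring
  rw [e]
  have h1 : 0 ≤ x ^ 2 - 9 * x - p ^ 2 + 5 * p + 26 := by nlinarith [sq_nonneg (x - 3)]
  have h2 : 0 ≤ 4 * x ^ 3 + 9 * p * x ^ 2 + 4 * x * p ^ 2 - p ^ 3 + 3 * x ^ 2 - 3 * p ^ 2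
          - 12 * p * x - 30 * x + 14 * p + 40 := by
    nlinarith [sq_nonneg (x - 1), mul_nonneg hx (sq_nonneg (x - 1)), mul_nonneg hp.le (sq_nonneg (x - 1)),
      mul_nonneg hx (sq_nonneg (p - 1)), mul_nonneg hp.le hx, mul_nonneg hp.le (sub_nonneg.2 hp2),
      mul_nonneg (mul_nonneg hp.le hp.le) (sub_nonneg.2 hp2), sq_nonneg (x - 3 / 2), mul_nonneg hx (sq_nonneg (x - 3 / 2))]
  have := mul_nonneg h1 hs
  positivity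

theorem A0_large {p x s : ℝ} (hx : 0 ≤ x) (hxp : x ≤ 2 * p) (hp2 : 3 / 2 ≤ p)
    (hs : 0 ≤ s) :
    0 ≤ 3 * (p + 4 + s) ^ 2 + (p + 4 + s) * (x ^ 2 - 3 * p - 10 * x - 6)
      + x * (4 * (p + x) ^ 2 - (3 * p + x) + 6) := by
  have e : 3 * (p + 4 + s) ^ 2 + (p + 4 + s) * (x ^ 2 - 3 * p - 10 * x - 6)
      + x * (4 * (p + x) ^ 2 - (3 * p + x) + 6)
      = 3 * s ^ 2 + (x ^ 2 - 10 * x + 3 * p + 18) * s
        + (4 * x ^ 3 + 4 * x * p ^ 2 + 9 * p * x ^ 2 + 3 * x ^ 2 - 13 * p * x - 34 * x + 6 * p + 24) := by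
    ring
  rw [e]
  have h1 : -(1 / 8) ≤ x ^ 2 - 10 * x + 3 * p + 18 := by nlinarith [sq_nonneg (x - 17 / 4)]
  have h2 : 1 ≤ 4 * x ^ 3 + 4 * x * p ^ 2 + 9 * p * x ^ 2 + 3 * x ^ 2 - 13 * p * x - 34 * x + 6 * p + 24 := by
    nlinarith [sq_nonneg (x - 1), mul_nonneg hx (sq_nonneg (x - 1)), mul_nonneg hx (sub_nonneg.2 hp2),
      mul_nonneg hx (sq_nonneg (p - 2)), mul_nonneg (sub_nonneg.2 hp2) (sq_nonneg (x - 1)), sq_nonneg (x - 4 / 5)]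
  nlinarith [sq_nonneg (s - 1 / 16), mul_nonneg (by linarith : 0 ≤ x ^ 2 - 10 * x + 3 * p + 18 + 1 / 8) hs]

theorem stA0 : StA0 := by
  intro p u l hp hu1 hu2 h1 h2
  obtain ⟨x, rfl⟩ : ∃ x, u = x - p := ⟨p + u, by ring⟩
  obtain ⟨M, hM⟩ : ∃ M, M = 3 * l - p - (x - p) / 4 + 3 / 2 := ⟨_, rfl⟩
  have hl : l = (M + p + (x - p) / 4 - 3 / 2) / 3 := by linarith
  obtain ⟨s, hs⟩ : ∃ s, M = p + 4 + s := ⟨M - p - 4, by ring⟩
  have hs0 : 0 ≤ s := by linarith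
  have hMx : p ^ 2 - x ≤ M := by linarith
  have hM0 : 0 < M := by linarith
  have id : 4 * f0 p (x - p) l = 4 * M ^ 2 + M * (x ^ 2 - p ^ 2 - 3 * p - 9 * x - 6)
      + x * (4 * (p + x) ^ 2 - (3 * p + x) + 6) := by
    rw [hl]; unfold f0; ring
  rcases le_total p (3 / 2) with hc | hc
  · have h := A0_small hp (by linarith) (by linarith) hc hs0 (x := x)
    rw [← hs, ← id] at h; linarith
  · have h := A0_large (p := p) (x := x) (by linarith) (by linarith) hc hs0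
    rw [← hs] at h
    have h3 := mul_le_mul_of_nonneg_left hMx hM0.le
    nlinarith

end Pool.Agent.MFK.AL
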