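import Mathlib

/-!
# Modes `k ≥ 3`: the polynomial inequalities

`M = 3 l - p - u / 4 + 3 / 2`, `B = M + p = 3 l - u / 4 + 3 / 2`, `lam = p ^ 2 - u`;
`lam ≤ B` reads `p ^ 2 - 3 / 4 * u - 3 / 2 ≤ 3 * l`; `m ≥ 1` reads `2 * p + u / 4 + 1 / 2 ≤ 3 * l`;
`m ≥ 2` reads `2 * p + u / 4 + 5 / 2 ≤ 3 * l`.
-/

set_option autoImplicit false

noncomputable section

namespace Pool.Agent.MFK.AL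

/-- step polynomial of the `al` comparison -/
def FA (M p q l k : ℝ) : ℝ :=
  (k * p + q) * ((k + 1) * p + q) * (M * (3 * l - (M + p)) + l * (k ^ 2 - 1))
    + (k * p + q) ^ 2 * ((k + 1) * p + q) ^ 2 + l * k * (k + 2) * (k * p + q) * (M - (k * p + q))
    + l * (k ^ 2 - 1) * (M + p) * ((k + 1) * p + q)
    - l ^ 2 * (k - 1) * (k + 2) * ((k + 1) * (k + p) + (k * p + q))

/-- step polynomial of the `be` comparison -/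
def FB (M p q l k : ℝ) : ℝ :=
  (k * p - q) * ((k + 1) * p - q) * (M * ((M + p) - 3 * l) + l * (k ^ 2 - 1))
    - (k * p - q) ^ 2 * ((k + 1) * p - q) ^ 2 + l * (k ^ 2 - 1) * (M + p) * ((k + 1) * p - q)
    + l * k * (k + 2) * (k * p - q) * (M - (k * p - q))
    - l ^ 2 * (k - 1) * (k + 2) * ((k * p - q) + (k + 1) * (p - k))

/-- `FB 1 / (p - u)` -/
def g0 (p u l : ℝ) : ℝ :=
  -3 / 2 * l * p * u + 3 / 4 * l * u ^ 2 - 4 * p ^ 3 + 17 / 2 * p ^ 2 * u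
    - 41 / 8 * p * u ^ 2 + 15 / 16 * u ^ 3 + 9 * l ^ 2 + 3 * l * p - 9 / 4 * l * u
    - 3 * p ^ 2 + 3 / 4 * u ^ 2 + 9 / 2 * l + 9 / 2 * p - 9 / 4 * u

/-- `FA 1 / (p + u)` -/
def f0 (p u l : ℝ) : ℝ :=
  3 / 2 * l * p * u + 3 / 4 * l * u ^ 2 + 4 * p ^ 3 + 15 / 2 * p ^ 2 * u
    + 37 / 8 * p * u ^ 2 + 15 / 16 * u ^ 3 + 9 * l ^ 2 - 15 * l * p - 33 / 4 * l * u
    + 3 * p ^ 2 + 3 * p * u + 3 / 4 * u ^ 2 + 9 / 2 * l - 9 / 2 * p - 9 / 4 * u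

/-- coefficient of `y ^ 1` in `FB (1 + y)` -/
def a1 (p u l : ℝ) : ℝ :=
  -9 / 4 * l * p ^ 2 * u + 3 / 2 * l * p * u ^ 2 - 12 * p ^ 4 + 107 / 4 * p ^ 3 * u
    - 293 / 16 * p ^ 2 * u ^ 2 + 31 / 8 * p * u ^ 3 + 24 * l ^ 2 * p - 15 * l ^ 2 * u
    + 1 / 2 * l * p ^ 2 + 1 / 4 * l * p * u - 1 / 2 * l * u ^ 2 - 9 / 2 * p ^ 3
    + 3 / 4 * p ^ 2 * u + 3 / 2 * p * u ^ 2 + 6 * l ^ 2 + 33 / 2 * l * p - 9 * l * u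
    + 27 / 4 * p ^ 2 - 9 / 2 * p * u

/-- coefficient of `y ^ 2` in `FB (1 + y)` -/
def a2 (p u l : ℝ) : ℝ :=
  -3 / 4 * l * p ^ 2 * u - 13 * p ^ 4 + 73 / 4 * p ^ 3 * u - 95 / 16 * p ^ 2 * u ^ 2
    + 18 * l ^ 2 * p - 5 * l ^ 2 * u - 9 / 2 * l * p ^ 2 + 7 / 4 * l * p * u
    + 1 / 2 * l * u ^ 2 - 3 / 2 * p ^ 3 - 3 / 4 * p ^ 2 * u + 11 * l ^ 2 + 27 / 2 * l * p
    - 3 * l * u + 9 / 4 * p ^ 2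

/-- coefficient of `y ^ 3` in `FB (1 + y)` -/
def a3 (p u l : ℝ) : ℝ :=
  -6 * p ^ 4 + 4 * p ^ 3 * u + 4 * l ^ 2 * p - 2 * l * p ^ 2 - 1 / 2 * l * p * u
    + 6 * l ^ 2 + 3 * l * p

/-- coefficient of `y ^ 0` in `FB (2 + y)` -/
def e0 (p u l : ℝ) : ℝ :=
  -9 / 2 * l * p ^ 2 * u + 15 / 4 * l * p * u ^ 2 - 3 / 4 * l * u ^ 3 - 36 * p ^ 4
    + 123 / 2 * p ^ 3 * u - 303 / 8 * p ^ 2 * u ^ 2 + 159 / 16 * p * u ^ 3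
    - 15 / 16 * u ^ 4 + 55 * l ^ 2 * p - 29 * l ^ 2 * u - 3 * l * p ^ 2
    - 15 / 4 * l * p * u + 9 / 4 * l * u ^ 2 - 9 * p ^ 3 + 3 * p ^ 2 * u
    + 9 / 4 * p * u ^ 2 - 3 / 4 * u ^ 3 + 24 * l ^ 2 + 75 / 2 * l * p - 33 / 2 * l * u
    + 27 / 2 * p ^ 2 - 45 / 4 * p * u + 9 / 4 * u ^ 2

/-- coefficient of `y ^ 1` in `FB (2 + y)` -/
def e1 (p u l : ℝ) : ℝ :=
  -15 / 4 * l * p ^ 2 * u + 3 / 2 * l * p * u ^ 2 - 60 * p ^ 4 + 301 / 4 * p ^ 3 * u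
    - 483 / 16 * p ^ 2 * u ^ 2 + 31 / 8 * p * u ^ 3 + 72 * l ^ 2 * p - 25 * l ^ 2 * u
    - 29 / 2 * l * p ^ 2 + 9 / 4 * l * p * u + 1 / 2 * l * u ^ 2 - 15 / 2 * p ^ 3
    - 3 / 4 * p ^ 2 * u + 3 / 2 * p * u ^ 2 + 50 * l ^ 2 + 105 / 2 * l * p - 15 * l * u
    + 45 / 4 * p ^ 2 - 9 / 2 * p * u

/-- coefficient of `y ^ 2` in `FB (2 + y)` -/
def e2 (p u l : ℝ) : ℝ :=
  -3 / 4 * l * p ^ 2 * u - 37 * p ^ 4 + 121 / 4 * p ^ 3 * u - 95 / 16 * p ^ 2 * u ^ 2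
    + 30 * l ^ 2 * p - 5 * l ^ 2 * u - 21 / 2 * l * p ^ 2 + 1 / 4 * l * p * u
    + 1 / 2 * l * u ^ 2 - 3 / 2 * p ^ 3 - 3 / 4 * p ^ 2 * u + 35 * l ^ 2 + 45 / 2 * l * p
    - 3 * l * u + 9 / 4 * p ^ 2

/-- coefficient of `y ^ 3` in `FB (2 + y)` -/
def e3 (p u l : ℝ) : ℝ :=
  -10 * p ^ 4 + 4 * p ^ 3 * u + 4 * l ^ 2 * p - 2 * l * p ^ 2 - 1 / 2 * l * p * u
    + 10 * l ^ 2 + 3 * l * p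

/-- coefficient of `y ^ 1` in `FA (1 + y)` -/
def b1 (p u l : ℝ) : ℝ :=
  9 / 4 * l * p ^ 2 * u + 3 / 2 * l * p * u ^ 2 + 12 * p ^ 4 + 101 / 4 * p ^ 3 * u
    + 277 / 16 * p ^ 2 * u ^ 2 + 31 / 8 * p * u ^ 3 + 24 * l ^ 2 * p + 15 * l ^ 2 * u
    - 53 / 2 * l * p ^ 2 - 95 / 4 * l * p * u - 7 / 2 * l * u ^ 2 + 9 / 2 * p ^ 3
    + 21 / 4 * p ^ 2 * u + 3 / 2 * p * u ^ 2 - 6 * l ^ 2 + 33 / 2 * l * p + 9 * l * u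
    - 27 / 4 * p ^ 2 - 9 / 2 * p * u

/-- coefficient of `y ^ 2` in `FA (1 + y)` -/
def b2 (p u l : ℝ) : ℝ :=
  3 / 4 * l * p ^ 2 * u + 13 * p ^ 4 + 71 / 4 * p ^ 3 * u + 95 / 16 * p ^ 2 * u ^ 2
    + 18 * l ^ 2 * p + 5 * l ^ 2 * u - 27 / 2 * l * p ^ 2 - 25 / 4 * l * p * u
    - 1 / 2 * l * u ^ 2 + 3 / 2 * p ^ 3 + 3 / 4 * p ^ 2 * u - 11 * l ^ 2 + 27 / 2 * l * p
    + 3 * l * u - 9 / 4 * p ^ 2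

/-- coefficient of `y ^ 3` in `FA (1 + y)` -/
def b3 (p u l : ℝ) : ℝ :=
  6 * p ^ 4 + 4 * p ^ 3 * u + 4 * l ^ 2 * p - 2 * l * p ^ 2 - 1 / 2 * l * p * u - 6 * l ^ 2
    + 3 * l * p

/-- (C): `l ≥ p ^ 2` -/
def StC : Prop := ∀ p u l : ℝ, 0 < p → -p ≤ u → u ≤ p → p ^ 2 ≤ l →
  0 < g0 p u l ∧ 0 ≤ a1 p u l ∧ 0 ≤ a2 p u l ∧ 0 ≤ a3 p u l

/-- (B): `l ≤ p ^ 2`, `lam ≤ B`, `m ≥ 1` -/
def StB : Prop := ∀ p u l : ℝ, 0 < p → -p ≤ u → u ≤ p → l ≤ p ^ 2 →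
  p ^ 2 - 3 / 4 * u - 3 / 2 ≤ 3 * l → 2 * p + u / 4 + 1 / 2 ≤ 3 * l →
  7 / 60 * e0 p u l ≤ p * g0 p u l
    ∧ (33 / 50 * p - 1 / 5 * u) * e1 p u l ≤ p * e0 p u l
    ∧ (2 * p - 3 / 5 * u) * e2 p u l ≤ p * e1 p u l
    ∧ (11 / 2 * p - 3 / 2 * u) * e3 p u l ≤ p * e2 p u l

/-- (A0): first step, `m ≥ 2` -/
def StA0 : Prop := ∀ p u l : ℝ, 0 < p → -p ≤ u → u ≤ p →
  p ^ 2 - 3 / 4 * u - 3 / 2 ≤ 3 * l → 2 * p + u / 4 + 5 / 2 ≤ 3 * l → 0 ≤ f0 p u l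

/-- (A1): `l ≤ p ^ 2`, `m ≥ 2` -/
def StA1 : Prop := ∀ p u l : ℝ, 0 < p → -p ≤ u → u ≤ p → l ≤ p ^ 2 →
  p ^ 2 - 3 / 4 * u - 3 / 2 ≤ 3 * l → 2 * p + u / 4 + 5 / 2 ≤ 3 * l →
  0 ≤ b1 p u l ∧ 0 ≤ b2 p u l ∧ 0 ≤ b3 p u l

/-- (A2): `p ^ 2 ≤ l`, `m ≥ 2` -/
def StA2 : Prop := ∀ p u l : ℝ, 0 < p → -p ≤ u → u ≤ p → p ^ 2 ≤ l →
  p ^ 2 - 3 / 4 * u - 3 / 2 ≤ 3 * l → 2 * p + u / 4 + 5 / 2 ≤ 3 * l →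
  3 / 5 * b2 p u l ≤ b1 p u l ∧ 23 / 10 * b3 p u l ≤ b2 p u l

/-- (D): `k > m`; `M = p + 2 m`, `3 l = M + p + u / 4 - 3 / 2` -/
def StD : Prop := ∀ (p u : ℝ) (m k : ℕ), 0 < p → -p ≤ u → u ≤ p → 0 ≤ p ^ 2 - u →
  p ^ 2 - u ≤ 2 * p + 2 * m → 1 ≤ m → 3 ≤ k → m + 1 ≤ k → (m ≠ 2 ∨ k ≠ 3) →
  (p + k) * ((p + 2 * m) * (k * p + u) - (2 * p + 2 * m + u / 4 - 3 / 2) / 3 * ((k : ℝ) ^ 2 - 1))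
    ≤ k * (k * p + u) ^ 2

/-- (D) for `m = 2`, `k = 3` -/
def StD23 : Prop := ∀ p u : ℝ, 0 < p → -p ≤ u → u ≤ p → 0 ≤ p ^ 2 - u →
  p ^ 2 - u ≤ 2 * p + 4 →
  (p + 3 - (p ^ 2 - u) / (p + 2)) * ((p + 4) * (3 * p + u) - (2 * p + 4 + u / 4 - 3 / 2) / 3 * 8)
    ≤ 3 * (3 * p + u) ^ 2

/-! ### expansions -/

theorem FB_one (p u l : ℝ) :
    FB (3 * l - p - u / 4 + 3 / 2) p u l 1 = (p - u) * g0 p u l := by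
  unfold FB g0; ring

theorem FA_one (p u l : ℝ) :
    FA (3 * l - p - u / 4 + 3 / 2) p u l 1 = (p + u) * f0 p u l := by
  unfold FA f0; ring

theorem FB_shift1 (p u l y : ℝ) :
    FB (3 * l - p - u / 4 + 3 / 2) p u l (1 + y) = (p - u) * g0 p u l + a1 p u l * y
      + a2 p u l * y ^ 2 + a3 p u l * y ^ 3 + (l ^ 2 - p ^ 4) * y ^ 4 := by
  unfold FB g0 a1 a2 a3; ring

theorem FB_shift2 (p u l y : ℝ) :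
    FB (3 * l - p - u / 4 + 3 / 2) p u l (2 + y) = e0 p u l + e1 p u l * y
      + e2 p u l * y ^ 2 + e3 p u l * y ^ 3 + (l ^ 2 - p ^ 4) * y ^ 4 := by
  unfold FB e0 e1 e2 e3; ring

theorem FA_shift1 (p u l y : ℝ) :
    FA (3 * l - p - u / 4 + 3 / 2) p u l (1 + y) = (p + u) * f0 p u l + b1 p u l * y
      + b2 p u l * y ^ 2 + b3 p u l * y ^ 3 + (p ^ 4 - l ^ 2) * y ^ 4 := by
  unfold FA f0 b1 b2 b3; ring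

end Pool.Agent.MFK.AL
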