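import Pool.Agent.Work.MP_8826fd_mp.AL.CertB2
import Pool.Agent.Work.MP_8826fd_mp.AL.Stmts

/-! # `StC` and `StB` -/

set_option autoImplicit false

namespace Pool.Agent.MFK.AL

theorem stC : StC := by
  intro p u l hp h1 h2 hl
  have c0 := certC_g0 p u l hp h1 h2 hl
  have c1 := certC_a1 p u l hp h1 h2 hl
  have c2 := certC_a2 p u l hp h1 h2 hl
  have c3 := certC_a3 p u l hp h1 h2 hl
  refine ⟨?_, ?_, ?_, ?_⟩
  · unfold g0; linarith
  · unfold a1; linarith
  · unfold a2; linarith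
  · unfold a3; linarith

theorem stB : StB := by
  intro p u l hp h1 h2 hl hlam hm
  have c0 := certB_B0 p u l hp h1 h2 hm hlam hl
  have c1 := certB_B1 p u l hp h1 h2 hm hlam hl
  have c2 := certB_B2 p u l hp h1 h2 hm hlam hl
  have c3 := certB_B3 p u l hp h1 h2 hm hlam hl
  refine ⟨?_, ?_, ?_, ?_⟩
  · unfold g0 e0; linarith
  · unfold e0 e1; linarith
  · unfold e1 e2; linarith
  · unfold e2 e3; linarith

end Pool.Agent.MFK.AL
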