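import Pool.Agent.Work.MP_8826fd_mp.AL.CertC

/-! # Certificates (B) for the beta side of (AL): region `l ≤ p ^ 2` -/

set_option autoImplicit false

namespace Pool.Agent.MFK

theorem bernT2 (g0 g1 g2 r s : ℝ) (hr : 0 ≤ r) (hs : 0 ≤ s) (h0 : 0 ≤ g0) (h1 : 0 ≤ g1)
    (h2 : 0 ≤ g2) : 0 ≤ g0 * s ^ 2 + 2 * g1 * r * s + g2 * r ^ 2 := by positivity

theorem bernT3 (g0 g1 g2 g3 r s : ℝ) (hr : 0 ≤ r) (hs : 0 ≤ s) (h0 : 0 ≤ g0) (h1 : 0 ≤ g1)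
    (h2 : 0 ≤ g2) (h3 : 0 ≤ g3) :
    0 ≤ g0 * s ^ 3 + 3 * g1 * r * s ^ 2 + 3 * g2 * r ^ 2 * s + g3 * r ^ 3 := by positivity

theorem bernT4 (g0 g1 g2 g3 g4 r s : ℝ) (hr : 0 ≤ r) (hs : 0 ≤ s) (h0 : 0 ≤ g0) (h1 : 0 ≤ g1)
    (h2 : 0 ≤ g2) (h3 : 0 ≤ g3) (h4 : 0 ≤ g4) :
    0 ≤ g0 * s ^ 4 + 4 * g1 * r * s ^ 3 + 6 * g2 * r ^ 2 * s ^ 2 + 4 * g3 * r ^ 3 * s
      + g4 * r ^ 4 := by positivity

theorem certB_B3l_0 (p u : ℝ) (hpa : (3 / 4) ≤ p) (h1 : -p ≤ u) (h2 : u ≤ p) :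
    0 ≤ -(5 / 36) * p ^ 5 * u + (8 / 9) * p ^ 6 - (77 / 12) * p ^ 4 * u + (287 / 18) * p ^ 5 + (1 / 8) * p *
      u ^ 3 - 2 * p ^ 2 * u ^ 2 + 3 * p ^ 3 * u - (13 / 6) * p ^ 4 - (5 / 4) * p * u ^ 2 - (9 / 2) * p ^ 2
      * u + (26 / 3) * p ^ 3 + (15 / 16) * u ^ 3 - (11 / 2) * p * u - p ^ 2 + (15 / 4) * u ^ 2 - 5 * p +
      (15 / 4) * u := by
  obtain ⟨r, s, hr, hs, hrs, hu⟩ := conv_u p u (by linarith) h1 h2
  obtain ⟨z, hz, hpz⟩ : ∃ z, 0 ≤ z ∧ p = (3 / 4) + z := ⟨p - (3 / 4), by linarith, by ring⟩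
  have g0 : 0 ≤ (37 / 36) * p ^ 6 + (805 / 36) * p ^ 5 - (175 / 24) * p ^ 4 + (527 / 48) * p ^ 3 + (33 / 4) * p ^ 2
      - (35 / 4) * p := by
    have e : (37 / 36) * p ^ 6 + (805 / 36) * p ^ 5 - (175 / 24) * p ^ 4 + (527 / 48) * p ^ 3 + (33 / 4) * p ^ 2
      - (35 / 4) * p
        = (96537 / 16384) + (95615 / 2048) * z + (110139 / 1024) * z ^ 2 + (23723 / 192) * z ^ 3 + (5455 / 64)
      * z ^ 4 + (1943 / 72) * z ^ 5 + (37 / 36) * z ^ 6 := by rw [hpz]; ring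
    rw [e]; positivity
  have g1 : 0 ≤ (101 / 108) * p ^ 6 + (217 / 12) * p ^ 5 - (19 / 8) * p ^ 4 + (553 / 48) * p ^ 3 - (5 / 12) * p ^ 2
      - (25 / 4) * p := by
    have e : (101 / 108) * p ^ 6 + (217 / 12) * p ^ 5 - (19 / 8) * p ^ 4 + (553 / 48) * p ^ 3 - (5 / 12) * p ^ 2
      - (25 / 4) * p
        = (59715 / 16384) + (78845 / 2048) * z + (301723 / 3072) * z ^ 2 + (21889 / 192) * z ^ 3 + (4693 / 64)
      * z ^ 4 + (535 / 24) * z ^ 5 + (101 / 108) * z ^ 6 := by rw [hpz]; ring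
    rw [e]; positivity
  have g2 : 0 ≤ (91 / 108) * p ^ 6 + (497 / 36) * p ^ 5 - (5 / 8) * p ^ 4 + (319 / 48) * p ^ 3 - (49 / 12) * p ^ 2 -
      (15 / 4) * p := by
    have e : (91 / 108) * p ^ 6 + (497 / 36) * p ^ 5 - (5 / 8) * p ^ 4 + (319 / 48) * p ^ 3 - (49 / 12) * p ^ 2 -
      (15 / 4) * p
        = (15117 / 16384) + (47771 / 2048) * z + (218117 / 3072) * z ^ 2 + (17191 / 192) * z ^ 3 + (11185 /
      192) * z ^ 4 + (1267 / 72) * z ^ 5 + (91 / 108) * z ^ 6 := by rw [hpz]; ring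
    rw [e]; positivity
  have g3 : 0 ≤ (3 / 4) * p ^ 6 + (343 / 36) * p ^ 5 - (25 / 24) * p ^ 4 + (185 / 48) * p ^ 3 - (11 / 4) * p ^ 2 -
      (5 / 4) * p := by
    have e : (3 / 4) * p ^ 6 + (343 / 36) * p ^ 5 - (25 / 24) * p ^ 4 + (185 / 48) * p ^ 3 - (11 / 4) * p ^ 2 -
      (5 / 4) * p
        = (19767 / 16384) + (31769 / 2048) * z + (47269 / 1024) * z ^ 2 + (11645 / 192) * z ^ 3 + (2625 / 64)
      * z ^ 4 + (929 / 72) * z ^ 5 + (3 / 4) * z ^ 6 := by rw [hpz]; ring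
    rw [e]; positivity
  have h := bernT3 _ _ _ _ r s hr hs g0 g1 g2 g3
  refine h.trans_eq ?_
  obtain rfl : s = 1 - r := by linarith
  rw [hu]; ring

theorem certB_B3l_1 (p u : ℝ) (hpa : (3 / 4) ≤ p) (h1 : -p ≤ u) (h2 : u ≤ p) :
    0 ≤ -(1 / 6) * p ^ 5 * u + (8 / 3) * p ^ 6 - (25 / 96) * p ^ 3 * u ^ 2 - (15 / 4) * p ^ 4 * u + (35 / 3)
      * p ^ 5 + (1 / 32) * p * u ^ 3 - (15 / 4) * p ^ 2 * u ^ 2 + (39 / 8) * p ^ 3 * u - (3 / 2) * p ^ 4 -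
      (1 / 8) * p * u ^ 2 - (33 / 4) * p ^ 2 * u + (97 / 8) * p ^ 3 - (3 / 8) * p * u - (3 / 2) * p ^ 2 := by
  obtain ⟨r, s, hr, hs, hrs, hu⟩ := conv_u p u (by linarith) h1 h2
  obtain ⟨z, hz, hpz⟩ : ∃ z, 0 ≤ z ∧ p = (3 / 4) + z := ⟨p - (3 / 4), by linarith, by ring⟩
  have g0 : 0 ≤ (17 / 6) * p ^ 6 + (485 / 32) * p ^ 5 - (325 / 32) * p ^ 4 + (81 / 4) * p ^ 3 - (9 / 8) * p ^ 2 := by
    have e : (17 / 6) * p ^ 6 + (485 / 32) * p ^ 5 - (325 / 32) * p ^ 4 + (81 / 4) * p ^ 3 - (9 / 8) * p ^ 2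
        = (288279 / 32768) + (355185 / 8192) * z + (89649 / 1024) * z ^ 2 + (25329 / 256) * z ^ 3 + (9035 /
      128) * z ^ 4 + (893 / 32) * z ^ 5 + (17 / 6) * z ^ 6 := by rw [hpz]; ring
    rw [e]; positivity
  have g1 : 0 ≤ (49 / 18) * p ^ 6 + (3745 / 288) * p ^ 5 - (59 / 32) * p ^ 4 + (179 / 12) * p ^ 3 - (11 / 8) * p ^ 2 := by
    have e : (49 / 18) * p ^ 6 + (3745 / 288) * p ^ 5 - (59 / 32) * p ^ 4 + (179 / 12) * p ^ 3 - (11 / 8) * p ^ 2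
        = (278739 / 32768) + (364101 / 8192) * z + (95993 / 1024) * z ^ 2 + (81023 / 768) * z ^ 3 + (26837 /
      384) * z ^ 4 + (7273 / 288) * z ^ 5 + (49 / 18) * z ^ 6 := by rw [hpz]; ring
    rw [e]; positivity
  have g2 : 0 ≤ (47 / 18) * p ^ 6 + (3025 / 288) * p ^ 5 + (43 / 32) * p ^ 4 + (113 / 12) * p ^ 3 - (13 / 8) * p ^ 2 := by
    have e : (47 / 18) * p ^ 6 + (3025 / 288) * p ^ 5 + (43 / 32) * p ^ 4 + (113 / 12) * p ^ 3 - (13 / 8) * p ^ 2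
        = (211059 / 32768) + (295365 / 8192) * z + (82741 / 1024) * z ^ 2 + (72623 / 768) * z ^ 3 + (24101 /
      384) * z ^ 4 + (6409 / 288) * z ^ 5 + (47 / 18) * z ^ 6 := by rw [hpz]; ring
    rw [e]; positivity
  have g3 : 0 ≤ (5 / 2) * p ^ 6 + (245 / 32) * p ^ 5 - (11 / 32) * p ^ 4 + (15 / 4) * p ^ 3 - (15 / 8) * p ^ 2 := by
    have e : (5 / 2) * p ^ 6 + (245 / 32) * p ^ 5 - (11 / 32) * p ^ 4 + (15 / 4) * p ^ 3 - (15 / 8) * p ^ 2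
        = (87831 / 32768) + (152433 / 8192) * z + (50757 / 1024) * z ^ 2 + (17121 / 256) * z ^ 3 + (6331 /
      128) * z ^ 4 + (605 / 32) * z ^ 5 + (5 / 2) * z ^ 6 := by rw [hpz]; ring
    rw [e]; positivity
  have h := bernT3 _ _ _ _ r s hr hs g0 g1 g2 g3
  refine h.trans_eq ?_
  obtain rfl : s = 1 - r := by linarith
  rw [hu]; ring

theorem certB_B3l_2 (p u : ℝ) (hpa : (3 / 4) ≤ p) (h1 : -p ≤ u) (h2 : u ≤ p) :
    0 ≤ (1 / 4) * p ^ 5 * u + 8 * p ^ 6 - (3 / 16) * p ^ 3 * u ^ 2 + (33 / 4) * p ^ 4 * u - (3 / 2) * p ^ 5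
      + (3 / 4) * p ^ 3 * u + (9 / 2) * p ^ 4 + (9 / 4) * p ^ 3 := by
  obtain ⟨r, s, hr, hs, hrs, hu⟩ := conv_u p u (by linarith) h1 h2
  obtain ⟨z, hz, hpz⟩ : ∃ z, 0 ≤ z ∧ p = (3 / 4) + z := ⟨p - (3 / 4), by linarith, by ring⟩
  have g0 : 0 ≤ (31 / 4) * p ^ 6 - (159 / 16) * p ^ 5 + (15 / 4) * p ^ 4 + (9 / 4) * p ^ 3 := by
    have e : (31 / 4) * p ^ 6 - (159 / 16) * p ^ 5 + (15 / 4) * p ^ 4 + (9 / 4) * p ^ 3
        = (9477 / 8192) + (22275 / 4096) * z + (12879 / 1024) * z ^ 2 + (2943 / 128) * z ^ 3 + (255 / 8) * z ^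
      4 + (399 / 16) * z ^ 5 + (31 / 4) * z ^ 6 := by rw [hpz]; ring
    rw [e]; positivity
  have g1 : 0 ≤ 8 * p ^ 6 - (21 / 16) * p ^ 5 + (9 / 2) * p ^ 4 + (9 / 4) * p ^ 3 := by
    have e : 8 * p ^ 6 - (21 / 16) * p ^ 5 + (9 / 2) * p ^ 4 + (9 / 4) * p ^ 3
        = (57105 / 16384) + (84807 / 4096) * z + (26973 / 512) * z ^ 2 + (9711 / 128) * z ^ 3 + (4293 / 64) *
      z ^ 4 + (555 / 16) * z ^ 5 + 8 * z ^ 6 := by rw [hpz]; ring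
    rw [e]; positivity
  have g2 : 0 ≤ (33 / 4) * p ^ 6 + (105 / 16) * p ^ 5 + (21 / 4) * p ^ 4 + (9 / 4) * p ^ 3 := by
    have e : (33 / 4) * p ^ 6 + (105 / 16) * p ^ 5 + (21 / 4) * p ^ 4 + (9 / 4) * p ^ 3
        = (23085 / 4096) + (142479 / 4096) * z + (91773 / 1024) * z ^ 2 + (15939 / 128) * z ^ 3 + (3183 / 32)
      * z ^ 4 + (699 / 16) * z ^ 5 + (33 / 4) * z ^ 6 := by rw [hpz]; ring
    rw [e]; positivity
  have h := bernT2 _ _ _ r s hr hs g0 g1 g2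
  refine h.trans_eq ?_
  obtain rfl : s = 1 - r := by linarith
  rw [hu]; ring

theorem certB_B3l (p u l : ℝ) (hpa : (3 / 4) ≤ p) (h1 : -p ≤ u) (h2 : u ≤ p)
    (hl0 : (1 / 3) * p ^ 2 - (1 / 4) * u - (1 / 2) ≤ l) (hl : l ≤ p ^ 2) :
    0 ≤ -(3 / 4) * l * p ^ 3 * u + (1 / 16) * p ^ 3 * u ^ 2 - (27 / 4) * p ^ 4 * u + 18 * p ^ 5 - (1 / 4) *
      l * p * u ^ 2 + (1 / 2) * l * p ^ 3 + l ^ 2 * p * u + 8 * l ^ 2 * p ^ 2 - (3 / 4) * p ^ 3 * u - (3 /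
      2) * p ^ 4 + (3 / 2) * l * p * u + 6 * l * p ^ 2 - 20 * l ^ 2 * p + 15 * l ^ 2 * u + (9 / 4) * p ^ 3 := by
  obtain ⟨x, y, hx, hy, hxy, hlxy⟩ := conv_seg _ _ l hl0 hl
  have h := bernT2 _ _ _ y x hy hx (certB_B3l_0 p u hpa h1 h2) (certB_B3l_1 p u hpa h1 h2)
    (certB_B3l_2 p u hpa h1 h2)
  refine h.trans_eq ?_
  obtain rfl : y = 1 - x := by linarith
  rw [hlxy]; ring

theorem certB_B3 (p u l : ℝ) (hp : 0 < p) (h1 : -p ≤ u) (h2 : u ≤ p)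
    (hm : 2 * p + u / 4 + 1 / 2 ≤ 3 * l) (hlam : p ^ 2 - 3 / 4 * u - 3 / 2 ≤ 3 * l)
    (hl : l ≤ p ^ 2) :
    0 ≤ -(3 / 4) * l * p ^ 3 * u + (1 / 16) * p ^ 3 * u ^ 2 - (27 / 4) * p ^ 4 * u + 18 * p ^ 5 - (1 / 4) *
      l * p * u ^ 2 + (1 / 2) * l * p ^ 3 + l ^ 2 * p * u + 8 * l ^ 2 * p ^ 2 - (3 / 4) * p ^ 3 * u - (3 /
      2) * p ^ 4 + (3 / 2) * l * p * u + 6 * l * p ^ 2 - 20 * l ^ 2 * p + 15 * l ^ 2 * u + (9 / 4) * p ^ 3 := by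
  have h34 : (3 / 4 : ℝ) ≤ p := by
    by_contra hc
    push Not at hc
    nlinarith
  exact certB_B3l p u l h34 h1 h2 (by linarith) hl

theorem certB_B2m_0 (p u : ℝ) (hpa : (3 / 4) ≤ p) (hpb : p ≤ 1) (h1 : -p ≤ u) (h2 : u ≤ p) :
    0 ≤ (2 / 5) * p ^ 2 * u ^ 3 + (7 / 20) * p ^ 3 * u ^ 2 - (179 / 20) * p ^ 4 * u + 14 * p ^ 5 - (17 /
      120) * p * u ^ 3 - (73 / 240) * p ^ 2 * u ^ 2 - (7 / 20) * p ^ 3 * u + (31 / 6) * p ^ 4 + (1 / 240)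
      * u ^ 4 + (131 / 180) * p * u ^ 2 + (1409 / 180) * p ^ 2 * u + (119 / 18) * p ^ 3 - (3 / 80) * u ^ 3
      + (89 / 18) * p * u - (103 / 36) * p ^ 2 + (1 / 5) * u ^ 2 - (5 / 9) * p + (7 / 12) * u := by
  obtain ⟨r, s, hr, hs, hrs, hu⟩ := conv_u p u (by linarith) h1 h2
  obtain ⟨a, b, ha, hb, hab, hpab⟩ := conv_seg _ _ p hpa hpb
  have g0 : 0 ≤ (229 / 10) * p ^ 5 + (643 / 120) * p ^ 4 - (65 / 144) * p ^ 3 - (1369 / 180) * p ^ 2 - (41 / 36) * p := by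
    have e : (229 / 10) * p ^ 5 + (643 / 120) * p ^ 4 - (65 / 144) * p ^ 3 - (1369 / 180) * p ^ 2 - (41 / 36) * p
        = (5551 / 3072) * a ^ 5 + (1569049 / 92160) * a ^ 4 * b + (2610937 / 46080) * a ^ 3 * b ^ 2 + (1015577
      / 11520) * a ^ 2 * b ^ 3 + (12625 / 192) * a * b ^ 4 + (305 / 16) * b ^ 5 := by
      obtain rfl : b = 1 - a := by linarith
      rw [hpab]; ring
    rw [e]; positivity
  have g1 : 0 ≤ (747 / 40) * p ^ 5 + (79 / 15) * p ^ 4 + (3857 / 1440) * p ^ 3 - (16 / 3) * p ^ 2 - (61 / 72) * p := by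
    have e : (747 / 40) * p ^ 5 + (79 / 15) * p ^ 4 + (3857 / 1440) * p ^ 3 - (16 / 3) * p ^ 2 - (61 / 72) * p
        = (441463 / 122880) * a ^ 5 + (2441257 / 92160) * a ^ 4 * b + (1402847 / 18432) * a ^ 3 * b ^ 2 +
      (2471003 / 23040) * a ^ 2 * b ^ 3 + (428873 / 5760) * a * b ^ 4 + (9811 / 480) * b ^ 5 := by
      obtain rfl : b = 1 - a := by linarith
      rw [hpab]; ring
    rw [e]; positivity
  have g2 : 0 ≤ (833 / 60) * p ^ 5 + (949 / 180) * p ^ 4 + (3439 / 540) * p ^ 3 - (527 / 180) * p ^ 2 - (5 / 9) * p := by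
    have e : (833 / 60) * p ^ 5 + (949 / 180) * p ^ 4 + (3439 / 540) * p ^ 3 - (527 / 180) * p ^ 2 - (5 / 9) * p
        = (343199 / 61440) * a ^ 5 + (427331 / 11520) * a ^ 4 * b + (376339 / 3840) * a ^ 3 * b ^ 2 + (55673 /
      432) * a ^ 2 * b ^ 3 + (22789 / 270) * a * b ^ 4 + (5951 / 270) * b ^ 5 := by
      obtain rfl : b = 1 - a := by linarith
      rw [hpab]; ring
    rw [e]; positivity
  have g3 : 0 ≤ (373 / 40) * p ^ 5 + (607 / 120) * p ^ 4 + (1687 / 160) * p ^ 3 - (7 / 18) * p ^ 2 - (19 / 72) * p := by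
    have e : (373 / 40) * p ^ 5 + (607 / 120) * p ^ 4 + (1687 / 160) * p ^ 3 - (7 / 18) * p ^ 2 - (19 / 72) * p
        = (963973 / 122880) * a ^ 5 + (1135471 / 23040) * a ^ 4 * b + (11397077 / 92160) * a ^ 3 * b ^ 2 +
      (1190191 / 7680) * a ^ 2 * b ^ 3 + (111755 / 1152) * a * b ^ 4 + (6991 / 288) * b ^ 5 := by
      obtain rfl : b = 1 - a := by linarith
      rw [hpab]; ring
    rw [e]; positivity
  have g4 : 0 ≤ (29 / 5) * p ^ 5 + (35 / 8) * p ^ 4 + (3631 / 240) * p ^ 3 + (137 / 60) * p ^ 2 + (1 / 36) * p := by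
    have e : (29 / 5) * p ^ 5 + (35 / 8) * p ^ 4 + (3631 / 240) * p ^ 3 + (137 / 60) * p ^ 2 + (1 / 36) * p
        = (320977 / 30720) * a ^ 5 + (5863939 / 92160) * a ^ 4 * b + (7130831 / 46080) * a ^ 3 * b ^ 2 +
      (721597 / 3840) * a ^ 2 * b ^ 3 + (328193 / 2880) * a * b ^ 4 + (19883 / 720) * b ^ 5 := by
      obtain rfl : b = 1 - a := by linarith
      rw [hpab]; ring
    rw [e]; positivity
  have h := bernT4 _ _ _ _ _ r s hr hs g0 g1 g2 g3 g4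
  refine h.trans_eq ?_
  obtain rfl : s = 1 - r := by linarith
  rw [hu]; ring

theorem certB_B2m_1 (p u : ℝ) (hpa : (3 / 4) ≤ p) (hpb : p ≤ 1) (h1 : -p ≤ u) (h2 : u ≤ p) :
    0 ≤ (21 / 40) * p ^ 4 * u ^ 2 - (9 / 8) * p ^ 5 * u + (41 / 160) * p ^ 2 * u ^ 3 - (293 / 160) * p ^ 3 *
      u ^ 2 - (299 / 40) * p ^ 4 * u + (101 / 4) * p ^ 5 + (41 / 480) * p * u ^ 3 + (189 / 160) * p ^ 2 *
      u ^ 2 + (27 / 2) * p ^ 3 * u - (119 / 12) * p ^ 4 + (1 / 80) * u ^ 4 - (53 / 120) * p * u ^ 2 + (107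
      / 60) * p ^ 2 * u + (155 / 24) * p ^ 3 - (1 / 20) * u ^ 3 + (3 / 8) * p * u + (5 / 8) * p ^ 2 - (3 /
      20) * u ^ 2 := by
  obtain ⟨r, s, hr, hs, hrs, hu⟩ := conv_u p u (by linarith) h1 h2
  obtain ⟨a, b, ha, hb, hab, hpab⟩ := conv_seg _ _ p hpa hpb
  have g0 : 0 ≤ (33 / 20) * p ^ 6 + (2451 / 80) * p ^ 5 - (2677 / 120) * p ^ 4 + (257 / 60) * p ^ 3 + (1 / 10) * p ^
      2 := by
    have e : (33 / 20) * p ^ 6 + (2451 / 80) * p ^ 5 - (2677 / 120) * p ^ 4 + (257 / 60) * p ^ 3 + (1 / 10) * p ^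
      2
        = (97029 / 40960) * a ^ 6 + (317049 / 16384) * a ^ 5 * b + (1345397 / 20480) * a ^ 4 * b ^ 2 + (910621
      / 7680) * a ^ 3 * b ^ 3 + (230297 / 1920) * a ^ 2 * b ^ 4 + (61871 / 960) * a * b ^ 5 + (1149 / 80)
      * b ^ 6 := by
      obtain rfl : b = 1 - a := by linarith
      rw [hpab]; ring
    rw [e]; positivity
  have g1 : 0 ≤ (9 / 16) * p ^ 6 + (9317 / 320) * p ^ 5 - (15971 / 960) * p ^ 4 + (133 / 24) * p ^ 3 + (7 / 16) * p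
      ^ 2 := by
    have e : (9 / 16) * p ^ 6 + (9317 / 320) * p ^ 5 - (15971 / 960) * p ^ 4 + (133 / 24) * p ^ 3 + (7 / 16) * p
      ^ 2
        = (22167 / 5120) * a ^ 6 + (10871139 / 327680) * a ^ 5 * b + (2172503 / 20480) * a ^ 4 * b ^ 2 +
      (5562959 / 30720) * a ^ 3 * b ^ 3 + (334043 / 1920) * a ^ 2 * b ^ 4 + (342329 / 3840) * a * b ^ 5 +
      (913 / 48) * b ^ 6 := by
      obtain rfl : b = 1 - a := by linarith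
      rw [hpab]; ring
    rw [e]; positivity
  have g2 : 0 ≤ -(7 / 40) * p ^ 6 + (12413 / 480) * p ^ 5 - (4943 / 480) * p ^ 4 + (1189 / 180) * p ^ 3 + (27 / 40)
      * p ^ 2 := by
    have e : -(7 / 40) * p ^ 6 + (12413 / 480) * p ^ 5 - (4943 / 480) * p ^ 4 + (1189 / 180) * p ^ 3 + (27 / 40)
      * p ^ 2
        = (98529 / 16384) * a ^ 6 + (1472709 / 32768) * a ^ 5 * b + (2868781 / 20480) * a ^ 4 * b ^ 2 +
      (10737499 / 46080) * a ^ 3 * b ^ 3 + (139619 / 640) * a ^ 2 * b ^ 4 + (69729 / 640) * a * b ^ 5 +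
      (16321 / 720) * b ^ 6 := by
      obtain rfl : b = 1 - a := by linarith
      rw [hpab]; ring
    rw [e]; positivity
  have g3 : 0 ≤ -(9 / 16) * p ^ 6 + (6843 / 320) * p ^ 5 - (1031 / 320) * p ^ 4 + (59 / 8) * p ^ 3 + (13 / 16) * p ^
      2 := by
    have e : -(9 / 16) * p ^ 6 + (6843 / 320) * p ^ 5 - (1031 / 320) * p ^ 4 + (59 / 8) * p ^ 3 + (13 / 16) * p ^
      2
        = (963 / 128) * a ^ 6 + (18171453 / 327680) * a ^ 5 * b + (3487799 / 20480) * a ^ 4 * b ^ 2 + (2855939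
      / 10240) * a ^ 3 * b ^ 3 + (164393 / 640) * a ^ 2 * b ^ 4 + (161437 / 1280) * a * b ^ 5 + (2063 /
      80) * b ^ 6 := by
      obtain rfl : b = 1 - a := by linarith
      rw [hpab]; ring
    rw [e]; positivity
  have g4 : 0 ≤ -(3 / 5) * p ^ 6 + (81 / 5) * p ^ 5 + (389 / 80) * p ^ 4 + (31 / 4) * p ^ 3 + (17 / 20) * p ^ 2 := by
    have e : -(3 / 5) * p ^ 6 + (81 / 5) * p ^ 5 + (389 / 80) * p ^ 4 + (31 / 4) * p ^ 3 + (17 / 20) * p ^ 2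
        = (92403 / 10240) * a ^ 6 + (675591 / 10240) * a ^ 5 * b + (4112069 / 20480) * a ^ 4 * b ^ 2 + (6511 /
      20) * a ^ 3 * b ^ 3 + (189811 / 640) * a ^ 2 * b ^ 4 + (5757 / 40) * a * b ^ 5 + (465 / 16) * b ^ 6 := by
      obtain rfl : b = 1 - a := by linarith
      rw [hpab]; ring
    rw [e]; positivity
  have h := bernT4 _ _ _ _ _ r s hr hs g0 g1 g2 g3 g4
  refine h.trans_eq ?_
  obtain rfl : s = 1 - r := by linarith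
  rw [hu]; ring

theorem certB_B2m_2 (p u : ℝ) (hpa : (3 / 4) ≤ p) (hpb : p ≤ 1) (h1 : -p ≤ u) (h2 : u ≤ p) :
    0 ≤ -(39 / 20) * p ^ 4 * u ^ 2 + (3 / 4) * p ^ 5 * u + 12 * p ^ 6 + (49 / 80) * p ^ 2 * u ^ 3 - (41 /
      80) * p ^ 3 * u ^ 2 + 9 * p ^ 4 * u + (1 / 2) * p ^ 5 - (3 / 4) * p ^ 2 * u ^ 2 + (87 / 20) * p ^ 3
      * u + 3 * p ^ 4 - (63 / 20) * p ^ 2 * u + (27 / 4) * p ^ 3 := by
  obtain ⟨r, s, hr, hs, hrs, hu⟩ := conv_u p u (by linarith) h1 h2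
  obtain ⟨a, b, ha, hb, hab, hpab⟩ := conv_seg _ _ p hpa hpb
  have g0 : 0 ≤ (93 / 10) * p ^ 6 - (77 / 8) * p ^ 5 - (21 / 10) * p ^ 4 + (99 / 10) * p ^ 3 := by
    have e : (93 / 10) * p ^ 6 - (77 / 8) * p ^ 5 - (21 / 10) * p ^ 4 + (99 / 10) * p ^ 3
        = (59049 / 20480) * a ^ 6 + (823041 / 40960) * a ^ 5 * b + (119583 / 2048) * a ^ 4 * b ^ 2 + (116127 /
      1280) * a ^ 3 * b ^ 3 + (25497 / 320) * a ^ 2 * b ^ 4 + (6017 / 160) * a * b ^ 5 + (299 / 40) * b ^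
      6 := by
      obtain rfl : b = 1 - a := by linarith
      rw [hpab]; ring
    rw [e]; positivity
  have g1 : 0 ≤ (62 / 5) * p ^ 6 - (103 / 60) * p ^ 5 + (9 / 5) * p ^ 4 + (39 / 5) * p ^ 3 := by
    have e : (62 / 5) * p ^ 6 - (103 / 60) * p ^ 5 + (9 / 5) * p ^ 4 + (39 / 5) * p ^ 3
        = (115911 / 20480) * a ^ 6 + (854901 / 20480) * a ^ 5 * b + (131607 / 1024) * a ^ 4 * b ^ 2 + (135387
      / 640) * a ^ 3 * b ^ 3 + (31427 / 160) * a ^ 2 * b ^ 4 + (23423 / 240) * a * b ^ 5 + (1217 / 60) * b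
      ^ 6 := by
      obtain rfl : b = 1 - a := by linarith
      rw [hpab]; ring
    rw [e]; positivity
  have g2 : 0 ≤ (129 / 10) * p ^ 6 + (367 / 120) * p ^ 5 + (47 / 10) * p ^ 4 + (57 / 10) * p ^ 3 := by
    have e : (129 / 10) * p ^ 6 + (367 / 120) * p ^ 5 + (47 / 10) * p ^ 4 + (57 / 10) * p ^ 3
        = (35397 / 5120) * a ^ 6 + (423279 / 8192) * a ^ 5 * b + (329877 / 2048) * a ^ 4 * b ^ 2 + (343221 /
      1280) * a ^ 3 * b ^ 3 + (80471 / 320) * a ^ 2 * b ^ 4 + (60481 / 480) * a * b ^ 5 + (3163 / 120) * b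
      ^ 6 := by
      obtain rfl : b = 1 - a := by linarith
      rw [hpab]; ring
    rw [e]; positivity
  have g3 : 0 ≤ (54 / 5) * p ^ 6 + (48 / 5) * p ^ 5 + (33 / 5) * p ^ 4 + (18 / 5) * p ^ 3 := by
    have e : (54 / 5) * p ^ 6 + (48 / 5) * p ^ 5 + (33 / 5) * p ^ 4 + (18 / 5) * p ^ 3
        = (79947 / 10240) * a ^ 6 + (75249 / 1280) * a ^ 5 * b + (47223 / 256) * a ^ 4 * b ^ 2 + (49401 / 160)
      * a ^ 3 * b ^ 3 + (11631 / 40) * a ^ 2 * b ^ 4 + (1461 / 10) * a * b ^ 5 + (153 / 5) * b ^ 6 := by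
      obtain rfl : b = 1 - a := by linarith
      rw [hpab]; ring
    rw [e]; positivity
  have h := bernT3 _ _ _ _ r s hr hs g0 g1 g2 g3
  refine h.trans_eq ?_
  obtain rfl : s = 1 - r := by linarith
  rw [hu]; ring

theorem certB_B2m (p u l : ℝ) (hpa : (3 / 4) ≤ p) (hpb : p ≤ 1) (h1 : -p ≤ u) (h2 : u ≤ p)
    (hl0 : (2 / 3) * p + (1 / 12) * u + (1 / 6) ≤ l) (hl : l ≤ p ^ 2) :
    0 ≤ (21 / 20) * l * p ^ 2 * u ^ 2 - (9 / 4) * l * p ^ 3 * u + (5 / 16) * p ^ 2 * u ^ 3 - (13 / 80) * p ^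
      3 * u ^ 2 - (149 / 20) * p ^ 4 * u + 14 * p ^ 5 - (7 / 20) * l * p * u ^ 2 - (91 / 20) * l * p ^ 2 *
      u + (13 / 2) * l * p ^ 3 + (3 / 10) * l * u ^ 3 + 3 * l ^ 2 * p * u + 12 * l ^ 2 * p ^ 2 - 3 * l ^ 2
      * u ^ 2 + (21 / 20) * p ^ 2 * u ^ 2 - (3 / 20) * p ^ 3 * u - (9 / 2) * p ^ 4 + (9 / 2) * l * p * u +
      (15 / 2) * l * p ^ 2 - (9 / 5) * l * u ^ 2 - 20 * l ^ 2 * p + 21 * l ^ 2 * u - (63 / 20) * p ^ 2 * u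
      + (27 / 4) * p ^ 3 := by
  obtain ⟨x, y, hx, hy, hxy, hlxy⟩ := conv_seg _ _ l hl0 hl
  have h := bernT2 _ _ _ y x hy hx (certB_B2m_0 p u hpa hpb h1 h2) (certB_B2m_1 p u hpa hpb h1 h2)
    (certB_B2m_2 p u hpa hpb h1 h2)
  refine h.trans_eq ?_
  obtain rfl : y = 1 - x := by linarith
  rw [hlxy]; ring

theorem certB_B2l_0 (p u : ℝ) (hpa : 1 ≤ p) (h1 : -p ≤ u) (h2 : u ≤ p) :
    0 ≤ (1 / 60) * p ^ 4 * u ^ 2 - (5 / 12) * p ^ 5 * u + (4 / 3) * p ^ 6 + (13 / 20) * p ^ 2 * u ^ 3 - (13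
      / 60) * p ^ 3 * u ^ 2 - (259 / 30) * p ^ 4 * u + (251 / 18) * p ^ 5 + (11 / 40) * p * u ^ 3 - (11 /
      16) * p ^ 2 * u ^ 2 + (191 / 60) * p ^ 3 * u - 6 * p ^ 4 - (21 / 80) * u ^ 4 - (29 / 20) * p * u ^ 2
      - (27 / 4) * p ^ 2 * u + (61 / 6) * p ^ 3 + (69 / 80) * u ^ 3 - (13 / 2) * p * u - (3 / 4) * p ^ 2 +
      (27 / 5) * u ^ 2 - 5 * p + (21 / 4) * u := by
  obtain ⟨r, s, hr, hs, hrs, hu⟩ := conv_u p u (by linarith) h1 h2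
  obtain ⟨z, hz, hpz⟩ : ∃ z, 0 ≤ z ∧ p = 1 + z := ⟨p - 1, by linarith, by ring⟩
  have g0 : 0 ≤ (53 / 30) * p ^ 6 + (977 / 45) * p ^ 5 - (1249 / 120) * p ^ 4 + (701 / 48) * p ^ 3 + (223 / 20) * p
      ^ 2 - (41 / 4) * p := by
    have e : (53 / 30) * p ^ 6 + (977 / 45) * p ^ 5 - (1249 / 120) * p ^ 4 + (701 / 48) * p ^ 3 + (223 / 20) * p
      ^ 2 - (41 / 4) * p
        = (20573 / 720) + (96037 / 720) * z + (170009 / 720) * z ^ 2 + (162299 / 720) * z ^ 3 + (44873 / 360)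
      * z ^ 4 + (1454 / 45) * z ^ 5 + (53 / 30) * z ^ 6 := by rw [hpz]; ring
    rw [e]; positivity
  have g1 : 0 ≤ (37 / 24) * p ^ 6 + (6691 / 360) * p ^ 5 - (863 / 120) * p ^ 4 + (6707 / 480) * p ^ 3 + (5 / 2) * p
      ^ 2 - (61 / 8) * p := by
    have e : (37 / 24) * p ^ 6 + (6691 / 360) * p ^ 5 - (863 / 120) * p ^ 4 + (6707 / 480) * p ^ 3 + (5 / 2) * p
      ^ 2 - (61 / 8) * p
        = (31369 / 1440) + (162299 / 1440) * z + (302767 / 1440) * z ^ 2 + (290737 / 1440) * z ^ 3 + (39191 /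
      360) * z ^ 4 + (10021 / 360) * z ^ 5 + (37 / 24) * z ^ 6 := by rw [hpz]; ring
    rw [e]; positivity
  have g2 : 0 ≤ (239 / 180) * p ^ 6 + (841 / 60) * p ^ 5 - (181 / 30) * p ^ 4 + (213 / 20) * p ^ 3 - (51 / 20) * p ^
      2 - 5 * p := by
    have e : (239 / 180) * p ^ 6 + (841 / 60) * p ^ 5 - (181 / 30) * p ^ 4 + (213 / 20) * p ^ 3 - (51 / 20) * p ^
      2 - 5 * p
        = (1117 / 90) + (2273 / 30) * z + (9197 / 60) * z ^ 2 + (27583 / 180) * z ^ 3 + (2519 / 30) * z ^ 4 +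
      (1319 / 60) * z ^ 5 + (239 / 180) * z ^ 6 := by rw [hpz]; ring
    rw [e]; positivity
  have g3 : 0 ≤ (9 / 8) * p ^ 6 + (3349 / 360) * p ^ 5 - (257 / 60) * p ^ 4 + (3053 / 480) * p ^ 3 - 4 * p ^ 2 - (19
      / 8) * p := by
    have e : (9 / 8) * p ^ 6 + (3349 / 360) * p ^ 5 - (257 / 60) * p ^ 4 + (3053 / 480) * p ^ 3 - 4 * p ^ 2 - (19
      / 8) * p
        = (8827 / 1440) + (12913 / 288) * z + (142969 / 1440) * z ^ 2 + (150847 / 1440) * z ^ 3 + (10639 /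
      180) * z ^ 4 + (5779 / 360) * z ^ 5 + (9 / 8) * z ^ 6 := by rw [hpz]; ring
    rw [e]; positivity
  have g4 : 0 ≤ (14 / 15) * p ^ 6 + (517 / 90) * p ^ 5 - (419 / 120) * p ^ 4 + (679 / 240) * p ^ 3 - (37 / 20) * p ^
      2 + (1 / 4) * p := by
    have e : (14 / 15) * p ^ 6 + (517 / 90) * p ^ 5 - (419 / 120) * p ^ 4 + (679 / 240) * p ^ 3 - (37 / 20) * p ^
      2 + (1 / 4) * p
        = (3179 / 720) + (18283 / 720) * z + (8227 / 144) * z ^ 2 + (46781 / 720) * z ^ 3 + (14123 / 360) * z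
      ^ 4 + (1021 / 90) * z ^ 5 + (14 / 15) * z ^ 6 := by rw [hpz]; ring
    rw [e]; positivity
  have h := bernT4 _ _ _ _ _ r s hr hs g0 g1 g2 g3 g4
  refine h.trans_eq ?_
  obtain rfl : s = 1 - r := by linarith
  rw [hu]; ring

theorem certB_B2l_1 (p u : ℝ) (hpa : 1 ≤ p) (h1 : -p ≤ u) (h2 : u ≤ p) :
    0 ≤ -(3 / 10) * p ^ 4 * u ^ 2 - (1 / 2) * p ^ 5 * u + 4 * p ^ 6 + (181 / 160) * p ^ 2 * u ^ 3 - (83 /
      96) * p ^ 3 * u ^ 2 - (389 / 60) * p ^ 4 * u + (35 / 3) * p ^ 5 + (7 / 160) * p * u ^ 3 - (115 / 32)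
      * p ^ 2 * u ^ 2 + (61 / 10) * p ^ 3 * u - (11 / 2) * p ^ 4 - (3 / 80) * u ^ 4 - (19 / 40) * p * u ^
      2 - (269 / 20) * p ^ 2 * u + (121 / 8) * p ^ 3 + (3 / 20) * u ^ 3 - (9 / 8) * p * u - (15 / 8) * p ^
      2 + (9 / 20) * u ^ 2 := by
  obtain ⟨r, s, hr, hs, hrs, hu⟩ := conv_u p u (by linarith) h1 h2
  obtain ⟨z, hz, hpz⟩ : ∃ z, 0 ≤ z ∧ p = 1 + z := ⟨p - 1, by linarith, by ring⟩
  have g0 : 0 ≤ (21 / 5) * p ^ 6 + (3877 / 240) * p ^ 5 - (611 / 40) * p ^ 4 + (559 / 20) * p ^ 3 - (3 / 10) * p ^ 2 := by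
    have e : (21 / 5) * p ^ 6 + (3877 / 240) * p ^ 5 - (611 / 40) * p ^ 4 + (559 / 20) * p ^ 3 - (3 / 10) * p ^ 2
        = (1571 / 48) + (30749 / 240) * z + (25973 / 120) * z ^ 2 + (25487 / 120) * z ^ 3 + (30839 / 240) * z
      ^ 4 + (1985 / 48) * z ^ 5 + (21 / 5) * z ^ 6 := by rw [hpz]; ring
    rw [e]; positivity
  have g1 : 0 ≤ (17 / 4) * p ^ 6 + (2971 / 192) * p ^ 5 - (2717 / 320) * p ^ 4 + (877 / 40) * p ^ 3 - (21 / 16) * p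
      ^ 2 := by
    have e : (17 / 4) * p ^ 6 + (2971 / 192) * p ^ 5 - (2717 / 320) * p ^ 4 + (877 / 40) * p ^ 3 - (21 / 16) * p
      ^ 2
        = (7643 / 240) + (25355 / 192) * z + (27841 / 120) * z ^ 2 + (109297 / 480) * z ^ 3 + (31831 / 240) *
      z ^ 4 + (7867 / 192) * z ^ 5 + (17 / 4) * z ^ 6 := by rw [hpz]; ring
    rw [e]; positivity
  have g2 : 0 ≤ (41 / 10) * p ^ 6 + (3443 / 288) * p ^ 5 - (2083 / 480) * p ^ 4 + (917 / 60) * p ^ 3 - (81 / 40) * p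
      ^ 2 := by
    have e : (41 / 10) * p ^ 6 + (3443 / 288) * p ^ 5 - (2083 / 480) * p ^ 4 + (917 / 60) * p ^ 3 - (81 / 40) * p
      ^ 2
        = (17981 / 720) + (31339 / 288) * z + (71581 / 360) * z ^ 2 + (143621 / 720) * z ^ 3 + (84193 / 720) *
      z ^ 4 + (52639 / 1440) * z ^ 5 + (41 / 10) * z ^ 6 := by rw [hpz]; ring
    rw [e]; positivity
  have g3 : 0 ≤ (15 / 4) * p ^ 6 + (503 / 64) * p ^ 5 - (779 / 320) * p ^ 4 + (333 / 40) * p ^ 3 - (39 / 16) * p ^ 2 := by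
    have e : (15 / 4) * p ^ 6 + (503 / 64) * p ^ 5 - (779 / 320) * p ^ 4 + (333 / 40) * p ^ 3 - (39 / 16) * p ^ 2
        = (241 / 16) + (23091 / 320) * z + (5711 / 40) * z ^ 2 + (24349 / 160) * z ^ 3 + (7449 / 80) * z ^ 4 +
      (1943 / 64) * z ^ 5 + (15 / 4) * z ^ 6 := by rw [hpz]; ring
    rw [e]; positivity
  have g4 : 0 ≤ (16 / 5) * p ^ 6 + (109 / 20) * p ^ 5 - (239 / 80) * p ^ 4 + (27 / 20) * p ^ 3 - (51 / 20) * p ^ 2 := by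
    have e : (16 / 5) * p ^ 6 + (109 / 20) * p ^ 5 - (239 / 80) * p ^ 4 + (27 / 20) * p ^ 3 - (51 / 20) * p ^ 2
        = (357 / 80) + (669 / 20) * z + (3443 / 40) * z ^ 2 + (1079 / 10) * z ^ 3 + (5781 / 80) * z ^ 4 + (493
      / 20) * z ^ 5 + (16 / 5) * z ^ 6 := by rw [hpz]; ring
    rw [e]; positivity
  have h := bernT4 _ _ _ _ _ r s hr hs g0 g1 g2 g3 g4
  refine h.trans_eq ?_
  obtain rfl : s = 1 - r := by linarith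
  rw [hu]; ring

theorem certB_B2l_2 (p u : ℝ) (hpa : 1 ≤ p) (h1 : -p ≤ u) (h2 : u ≤ p) :
    0 ≤ -(39 / 20) * p ^ 4 * u ^ 2 + (3 / 4) * p ^ 5 * u + 12 * p ^ 6 + (49 / 80) * p ^ 2 * u ^ 3 - (41 /
      80) * p ^ 3 * u ^ 2 + 9 * p ^ 4 * u + (1 / 2) * p ^ 5 - (3 / 4) * p ^ 2 * u ^ 2 + (87 / 20) * p ^ 3
      * u + 3 * p ^ 4 - (63 / 20) * p ^ 2 * u + (27 / 4) * p ^ 3 := by
  obtain ⟨r, s, hr, hs, hrs, hu⟩ := conv_u p u (by linarith) h1 h2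
  obtain ⟨z, hz, hpz⟩ : ∃ z, 0 ≤ z ∧ p = 1 + z := ⟨p - 1, by linarith, by ring⟩
  have g0 : 0 ≤ (93 / 10) * p ^ 6 - (77 / 8) * p ^ 5 - (21 / 10) * p ^ 4 + (99 / 10) * p ^ 3 := by
    have e : (93 / 10) * p ^ 6 - (77 / 8) * p ^ 5 - (21 / 10) * p ^ 4 + (99 / 10) * p ^ 3
        = (299 / 40) + (1159 / 40) * z + (1207 / 20) * z ^ 2 + (365 / 4) * z ^ 3 + (3571 / 40) * z ^ 4 + (1847
      / 40) * z ^ 5 + (93 / 10) * z ^ 6 := by rw [hpz]; ring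
    rw [e]; positivity
  have g1 : 0 ≤ (62 / 5) * p ^ 6 - (103 / 60) * p ^ 5 + (9 / 5) * p ^ 4 + (39 / 5) * p ^ 3 := by
    have e : (62 / 5) * p ^ 6 - (103 / 60) * p ^ 5 + (9 / 5) * p ^ 4 + (39 / 5) * p ^ 3
        = (1217 / 60) + (1157 / 12) * z + (6091 / 30) * z ^ 2 + (1475 / 6) * z ^ 3 + (10753 / 60) * z ^ 4 +
      (4361 / 60) * z ^ 5 + (62 / 5) * z ^ 6 := by rw [hpz]; ring
    rw [e]; positivity
  have g2 : 0 ≤ (129 / 10) * p ^ 6 + (367 / 120) * p ^ 5 + (47 / 10) * p ^ 4 + (57 / 10) * p ^ 3 := by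
    have e : (129 / 10) * p ^ 6 + (367 / 120) * p ^ 5 + (47 / 10) * p ^ 4 + (57 / 10) * p ^ 3
        = (3163 / 120) + (15431 / 120) * z + (16163 / 60) * z ^ 2 + (3757 / 12) * z ^ 3 + (25619 / 120) * z ^
      4 + (1931 / 24) * z ^ 5 + (129 / 10) * z ^ 6 := by rw [hpz]; ring
    rw [e]; positivity
  have g3 : 0 ≤ (54 / 5) * p ^ 6 + (48 / 5) * p ^ 5 + (33 / 5) * p ^ 4 + (18 / 5) * p ^ 3 := by
    have e : (54 / 5) * p ^ 6 + (48 / 5) * p ^ 5 + (33 / 5) * p ^ 4 + (18 / 5) * p ^ 3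
        = (153 / 5) + 150 * z + (1542 / 5) * z ^ 2 + 342 * z ^ 3 + (1083 / 5) * z ^ 4 + (372 / 5) * z ^ 5 +
      (54 / 5) * z ^ 6 := by rw [hpz]; ring
    rw [e]; positivity
  have h := bernT3 _ _ _ _ r s hr hs g0 g1 g2 g3
  refine h.trans_eq ?_
  obtain rfl : s = 1 - r := by linarith
  rw [hu]; ring

theorem certB_B2l (p u l : ℝ) (hpa : 1 ≤ p) (h1 : -p ≤ u) (h2 : u ≤ p)
    (hl0 : (1 / 3) * p ^ 2 - (1 / 4) * u - (1 / 2) ≤ l) (hl : l ≤ p ^ 2) :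
    0 ≤ (21 / 20) * l * p ^ 2 * u ^ 2 - (9 / 4) * l * p ^ 3 * u + (5 / 16) * p ^ 2 * u ^ 3 - (13 / 80) * p ^
      3 * u ^ 2 - (149 / 20) * p ^ 4 * u + 14 * p ^ 5 - (7 / 20) * l * p * u ^ 2 - (91 / 20) * l * p ^ 2 *
      u + (13 / 2) * l * p ^ 3 + (3 / 10) * l * u ^ 3 + 3 * l ^ 2 * p * u + 12 * l ^ 2 * p ^ 2 - 3 * l ^ 2
      * u ^ 2 + (21 / 20) * p ^ 2 * u ^ 2 - (3 / 20) * p ^ 3 * u - (9 / 2) * p ^ 4 + (9 / 2) * l * p * u +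
      (15 / 2) * l * p ^ 2 - (9 / 5) * l * u ^ 2 - 20 * l ^ 2 * p + 21 * l ^ 2 * u - (63 / 20) * p ^ 2 * u
      + (27 / 4) * p ^ 3 := by
  obtain ⟨x, y, hx, hy, hxy, hlxy⟩ := conv_seg _ _ l hl0 hl
  have h := bernT2 _ _ _ y x hy hx (certB_B2l_0 p u hpa h1 h2) (certB_B2l_1 p u hpa h1 h2)
    (certB_B2l_2 p u hpa h1 h2)
  refine h.trans_eq ?_
  obtain rfl : y = 1 - x := by linarith
  rw [hlxy]; ring

theorem certB_B2 (p u l : ℝ) (hp : 0 < p) (h1 : -p ≤ u) (h2 : u ≤ p)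
    (hm : 2 * p + u / 4 + 1 / 2 ≤ 3 * l) (hlam : p ^ 2 - 3 / 4 * u - 3 / 2 ≤ 3 * l)
    (hl : l ≤ p ^ 2) :
    0 ≤ (21 / 20) * l * p ^ 2 * u ^ 2 - (9 / 4) * l * p ^ 3 * u + (5 / 16) * p ^ 2 * u ^ 3 - (13 / 80) * p ^
      3 * u ^ 2 - (149 / 20) * p ^ 4 * u + 14 * p ^ 5 - (7 / 20) * l * p * u ^ 2 - (91 / 20) * l * p ^ 2 *
      u + (13 / 2) * l * p ^ 3 + (3 / 10) * l * u ^ 3 + 3 * l ^ 2 * p * u + 12 * l ^ 2 * p ^ 2 - 3 * l ^ 2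
      * u ^ 2 + (21 / 20) * p ^ 2 * u ^ 2 - (3 / 20) * p ^ 3 * u - (9 / 2) * p ^ 4 + (9 / 2) * l * p * u +
      (15 / 2) * l * p ^ 2 - (9 / 5) * l * u ^ 2 - 20 * l ^ 2 * p + 21 * l ^ 2 * u - (63 / 20) * p ^ 2 * u
      + (27 / 4) * p ^ 3 := by
  have h34 : (3 / 4 : ℝ) ≤ p := by
    by_contra hc
    push Not at hc
    nlinarith
  rcases le_total p 1 with h | h
  · exact certB_B2m p u l h34 h h1 h2 (by linarith) hl
  · exact certB_B2l p u l h h1 h2 (by linarith) hl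

end Pool.Agent.MFK
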