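import Pool.Agent.Work.MP_8826fd_mp.AL.CertB1

/-! # Certificates (B) for the beta side of (AL): region `l ≤ p ^ 2` -/

set_option autoImplicit false

namespace Pool.Agent.MFK

theorem certB_B1m_0 (p u : ℝ) (hpa : (3 / 4) ≤ p) (hpb : p ≤ 1) (h1 : -p ≤ u) (h2 : u ≤ p) :
    0 ≤ -(1 / 5) * p * u ^ 4 + (121 / 100) * p ^ 2 * u ^ 3 - (173 / 100) * p ^ 3 * u ^ 2 - (303 / 200) * p ^
      4 * u + (18 / 5) * p ^ 5 - (5783 / 7200) * p * u ^ 3 + (931 / 2400) * p ^ 2 * u ^ 2 - (2777 / 1800)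
      * p ^ 3 * u + (3289 / 900) * p ^ 4 - (19 / 720) * u ^ 4 + (217 / 3600) * p * u ^ 2 - (853 / 1800) *
      p ^ 2 * u + (6059 / 900) * p ^ 3 - (109 / 360) * u ^ 3 + (107 / 40) * p * u - (2371 / 1800) * p ^ 2
      - (13 / 36) * u ^ 2 - (1 / 4) * p + (5 / 18) * u := by
  obtain ⟨r, s, hr, hs, hrs, hu⟩ := conv_u p u (by linarith) h1 h2
  obtain ⟨a, b, ha, hb, hab, hpab⟩ := conv_seg _ _ p hpa hpb
  have g0 : 0 ≤ (79 / 40) * p ^ 5 + (22903 / 3600) * p ^ 4 + (9083 / 1200) * p ^ 3 - (653 / 150) * p ^ 2 - (19 / 36)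
      * p := by
    have e : (79 / 40) * p ^ 5 + (22903 / 3600) * p ^ 4 + (9083 / 1200) * p ^ 3 - (653 / 150) * p ^ 2 - (19 / 36)
      * p
        = (1738933 / 614400) * a ^ 5 + (17552189 / 921600) * a ^ 4 * b + (2328583 / 46080) * a ^ 3 * b ^ 2 +
      (423817 / 6400) * a ^ 2 * b ^ 3 + (41209 / 960) * a * b ^ 4 + (441 / 40) * b ^ 5 := by
      obtain rfl : b = 1 - a := by linarith
      rw [hpab]; ring
    rw [e]; positivity
  have g1 : 0 ≤ (413 / 80) * p ^ 5 + (6481 / 1600) * p ^ 4 + (1534 / 225) * p ^ 3 - (9557 / 3600) * p ^ 2 - (7 / 18)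
      * p := by
    have e : (413 / 80) * p ^ 5 + (6481 / 1600) * p ^ 4 + (1534 / 225) * p ^ 3 - (9557 / 3600) * p ^ 2 - (7 / 18)
      * p
        = (221063 / 61440) * a ^ 5 + (86720077 / 3686400) * a ^ 4 * b + (14083307 / 230400) * a ^ 3 * b ^ 2 +
      (9096293 / 115200) * a ^ 2 * b ^ 3 + (243571 / 4800) * a * b ^ 4 + (62339 / 4800) * b ^ 5 := by
      obtain rfl : b = 1 - a := by linarith
      rw [hpab]; ring
    rw [e]; positivity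
  have g2 : 0 ≤ (1193 / 300) * p ^ 5 + (2799 / 800) * p ^ 4 + (72491 / 10800) * p ^ 3 - (6463 / 5400) * p ^ 2 - (1 /
      4) * p := by
    have e : (1193 / 300) * p ^ 5 + (2799 / 800) * p ^ 4 + (72491 / 10800) * p ^ 3 - (6463 / 5400) * p ^ 2 - (1 /
      4) * p
        = (2470907 / 614400) * a ^ 5 + (46960111 / 1843200) * a ^ 4 * b + (44478043 / 691200) * a ^ 3 * b ^ 2
      + (6999877 / 86400) * a ^ 2 * b ^ 3 + (2197183 / 43200) * a * b ^ 4 + (91733 / 7200) * b ^ 5 := by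
      obtain rfl : b = 1 - a := by linarith
      rw [hpab]; ring
    rw [e]; positivity
  have g3 : 0 ≤ (39 / 16) * p ^ 5 + (15893 / 4800) * p ^ 4 + (997 / 150) * p ^ 3 + (73 / 3600) * p ^ 2 - (1 / 9) * p := by
    have e : (39 / 16) * p ^ 5 + (15893 / 4800) * p ^ 4 + (997 / 150) * p ^ 3 + (73 / 3600) * p ^ 2 - (1 / 9) * p
        = (1338839 / 307200) * a ^ 5 + (3971843 / 147456) * a ^ 4 * b + (1020491 / 15360) * a ^ 3 * b ^ 2 +
      (1046467 / 12800) * a ^ 2 * b ^ 3 + (722831 / 14400) * a * b ^ 4 + (19687 / 1600) * b ^ 5 := by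
      obtain rfl : b = 1 - a := by linarith
      rw [hpab]; ring
    rw [e]; positivity
  have g4 : 0 ≤ (273 / 200) * p ^ 5 + (167 / 100) * p ^ 4 + (7219 / 1200) * p ^ 3 + (299 / 300) * p ^ 2 + (1 / 36) *
      p := by
    have e : (273 / 200) * p ^ 5 + (167 / 100) * p ^ 4 + (7219 / 1200) * p ^ 3 + (299 / 300) * p ^ 2 + (1 / 36) *
      p
        = (2440217 / 614400) * a ^ 5 + (2213827 / 92160) * a ^ 4 * b + (13360807 / 230400) * a ^ 3 * b ^ 2 +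
      (1341097 / 19200) * a ^ 2 * b ^ 3 + (120911 / 2880) * a * b ^ 4 + (36271 / 3600) * b ^ 5 := by
      obtain rfl : b = 1 - a := by linarith
      rw [hpab]; ring
    rw [e]; positivity
  have h := bernT4 _ _ _ _ _ r s hr hs g0 g1 g2 g3 g4
  refine h.trans_eq ?_
  obtain rfl : s = 1 - r := by linarith
  rw [hu]; ring

theorem certB_B1m_1 (p u : ℝ) (hpa : (3 / 4) ≤ p) (hpb : p ≤ 1) (h1 : -p ≤ u) (h2 : u ≤ p) :
    0 ≤ -(9 / 40) * p ^ 3 * u ^ 3 + (201 / 200) * p ^ 4 * u ^ 2 - (81 / 80) * p ^ 5 * u - (29 / 160) * p * u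
      ^ 4 + (2183 / 2400) * p ^ 2 * u ^ 3 - (6889 / 1600) * p ^ 3 * u ^ 2 - (1207 / 400) * p ^ 4 * u +
      (7123 / 600) * p ^ 5 - (853 / 2400) * p * u ^ 3 + (1097 / 4800) * p ^ 2 * u ^ 2 + (4543 / 600) * p ^
      3 * u - (3113 / 600) * p ^ 4 + (1 / 240) * u ^ 4 + (71 / 100) * p * u ^ 2 - (1449 / 400) * p ^ 2 * u
      + (2429 / 400) * p ^ 3 - (7 / 60) * u ^ 3 + (13 / 40) * p * u + (19 / 80) * p ^ 2 - (1 / 4) * u ^ 2 := by
  obtain ⟨r, s, hr, hs, hrs, hu⟩ := conv_u p u (by linarith) h1 h2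
  obtain ⟨a, b, ha, hb, hab, hpab⟩ := conv_seg _ _ p hpa hpb
  have g0 : 0 ≤ (897 / 400) * p ^ 6 + (9113 / 960) * p ^ 5 - (779 / 64) * p ^ 4 + (6313 / 600) * p ^ 3 - (27 / 80) *
      p ^ 2 := by
    have e : (897 / 400) * p ^ 6 + (9113 / 960) * p ^ 5 - (779 / 64) * p ^ 4 + (6313 / 600) * p ^ 3 - (27 / 80) *
      p ^ 2
        = (2498157 / 819200) * a ^ 6 + (36089001 / 1638400) * a ^ 5 * b + (6804627 / 102400) * a ^ 4 * b ^ 2 +
      (16473589 / 153600) * a ^ 3 * b ^ 3 + (78187 / 800) * a ^ 2 * b ^ 4 + (915931 / 19200) * a * b ^ 5 +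
      (3899 / 400) * b ^ 6 := by
      obtain rfl : b = 1 - a := by linarith
      rw [hpab]; ring
    rw [e]; positivity
  have g1 : 0 ≤ (63 / 160) * p ^ 6 + (67279 / 4800) * p ^ 5 - (43949 / 4800) * p ^ 4 + (18781 / 2400) * p ^ 3 + (3 /
      40) * p ^ 2 := by
    have e : (63 / 160) * p ^ 6 + (67279 / 4800) * p ^ 5 - (43949 / 4800) * p ^ 4 + (18781 / 2400) * p ^ 3 + (3 /
      40) * p ^ 2
        = (2518389 / 655360) * a ^ 6 + (46214487 / 1638400) * a ^ 5 * b + (8845353 / 102400) * a ^ 4 * b ^ 2 +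
      (10850519 / 76800) * a ^ 3 * b ^ 3 + (1249709 / 9600) * a ^ 2 * b ^ 4 + (410021 / 6400) * a * b ^ 5
      + (31571 / 2400) * b ^ 6 := by
      obtain rfl : b = 1 - a := by linarith
      rw [hpab]; ring
    rw [e]; positivity
  have g2 : 0 ≤ -(67 / 200) * p ^ 6 + (21001 / 1600) * p ^ 5 - (75749 / 14400) * p ^ 4 + (7003 / 1200) * p ^ 3 + (77
      / 240) * p ^ 2 := by
    have e : -(67 / 200) * p ^ 6 + (21001 / 1600) * p ^ 5 - (75749 / 14400) * p ^ 4 + (7003 / 1200) * p ^ 3 + (77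
      / 240) * p ^ 2
        = (6608001 / 1638400) * a ^ 6 + (9710587 / 327680) * a ^ 5 * b + (1394171 / 15360) * a ^ 4 * b ^ 2 +
      (7595003 / 51200) * a ^ 3 * b ^ 3 + (3929123 / 28800) * a ^ 2 * b ^ 4 + (771151 / 11520) * a * b ^ 5
      + (49273 / 3600) * b ^ 6 := by
      obtain rfl : b = 1 - a := by linarith
      rw [hpab]; ring
    rw [e]; positivity
  have g3 : 0 ≤ -(63 / 160) * p ^ 6 + (16143 / 1600) * p ^ 5 - (5899 / 4800) * p ^ 4 + (10367 / 2400) * p ^ 3 + (2 /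
      5) * p ^ 2 := by
    have e : -(63 / 160) * p ^ 6 + (16143 / 1600) * p ^ 5 - (5899 / 4800) * p ^ 4 + (10367 / 2400) * p ^ 3 + (2 /
      5) * p ^ 2
        = (13050351 / 3276800) * a ^ 6 + (47841333 / 1638400) * a ^ 5 * b + (4565867 / 51200) * a ^ 4 * b ^ 2
      + (2230361 / 15360) * a ^ 3 * b ^ 3 + (319069 / 2400) * a ^ 2 * b ^ 4 + (249161 / 3840) * a * b ^ 5
      + (10549 / 800) * b ^ 6 := by
      obtain rfl : b = 1 - a := by linarith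
      rw [hpab]; ring
    rw [e]; positivity
  have g4 : 0 ≤ -(93 / 400) * p ^ 6 + (8443 / 1600) * p ^ 5 + (3617 / 1600) * p ^ 4 + (913 / 300) * p ^ 3 + (5 / 16)
      * p ^ 2 := by
    have e : -(93 / 400) * p ^ 6 + (8443 / 1600) * p ^ 5 + (3617 / 1600) * p ^ 4 + (913 / 300) * p ^ 3 + (5 / 16)
      * p ^ 2
        = (346707 / 102400) * a ^ 6 + (40425789 / 1638400) * a ^ 5 * b + (7662521 / 102400) * a ^ 4 * b ^ 2 +
      (18567269 / 153600) * a ^ 3 * b ^ 3 + (35103 / 320) * a ^ 2 * b ^ 4 + (339317 / 6400) * a * b ^ 5 +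
      (12793 / 1200) * b ^ 6 := by
      obtain rfl : b = 1 - a := by linarith
      rw [hpab]; ring
    rw [e]; positivity
  have h := bernT4 _ _ _ _ _ r s hr hs g0 g1 g2 g3 g4
  refine h.trans_eq ?_
  obtain rfl : s = 1 - r := by linarith
  rw [hu]; ring

theorem certB_B1m_2 (p u : ℝ) (hpa : (3 / 4) ≤ p) (hpb : p ≤ 1) (h1 : -p ≤ u) (h2 : u ≤ p) :
    0 ≤ -(9 / 20) * p ^ 3 * u ^ 3 - (299 / 100) * p ^ 4 * u ^ 2 - (1 / 8) * p ^ 5 * u + (187 / 25) * p ^ 6 -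
      (13 / 80) * p * u ^ 4 + (577 / 400) * p ^ 2 * u ^ 3 - (17 / 32) * p ^ 3 * u ^ 2 + (17 / 10) * p ^ 4
      * u + (117 / 100) * p ^ 5 - (9 / 20) * p * u ^ 3 - (189 / 100) * p ^ 2 * u ^ 2 + (1179 / 200) * p ^
      3 * u - (6 / 5) * p ^ 4 + (27 / 20) * p * u ^ 2 - (603 / 100) * p ^ 2 * u + (243 / 40) * p ^ 3 := by
  obtain ⟨r, s, hr, hs, hrs, hu⟩ := conv_u p u (by linarith) h1 h2
  obtain ⟨a, b, ha, hb, hab, hpab⟩ := conv_seg _ _ p hpa hpb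
  have g0 : 0 ≤ (1013 / 200) * p ^ 6 - (2133 / 800) * p ^ 5 - (1707 / 200) * p ^ 4 + (2691 / 200) * p ^ 3 := by
    have e : (1013 / 200) * p ^ 6 - (2133 / 800) * p ^ 5 - (1707 / 200) * p ^ 4 + (2691 / 200) * p ^ 3
        = (1328967 / 409600) * a ^ 6 + (3652209 / 163840) * a ^ 5 * b + (13041567 / 204800) * a ^ 4 * b ^ 2 +
      (2481651 / 25600) * a ^ 3 * b ^ 3 + (531717 / 6400) * a ^ 2 * b ^ 4 + (121893 / 3200) * a * b ^ 5 +
      (1171 / 160) * b ^ 6 := by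
      obtain rfl : b = 1 - a := by linarith
      rw [hpab]; ring
    rw [e]; positivity
  have g1 : 0 ≤ (2927 / 400) * p ^ 6 + (963 / 800) * p ^ 5 - (1749 / 400) * p ^ 4 + (909 / 100) * p ^ 3 := by
    have e : (2927 / 400) * p ^ 6 + (963 / 800) * p ^ 5 - (1749 / 400) * p ^ 4 + (909 / 100) * p ^ 3
        = (1323621 / 327680) * a ^ 6 + (24008481 / 819200) * a ^ 5 * b + (3636819 / 40960) * a ^ 4 * b ^ 2 +
      (3683349 / 25600) * a ^ 3 * b ^ 3 + (105303 / 800) * a ^ 2 * b ^ 4 + (206421 / 3200) * a * b ^ 5 +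
      (10591 / 800) * b ^ 6 := by
      obtain rfl : b = 1 - a := by linarith
      rw [hpab]; ring
    rw [e]; positivity
  have g2 : 0 ≤ (2543 / 300) * p ^ 6 + (2843 / 2400) * p ^ 5 - (57 / 100) * p ^ 4 + (45 / 8) * p ^ 3 := by
    have e : (2543 / 300) * p ^ 6 + (2843 / 2400) * p ^ 5 - (57 / 100) * p ^ 4 + (45 / 8) * p ^ 3
        = (3262437 / 819200) * a ^ 6 + (24177231 / 819200) * a ^ 5 * b + (18703701 / 204800) * a ^ 4 * b ^ 2 +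
      (3868329 / 25600) * a ^ 3 * b ^ 3 + (902717 / 6400) * a ^ 2 * b ^ 4 + (676349 / 9600) * a * b ^ 5 +
      (11773 / 800) * b ^ 6 := by
      obtain rfl : b = 1 - a := by linarith
      rw [hpab]; ring
    rw [e]; positivity
  have g3 : 0 ≤ (3057 / 400) * p ^ 6 + (1169 / 800) * p ^ 5 + (789 / 400) * p ^ 4 + (153 / 50) * p ^ 3 := by
    have e : (3057 / 400) * p ^ 6 + (1169 / 800) * p ^ 5 + (789 / 400) * p ^ 4 + (153 / 50) * p ^ 3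
        = (5934303 / 1638400) * a ^ 6 + (22244139 / 819200) * a ^ 5 * b + (3478977 / 40960) * a ^ 4 * b ^ 2 +
      (3633291 / 25600) * a ^ 3 * b ^ 3 + (106917 / 800) * a ^ 2 * b ^ 4 + (215231 / 3200) * a * b ^ 5 +
      (11309 / 800) * b ^ 6 := by
      obtain rfl : b = 1 - a := by linarith
      rw [hpab]; ring
    rw [e]; positivity
  have g4 : 0 ≤ (783 / 200) * p ^ 6 + (579 / 160) * p ^ 5 + (471 / 200) * p ^ 4 + (279 / 200) * p ^ 3 := by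
    have e : (783 / 200) * p ^ 6 + (579 / 160) * p ^ 5 + (471 / 200) * p ^ 4 + (279 / 200) * p ^ 3
        = (118341 / 40960) * a ^ 6 + (17811009 / 819200) * a ^ 5 * b + (13963347 / 204800) * a ^ 4 * b ^ 2 +
      (583947 / 5120) * a ^ 3 * b ^ 3 + (687021 / 6400) * a ^ 2 * b ^ 4 + (172497 / 3200) * a * b ^ 5 +
      (9027 / 800) * b ^ 6 := by
      obtain rfl : b = 1 - a := by linarith
      rw [hpab]; ring
    rw [e]; positivity
  have h := bernT4 _ _ _ _ _ r s hr hs g0 g1 g2 g3 g4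
  refine h.trans_eq ?_
  obtain rfl : s = 1 - r := by linarith
  rw [hu]; ring

theorem certB_B1m (p u l : ℝ) (hpa : (3 / 4) ≤ p) (hpb : p ≤ 1) (h1 : -p ≤ u) (h2 : u ≤ p)
    (hl0 : (2 / 3) * p + (1 / 12) * u + (1 / 6) ≤ l) (hl : l ≤ p ^ 2) :
    0 ≤ -(9 / 20) * l * p * u ^ 3 + (201 / 100) * l * p ^ 2 * u ^ 2 - (81 / 40) * l * p ^ 3 * u - (13 / 80)
      * p * u ^ 4 + (537 / 400) * p ^ 2 * u ^ 3 - (2321 / 800) * p ^ 3 * u ^ 2 - (33 / 200) * p ^ 4 * u +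
      (18 / 5) * p ^ 5 + (237 / 100) * l * p * u ^ 2 - (1627 / 200) * l * p ^ 2 * u + (657 / 100) * l * p
      ^ 3 + (1 / 10) * l * u ^ 3 + (19 / 10) * l ^ 2 * p * u + (187 / 25) * l ^ 2 * p ^ 2 - 5 * l ^ 2 * u
      ^ 2 - (9 / 20) * p * u ^ 3 + (111 / 100) * p ^ 2 * u ^ 2 + (399 / 200) * p ^ 3 * u - (81 / 20) * p ^
      4 + (39 / 10) * l * p * u + (57 / 20) * l * p ^ 2 - 3 * l * u ^ 2 - 9 * l ^ 2 * p + 10 * l ^ 2 * u +
      (27 / 20) * p * u ^ 2 - (603 / 100) * p ^ 2 * u + (243 / 40) * p ^ 3 := by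
  obtain ⟨x, y, hx, hy, hxy, hlxy⟩ := conv_seg _ _ l hl0 hl
  have h := bernT2 _ _ _ y x hy hx (certB_B1m_0 p u hpa hpb h1 h2) (certB_B1m_1 p u hpa hpb h1 h2)
    (certB_B1m_2 p u hpa hpb h1 h2)
  refine h.trans_eq ?_
  obtain rfl : y = 1 - x := by linarith
  rw [hlxy]; ring

theorem certB_B1l_0 (p u : ℝ) (hpa : 1 ≤ p) (h1 : -p ≤ u) (h2 : u ≤ p) :
    0 ≤ -(3 / 20) * p ^ 3 * u ^ 3 + (103 / 900) * p ^ 4 * u ^ 2 - (167 / 360) * p ^ 5 * u + (187 / 225) * p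
      ^ 6 - (1 / 20) * p * u ^ 4 + (128 / 75) * p ^ 2 * u ^ 3 - (1153 / 600) * p ^ 3 * u ^ 2 - (2711 /
      900) * p ^ 4 * u + (479 / 100) * p ^ 5 - (559 / 800) * p * u ^ 3 + (257 / 160) * p ^ 2 * u ^ 2 +
      (2119 / 600) * p ^ 3 * u - (839 / 150) * p ^ 4 - (27 / 80) * u ^ 4 - (359 / 400) * p * u ^ 2 - (2483
      / 600) * p ^ 2 * u + (579 / 100) * p ^ 3 + (3 / 40) * u ^ 3 - (149 / 40) * p * u + (89 / 200) * p ^
      2 + (11 / 4) * u ^ 2 - (9 / 4) * p + (5 / 2) * u := by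
  obtain ⟨r, s, hr, hs, hrs, hu⟩ := conv_u p u (by linarith) h1 h2
  obtain ⟨z, hz, hpz⟩ : ∃ z, 0 ≤ z ∧ p = 1 + z := ⟨p - 1, by linarith, by ring⟩
  have g0 : 0 ≤ (2807 / 1800) * p ^ 6 + (7423 / 1800) * p ^ 5 - (2863 / 400) * p ^ 4 + (10747 / 1200) * p ^ 3 + (173
      / 25) * p ^ 2 - (19 / 4) * p := by
    have e : (2807 / 1800) * p ^ 6 + (7423 / 1800) * p ^ 5 - (2863 / 400) * p ^ 4 + (10747 / 1200) * p ^ 3 + (173
      / 25) * p ^ 2 - (19 / 4) * p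
        = (5791 / 600) + (134293 / 3600) * z + (199703 / 3600) * z ^ 2 + (189913 / 3600) * z ^ 3 + (132673 /
      3600) * z ^ 4 + (4853 / 360) * z ^ 5 + (2807 / 1800) * z ^ 6 := by rw [hpz]; ring
    rw [e]; positivity
  have g1 : 0 ≤ (3557 / 3600) * p ^ 6 + (12959 / 1800) * p ^ 5 - (35381 / 4800) * p ^ 4 + (2369 / 300) * p ^ 3 +
      (923 / 400) * p ^ 2 - (7 / 2) * p := by
    have e : (3557 / 3600) * p ^ 6 + (12959 / 1800) * p ^ 5 - (35381 / 4800) * p ^ 4 + (2369 / 300) * p ^ 3 +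
      (923 / 400) * p ^ 2 - (7 / 2) * p
        = (12033 / 1600) + (134087 / 3600) * z + (493823 / 7200) * z ^ 2 + (50521 / 720) * z ^ 3 + (625637 /
      14400) * z ^ 4 + (2363 / 180) * z ^ 5 + (3557 / 3600) * z ^ 6 := by rw [hpz]; ring
    rw [e]; positivity
  have g2 : 0 ≤ (2141 / 2700) * p ^ 6 + (1937 / 360) * p ^ 5 - (5173 / 800) * p ^ 4 + (7307 / 1200) * p ^ 3 - (283 /
      600) * p ^ 2 - (9 / 4) * p := by
    have e : (2141 / 2700) * p ^ 6 + (1937 / 360) * p ^ 5 - (5173 / 800) * p ^ 4 + (7307 / 1200) * p ^ 3 - (283 /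
      600) * p ^ 2 - (9 / 4) * p
        = (13283 / 4320) + (75131 / 3600) * z + (26819 / 600) * z ^ 2 + (538801 / 10800) * z ^ 3 + (232783 /
      7200) * z ^ 4 + (6083 / 600) * z ^ 5 + (2141 / 2700) * z ^ 6 := by rw [hpz]; ring
    rw [e]; positivity
  have g3 : 0 ≤ (809 / 1200) * p ^ 6 + (893 / 360) * p ^ 5 - (201 / 64) * p ^ 4 + (221 / 60) * p ^ 3 - (567 / 400) *
      p ^ 2 - p := by
    have e : (809 / 1200) * p ^ 6 + (893 / 360) * p ^ 5 - (201 / 64) * p ^ 4 + (221 / 60) * p ^ 3 - (567 / 400) *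
      p ^ 2 - p
        = (18431 / 14400) + (39961 / 3600) * z + (185089 / 7200) * z ^ 2 + (4235 / 144) * z ^ 3 + (55799 /
      2880) * z ^ 4 + (5873 / 900) * z ^ 5 + (809 / 1200) * z ^ 6 := by rw [hpz]; ring
    rw [e]; positivity
  have g4 : 0 ≤ (199 / 600) * p ^ 6 + (2723 / 1800) * p ^ 5 - (179 / 120) * p ^ 4 + (199 / 240) * p ^ 3 - (53 / 100)
      * p ^ 2 + (1 / 4) * p := by
    have e : (199 / 600) * p ^ 6 + (2723 / 1800) * p ^ 5 - (179 / 120) * p ^ 4 + (199 / 240) * p ^ 3 - (53 / 100)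
      * p ^ 2 + (1 / 4) * p
        = (3247 / 3600) + (18953 / 3600) * z + (47197 / 3600) * z ^ 2 + (11969 / 720) * z ^ 3 + (3977 / 360) *
      z ^ 4 + (1261 / 360) * z ^ 5 + (199 / 600) * z ^ 6 := by rw [hpz]; ring
    rw [e]; positivity
  have h := bernT4 _ _ _ _ _ r s hr hs g0 g1 g2 g3 g4
  refine h.trans_eq ?_
  obtain rfl : s = 1 - r := by linarith
  rw [hu]; ring

theorem certB_B1l_1 (p u : ℝ) (hpa : 1 ≤ p) (h1 : -p ≤ u) (h2 : u ≤ p) :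
    0 ≤ -(3 / 10) * p ^ 3 * u ^ 3 - (49 / 150) * p ^ 4 * u ^ 2 - (43 / 60) * p ^ 5 * u + (187 / 75) * p ^ 6
      - (17 / 160) * p * u ^ 4 + (5779 / 2400) * p ^ 2 * u ^ 3 - (2469 / 1600) * p ^ 3 * u ^ 2 - (33 / 8)
      * p ^ 4 * u + (249 / 50) * p ^ 5 - (507 / 800) * p * u ^ 3 - (601 / 1600) * p ^ 2 * u ^ 2 + (279 /
      50) * p ^ 3 * u - (589 / 100) * p ^ 4 - (1 / 80) * u ^ 4 + (27 / 100) * p * u ^ 2 - (3741 / 400) * p
      ^ 2 * u + (3573 / 400) * p ^ 3 + (7 / 20) * u ^ 3 - (39 / 40) * p * u - (57 / 80) * p ^ 2 + (3 / 4)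
      * u ^ 2 := by
  obtain ⟨r, s, hr, hs, hrs, hu⟩ := conv_u p u (by linarith) h1 h2
  obtain ⟨z, hz, hpz⟩ : ∃ z, 0 ≤ z ∧ p = 1 + z := ⟨p - 1, by linarith, by ring⟩
  have g0 : 0 ≤ (191 / 60) * p ^ 6 + (24229 / 4800) * p ^ 5 - (17959 / 1600) * p ^ 4 + (3641 / 200) * p ^ 3 + (81 /
      80) * p ^ 2 := by
    have e : (191 / 60) * p ^ 6 + (24229 / 4800) * p ^ 5 - (17959 / 1600) * p ^ 4 + (3641 / 200) * p ^ 3 + (81 /
      80) * p ^ 2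
        = (19469 / 1200) + (269189 / 4800) * z + (10381 / 120) * z ^ 2 + (69961 / 800) * z ^ 3 + (74117 /
      1200) * z ^ 4 + (115909 / 4800) * z ^ 5 + (191 / 60) * z ^ 6 := by rw [hpz]; ring
    rw [e]; positivity
  have g1 : 0 ≤ (1621 / 600) * p ^ 6 + (40093 / 4800) * p ^ 5 - (575 / 64) * p ^ 4 + (11027 / 800) * p ^ 3 - (9 /
      40) * p ^ 2 := by
    have e : (1621 / 600) * p ^ 6 + (40093 / 4800) * p ^ 5 - (575 / 64) * p ^ 4 + (11027 / 800) * p ^ 3 - (9 /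
      40) * p ^ 2
        = (12503 / 800) + (302099 / 4800) * z + (267053 / 2400) * z ^ 2 + (17311 / 150) * z ^ 3 + (17593 /
      240) * z ^ 4 + (117901 / 4800) * z ^ 5 + (1621 / 600) * z ^ 6 := by rw [hpz]; ring
    rw [e]; positivity
  have g2 : 0 ≤ (1171 / 450) * p ^ 6 + (8621 / 1600) * p ^ 5 - (27731 / 4800) * p ^ 4 + (3537 / 400) * p ^ 3 - (77 /
      80) * p ^ 2 := by
    have e : (1171 / 450) * p ^ 6 + (8621 / 1600) * p ^ 5 - (27731 / 4800) * p ^ 4 + (3537 / 400) * p ^ 3 - (77 /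
      80) * p ^ 2
        = (7267 / 720) + (211427 / 4800) * z + (100579 / 1200) * z ^ 2 + (131989 / 1440) * z ^ 3 + (18059 /
      300) * z ^ 4 + (100807 / 4800) * z ^ 5 + (1171 / 450) * z ^ 6 := by rw [hpz]; ring
    rw [e]; positivity
  have g3 : 0 ≤ (457 / 200) * p ^ 6 + (1747 / 960) * p ^ 5 - (4433 / 1600) * p ^ 4 + (653 / 160) * p ^ 3 - (6 / 5) *
      p ^ 2 := by
    have e : (457 / 200) * p ^ 6 + (1747 / 960) * p ^ 5 - (4433 / 1600) * p ^ 4 + (653 / 160) * p ^ 3 - (6 / 5) *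
      p ^ 2
        = (10117 / 2400) + (103537 / 4800) * z + (112543 / 2400) * z ^ 2 + (17069 / 300) * z ^ 3 + (12181 /
      300) * z ^ 4 + (74543 / 4800) * z ^ 5 + (457 / 200) * z ^ 6 := by rw [hpz]; ring
    rw [e]; positivity
  have g4 : 0 ≤ (23 / 20) * p ^ 6 + (1549 / 960) * p ^ 5 - (2131 / 1600) * p ^ 4 + (1 / 5) * p ^ 3 - (15 / 16) * p ^
      2 := by
    have e : (23 / 20) * p ^ 6 + (1549 / 960) * p ^ 5 - (2131 / 1600) * p ^ 4 + (1 / 5) * p ^ 3 - (15 / 16) * p ^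
      2
        = (833 / 1200) + (40153 / 4800) * z + (7517 / 300) * z ^ 2 + (81619 / 2400) * z ^ 3 + (28783 / 1200) *
      z ^ 4 + (8173 / 960) * z ^ 5 + (23 / 20) * z ^ 6 := by rw [hpz]; ring
    rw [e]; positivity
  have h := bernT4 _ _ _ _ _ r s hr hs g0 g1 g2 g3 g4
  refine h.trans_eq ?_
  obtain rfl : s = 1 - r := by linarith
  rw [hu]; ring

theorem certB_B1l_2 (p u : ℝ) (hpa : 1 ≤ p) (h1 : -p ≤ u) (h2 : u ≤ p) :
    0 ≤ -(9 / 20) * p ^ 3 * u ^ 3 - (299 / 100) * p ^ 4 * u ^ 2 - (1 / 8) * p ^ 5 * u + (187 / 25) * p ^ 6 -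
      (13 / 80) * p * u ^ 4 + (577 / 400) * p ^ 2 * u ^ 3 - (17 / 32) * p ^ 3 * u ^ 2 + (17 / 10) * p ^ 4
      * u + (117 / 100) * p ^ 5 - (9 / 20) * p * u ^ 3 - (189 / 100) * p ^ 2 * u ^ 2 + (1179 / 200) * p ^
      3 * u - (6 / 5) * p ^ 4 + (27 / 20) * p * u ^ 2 - (603 / 100) * p ^ 2 * u + (243 / 40) * p ^ 3 := by
  obtain ⟨r, s, hr, hs, hrs, hu⟩ := conv_u p u (by linarith) h1 h2
  obtain ⟨z, hz, hpz⟩ : ∃ z, 0 ≤ z ∧ p = 1 + z := ⟨p - 1, by linarith, by ring⟩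
  have g0 : 0 ≤ (1013 / 200) * p ^ 6 - (2133 / 800) * p ^ 5 - (1707 / 200) * p ^ 4 + (2691 / 200) * p ^ 3 := by
    have e : (1013 / 200) * p ^ 6 - (2133 / 800) * p ^ 5 - (1707 / 200) * p ^ 4 + (2691 / 200) * p ^ 3
        = (1171 / 160) + (18627 / 800) * z + (15387 / 400) * z ^ 2 + (21581 / 400) * z ^ 3 + (43287 / 800) * z
      ^ 4 + (22179 / 800) * z ^ 5 + (1013 / 200) * z ^ 6 := by rw [hpz]; ring
    rw [e]; positivity
  have g1 : 0 ≤ (2927 / 400) * p ^ 6 + (963 / 800) * p ^ 5 - (1749 / 400) * p ^ 4 + (909 / 100) * p ^ 3 := by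
    have e : (2927 / 400) * p ^ 6 + (963 / 800) * p ^ 5 - (1749 / 400) * p ^ 4 + (909 / 100) * p ^ 3
        = (10591 / 800) + (47763 / 800) * z + (24567 / 200) * z ^ 2 + (11999 / 80) * z ^ 3 + (89127 / 800) * z
      ^ 4 + (36087 / 800) * z ^ 5 + (2927 / 400) * z ^ 6 := by rw [hpz]; ring
    rw [e]; positivity
  have g2 : 0 ≤ (2543 / 300) * p ^ 6 + (2843 / 2400) * p ^ 5 - (57 / 100) * p ^ 4 + (45 / 8) * p ^ 3 := by
    have e : (2543 / 300) * p ^ 6 + (2843 / 2400) * p ^ 5 - (57 / 100) * p ^ 4 + (45 / 8) * p ^ 3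
        = (11773 / 800) + (171307 / 2400) * z + (182941 / 1200) * z ^ 2 + (221669 / 1200) * z ^ 3 + (318007 /
      2400) * z ^ 4 + (124907 / 2400) * z ^ 5 + (2543 / 300) * z ^ 6 := by rw [hpz]; ring
    rw [e]; positivity
  have g3 : 0 ≤ (3057 / 400) * p ^ 6 + (1169 / 800) * p ^ 5 + (789 / 400) * p ^ 4 + (153 / 50) * p ^ 3 := by
    have e : (3057 / 400) * p ^ 6 + (1169 / 800) * p ^ 5 + (789 / 400) * p ^ 4 + (153 / 50) * p ^ 3
        = (11309 / 800) + (11237 / 160) * z + (30053 / 200) * z ^ 2 + (14273 / 80) * z ^ 3 + (99133 / 800) * z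
      ^ 4 + (37853 / 800) * z ^ 5 + (3057 / 400) * z ^ 6 := by rw [hpz]; ring
    rw [e]; positivity
  have g4 : 0 ≤ (783 / 200) * p ^ 6 + (579 / 160) * p ^ 5 + (471 / 200) * p ^ 4 + (279 / 200) * p ^ 3 := by
    have e : (783 / 200) * p ^ 6 + (579 / 160) * p ^ 5 + (471 / 200) * p ^ 4 + (279 / 200) * p ^ 3
        = (9027 / 800) + (44151 / 800) * z + (45291 / 400) * z ^ 2 + (50121 / 400) * z ^ 3 + (63339 / 800) * z
      ^ 4 + (21687 / 800) * z ^ 5 + (783 / 200) * z ^ 6 := by rw [hpz]; ring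
    rw [e]; positivity
  have h := bernT4 _ _ _ _ _ r s hr hs g0 g1 g2 g3 g4
  refine h.trans_eq ?_
  obtain rfl : s = 1 - r := by linarith
  rw [hu]; ring

theorem certB_B1l (p u l : ℝ) (hpa : 1 ≤ p) (h1 : -p ≤ u) (h2 : u ≤ p)
    (hl0 : (1 / 3) * p ^ 2 - (1 / 4) * u - (1 / 2) ≤ l) (hl : l ≤ p ^ 2) :
    0 ≤ -(9 / 20) * l * p * u ^ 3 + (201 / 100) * l * p ^ 2 * u ^ 2 - (81 / 40) * l * p ^ 3 * u - (13 / 80)
      * p * u ^ 4 + (537 / 400) * p ^ 2 * u ^ 3 - (2321 / 800) * p ^ 3 * u ^ 2 - (33 / 200) * p ^ 4 * u +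
      (18 / 5) * p ^ 5 + (237 / 100) * l * p * u ^ 2 - (1627 / 200) * l * p ^ 2 * u + (657 / 100) * l * p
      ^ 3 + (1 / 10) * l * u ^ 3 + (19 / 10) * l ^ 2 * p * u + (187 / 25) * l ^ 2 * p ^ 2 - 5 * l ^ 2 * u
      ^ 2 - (9 / 20) * p * u ^ 3 + (111 / 100) * p ^ 2 * u ^ 2 + (399 / 200) * p ^ 3 * u - (81 / 20) * p ^
      4 + (39 / 10) * l * p * u + (57 / 20) * l * p ^ 2 - 3 * l * u ^ 2 - 9 * l ^ 2 * p + 10 * l ^ 2 * u +
      (27 / 20) * p * u ^ 2 - (603 / 100) * p ^ 2 * u + (243 / 40) * p ^ 3 := by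
  obtain ⟨x, y, hx, hy, hxy, hlxy⟩ := conv_seg _ _ l hl0 hl
  have h := bernT2 _ _ _ y x hy hx (certB_B1l_0 p u hpa h1 h2) (certB_B1l_1 p u hpa h1 h2)
    (certB_B1l_2 p u hpa h1 h2)
  refine h.trans_eq ?_
  obtain rfl : y = 1 - x := by linarith
  rw [hlxy]; ring

theorem certB_B1 (p u l : ℝ) (hp : 0 < p) (h1 : -p ≤ u) (h2 : u ≤ p)
    (hm : 2 * p + u / 4 + 1 / 2 ≤ 3 * l) (hlam : p ^ 2 - 3 / 4 * u - 3 / 2 ≤ 3 * l)
    (hl : l ≤ p ^ 2) :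
    0 ≤ -(9 / 20) * l * p * u ^ 3 + (201 / 100) * l * p ^ 2 * u ^ 2 - (81 / 40) * l * p ^ 3 * u - (13 / 80)
      * p * u ^ 4 + (537 / 400) * p ^ 2 * u ^ 3 - (2321 / 800) * p ^ 3 * u ^ 2 - (33 / 200) * p ^ 4 * u +
      (18 / 5) * p ^ 5 + (237 / 100) * l * p * u ^ 2 - (1627 / 200) * l * p ^ 2 * u + (657 / 100) * l * p
      ^ 3 + (1 / 10) * l * u ^ 3 + (19 / 10) * l ^ 2 * p * u + (187 / 25) * l ^ 2 * p ^ 2 - 5 * l ^ 2 * u
      ^ 2 - (9 / 20) * p * u ^ 3 + (111 / 100) * p ^ 2 * u ^ 2 + (399 / 200) * p ^ 3 * u - (81 / 20) * p ^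
      4 + (39 / 10) * l * p * u + (57 / 20) * l * p ^ 2 - 3 * l * u ^ 2 - 9 * l ^ 2 * p + 10 * l ^ 2 * u +
      (27 / 20) * p * u ^ 2 - (603 / 100) * p ^ 2 * u + (243 / 40) * p ^ 3 := by
  have h34 : (3 / 4 : ℝ) ≤ p := by
    by_contra hc
    push Not at hc
    nlinarith
  rcases le_total p 1 with h | h
  · exact certB_B1m p u l h34 h h1 h2 (by linarith) hl
  · exact certB_B1l p u l h h1 h2 (by linarith) hl

theorem certB_B0m_0 (p u : ℝ) (hpa : (3 / 4) ≤ p) (hpb : p ≤ 1) (h1 : -p ≤ u) (h2 : u ≤ p) :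
    0 ≤ -(11 / 80) * p * u ^ 3 - (139 / 240) * p ^ 2 * u ^ 2 + (27 / 40) * p ^ 3 * u + (1 / 5) * p ^ 4 + (7
      / 60) * u ^ 4 + (82 / 135) * p * u ^ 2 + (377 / 1080) * p ^ 2 * u + (773 / 540) * p ^ 3 + (14 / 135)
      * u ^ 3 + (17 / 30) * p * u + (391 / 135) * p ^ 2 - (77 / 1080) * u ^ 2 - (143 / 270) * p + (91 /
      270) * u - (7 / 90) := by
  obtain ⟨r, s, hr, hs, hrs, hu⟩ := conv_u p u (by linarith) h1 h2
  obtain ⟨a, b, ha, hb, hab, hpab⟩ := conv_seg _ _ p hpa hpb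
  have g0 : 0 ≤ -(4 / 5) * p ^ 4 + (571 / 360) * p ^ 3 + (271 / 120) * p ^ 2 - (13 / 15) * p - (7 / 90) := by
    have e : -(4 / 5) * p ^ 4 + (571 / 360) * p ^ 3 + (271 / 120) * p ^ 2 - (13 / 15) * p - (7 / 90)
        = (4417 / 4608) * a ^ 4 + (110501 / 23040) * a ^ 3 * b + (8479 / 960) * a ^ 2 * b ^ 2 + (3407 / 480) *
      a * b ^ 3 + (21 / 10) * b ^ 4 := by
      obtain rfl : b = 1 - a := by linarith
      rw [hpab]; ring
    rw [e]; positivity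
  have g1 : 0 ≤ -(31 / 96) * p ^ 4 + (2827 / 2160) * p ^ 3 + (1411 / 540) * p ^ 2 - (377 / 540) * p - (7 / 90) := by
    have e : -(31 / 96) * p ^ 4 + (2827 / 2160) * p ^ 3 + (1411 / 540) * p ^ 2 - (377 / 540) * p - (7 / 90)
        = (486007 / 368640) * a ^ 4 + (179567 / 27648) * a ^ 3 * b + (25603 / 2160) * a ^ 2 * b ^ 2 + (9121 /
      960) * a * b ^ 3 + (271 / 96) * b ^ 4 := by
      obtain rfl : b = 1 - a := by linarith
      rw [hpab]; ring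
    rw [e]; positivity
  have g2 : 0 ≤ (367 / 720) * p ^ 4 + (1991 / 1620) * p ^ 3 + (9461 / 3240) * p ^ 2 - (143 / 270) * p - (7 / 90) := by
    have e : (367 / 720) * p ^ 4 + (1991 / 1620) * p ^ 3 + (9461 / 3240) * p ^ 2 - (143 / 270) * p - (7 / 90)
        = (68099 / 36864) * a ^ 4 + (31399 / 3456) * a ^ 3 * b + (215591 / 12960) * a ^ 2 * b ^ 2 + (87133 /
      6480) * a * b ^ 3 + (2917 / 720) * b ^ 4 := by
      obtain rfl : b = 1 - a := by linarith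
      rw [hpab]; ring
    rw [e]; positivity
  have g3 : 0 ≤ (47 / 96) * p ^ 4 + (373 / 240) * p ^ 3 + (1717 / 540) * p ^ 2 - (13 / 36) * p - (7 / 90) := by
    have e : (47 / 96) * p ^ 4 + (373 / 240) * p ^ 3 + (1717 / 540) * p ^ 2 - (13 / 36) * p - (7 / 90)
        = (165925 / 73728) * a ^ 4 + (505327 / 46080) * a ^ 3 * b + (86039 / 4320) * a ^ 2 * b ^ 2 + (27619 /
      1728) * a * b ^ 3 + (20669 / 4320) * b ^ 4 := by
      obtain rfl : b = 1 - a := by linarith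
      rw [hpab]; ring
    rw [e]; positivity
  have g4 : 0 ≤ (11 / 40) * p ^ 4 + (299 / 120) * p ^ 3 + (407 / 120) * p ^ 2 - (26 / 135) * p - (7 / 90) := by
    have e : (11 / 40) * p ^ 4 + (299 / 120) * p ^ 3 + (407 / 120) * p ^ 2 - (26 / 135) * p - (7 / 90)
        = (260239 / 92160) * a ^ 4 + (945977 / 69120) * a ^ 3 * b + (71239 / 2880) * a ^ 2 * b ^ 2 + (1897 /
      96) * a * b ^ 3 + (6359 / 1080) * b ^ 4 := by
      obtain rfl : b = 1 - a := by linarith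
      rw [hpab]; ring
    rw [e]; positivity
  have h := bernT4 _ _ _ _ _ r s hr hs g0 g1 g2 g3 g4
  refine h.trans_eq ?_
  obtain rfl : s = 1 - r := by linarith
  rw [hu]; ring

theorem certB_B0m_1 (p u : ℝ) (hpa : (3 / 4) ≤ p) (hpb : p ≤ 1) (h1 : -p ≤ u) (h2 : u ≤ p) :
    0 ≤ (7 / 160) * p ^ 2 * u ^ 3 + (5 / 32) * p ^ 3 * u ^ 2 - (39 / 80) * p ^ 4 * u - (23 / 128) * p * u ^
      3 - (1417 / 2880) * p ^ 2 * u ^ 2 + (1231 / 480) * p ^ 3 * u + (259 / 72) * p ^ 4 + (217 / 1920) * u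
      ^ 4 + (673 / 1920) * p * u ^ 2 + (143 / 360) * p ^ 2 * u - (1589 / 720) * p ^ 3 + (161 / 1920) * u ^
      3 - (53 / 120) * p * u + (667 / 240) * p ^ 2 - (49 / 240) * u ^ 2 + (1 / 96) * p + (77 / 480) * u := by
  obtain ⟨r, s, hr, hs, hrs, hu⟩ := conv_u p u (by linarith) h1 h2
  obtain ⟨a, b, ha, hb, hab, hpab⟩ := conv_seg _ _ p hpa hpb
  have g0 : 0 ≤ (3 / 5) * p ^ 5 + (5 / 6) * p ^ 4 - (187 / 80) * p ^ 3 + (181 / 60) * p ^ 2 - (3 / 20) * p := by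
    have e : (3 / 5) * p ^ 5 + (5 / 6) * p ^ 4 - (187 / 80) * p ^ 3 + (181 / 60) * p ^ 2 - (3 / 20) * p
        = (2571 / 2560) * a ^ 5 + (7319 / 1280) * a ^ 4 * b + (200029 / 15360) * a ^ 3 * b ^ 2 + (19019 /
      1280) * a ^ 2 * b ^ 3 + (8171 / 960) * a * b ^ 4 + (157 / 80) * b ^ 5 := by
      obtain rfl : b = 1 - a := by linarith
      rw [hpab]; ring
    rw [e]; positivity
  have g1 : 0 ≤ (17 / 64) * p ^ 5 + (24331 / 11520) * p ^ 4 - (27229 / 11520) * p ^ 3 + 3 * p ^ 2 - (67 / 960) * p := by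
    have e : (17 / 64) * p ^ 5 + (24331 / 11520) * p ^ 4 - (27229 / 11520) * p ^ 3 + 3 * p ^ 2 - (67 / 960) * p
        = (224347 / 163840) * a ^ 5 + (1563625 / 196608) * a ^ 4 * b + (908803 / 49152) * a ^ 3 * b ^ 2 +
      (3968291 / 184320) * a ^ 2 * b ^ 3 + (579107 / 46080) * a * b ^ 4 + (5653 / 1920) * b ^ 5 := by
      obtain rfl : b = 1 - a := by linarith
      rw [hpab]; ring
    rw [e]; positivity
  have g2 : 0 ≤ -(5 / 96) * p ^ 5 + (66947 / 17280) * p ^ 4 - (2677 / 1152) * p ^ 3 + (205 / 72) * p ^ 2 + (1 / 96)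
      * p := by
    have e : -(5 / 96) * p ^ 5 + (66947 / 17280) * p ^ 4 - (2677 / 1152) * p ^ 3 + (205 / 72) * p ^ 2 + (1 / 96)
      * p
        = (75469 / 40960) * a ^ 5 + (1788533 / 163840) * a ^ 4 * b + (9545921 / 368640) * a ^ 3 * b ^ 2 +
      (314907 / 10240) * a ^ 2 * b ^ 3 + (1264037 / 69120) * a * b ^ 4 + (9409 / 2160) * b ^ 5 := by
      obtain rfl : b = 1 - a := by linarith
      rw [hpab]; ring
    rw [e]; positivity
  have g3 : 0 ≤ -(17 / 64) * p ^ 5 + (11189 / 2304) * p ^ 4 - (7873 / 3840) * p ^ 3 + (307 / 120) * p ^ 2 + (29 /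
      320) * p := by
    have e : -(17 / 64) * p ^ 5 + (11189 / 2304) * p ^ 4 - (7873 / 3840) * p ^ 3 + (307 / 120) * p ^ 2 + (29 /
      320) * p
        = (346623 / 163840) * a ^ 5 + (4141509 / 327680) * a ^ 4 * b + (7428161 / 245760) * a ^ 3 * b ^ 2 +
      (740781 / 20480) * a ^ 2 * b ^ 3 + (998029 / 46080) * a * b ^ 4 + (29891 / 5760) * b ^ 5 := by
      obtain rfl : b = 1 - a := by linarith
      rw [hpab]; ring
    rw [e]; positivity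
  have g4 : 0 ≤ -(23 / 80) * p ^ 5 + (1793 / 320) * p ^ 4 - (3961 / 2880) * p ^ 3 + (32 / 15) * p ^ 2 + (41 / 240) *
      p := by
    have e : -(23 / 80) * p ^ 5 + (1793 / 320) * p ^ 4 - (3961 / 2880) * p ^ 3 + (32 / 15) * p ^ 2 + (41 / 240) *
      p
        = (12557 / 5120) * a ^ 5 + (726235 / 49152) * a ^ 4 * b + (2188603 / 61440) * a ^ 3 * b ^ 2 + (1979363
      / 46080) * a ^ 2 * b ^ 3 + (59675 / 2304) * a * b ^ 4 + (281 / 45) * b ^ 5 := by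
      obtain rfl : b = 1 - a := by linarith
      rw [hpab]; ring
    rw [e]; positivity
  have h := bernT4 _ _ _ _ _ r s hr hs g0 g1 g2 g3 g4
  refine h.trans_eq ?_
  obtain rfl : s = 1 - r := by linarith
  rw [hu]; ring

theorem certB_B0m_2 (p u : ℝ) (hpa : (3 / 4) ≤ p) (hpb : p ≤ 1) (h1 : -p ≤ u) (h2 : u ≤ p) :
    0 ≤ (7 / 80) * p ^ 2 * u ^ 3 + (5 / 16) * p ^ 3 * u ^ 2 + (289 / 120) * p ^ 4 * u + (31 / 12) * p ^ 5 -
      (71 / 320) * p * u ^ 3 - (31 / 32) * p ^ 2 * u ^ 2 - (39 / 80) * p ^ 3 * u + (3 / 4) * p ^ 4 + (7 /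
      64) * u ^ 4 + (39 / 80) * p * u ^ 2 + (63 / 40) * p ^ 2 * u - (73 / 40) * p ^ 3 + (7 / 80) * u ^ 3 -
      (15 / 16) * p * u + (117 / 40) * p ^ 2 - (21 / 80) * u ^ 2 := by
  obtain ⟨r, s, hr, hs, hrs, hu⟩ := conv_u p u (by linarith) h1 h2
  obtain ⟨a, b, ha, hb, hab, hpab⟩ := conv_seg _ _ p hpa hpb
  have g0 : 0 ≤ (2 / 5) * p ^ 5 + (3 / 5) * p ^ 4 - 3 * p ^ 3 + (18 / 5) * p ^ 2 := by
    have e : (2 / 5) * p ^ 5 + (3 / 5) * p ^ 4 - 3 * p ^ 3 + (18 / 5) * p ^ 2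
        = (2673 / 2560) * a ^ 5 + (7317 / 1280) * a ^ 4 * b + (3987 / 320) * a ^ 3 * b ^ 2 + (1083 / 80) * a ^
      2 * b ^ 3 + (147 / 20) * a * b ^ 4 + (8 / 5) * b ^ 5 := by
      obtain rfl : b = 1 - a := by linarith
      rw [hpab]; ring
    rw [e]; positivity
  have g1 : 0 ≤ (683 / 480) * p ^ 5 + (99 / 128) * p ^ 4 - (411 / 160) * p ^ 3 + (543 / 160) * p ^ 2 := by
    have e : (683 / 480) * p ^ 5 + (99 / 128) * p ^ 4 - (411 / 160) * p ^ 3 + (543 / 160) * p ^ 2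
        = (115317 / 81920) * a ^ 5 + (265959 / 32768) * a ^ 4 * b + (6009 / 320) * a ^ 3 * b ^ 2 + (111789 /
      5120) * a ^ 2 * b ^ 3 + (4091 / 320) * a * b ^ 4 + (5801 / 1920) * b ^ 5 := by
      obtain rfl : b = 1 - a := by linarith
      rw [hpab]; ring
    rw [e]; positivity
  have g2 : 0 ≤ (119 / 48) * p ^ 5 + (227 / 192) * p ^ 4 - (159 / 80) * p ^ 3 + (241 / 80) * p ^ 2 := by
    have e : (119 / 48) * p ^ 5 + (227 / 192) * p ^ 4 - (159 / 80) * p ^ 3 + (241 / 80) * p ^ 2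
        = (18621 / 10240) * a ^ 5 + (889881 / 81920) * a ^ 4 * b + (66761 / 2560) * a ^ 3 * b ^ 2 + (80603 /
      2560) * a ^ 2 * b ^ 3 + (1837 / 96) * a * b ^ 4 + (4499 / 960) * b ^ 5 := by
      obtain rfl : b = 1 - a := by linarith
      rw [hpab]; ring
    rw [e]; positivity
  have g3 : 0 ≤ (599 / 160) * p ^ 5 + (65 / 128) * p ^ 4 - (173 / 160) * p ^ 3 + (393 / 160) * p ^ 2 := by
    have e : (599 / 160) * p ^ 5 + (65 / 128) * p ^ 4 - (173 / 160) * p ^ 3 + (393 / 160) * p ^ 2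
        = (161757 / 81920) * a ^ 5 + (1971441 / 163840) * a ^ 4 * b + (75471 / 2560) * a ^ 3 * b ^ 2 + (185999
      / 5120) * a ^ 2 * b ^ 3 + (7209 / 320) * a * b ^ 4 + (3601 / 640) * b ^ 5 := by
      obtain rfl : b = 1 - a := by linarith
      rw [hpab]; ring
    rw [e]; positivity
  have g4 : 0 ≤ (647 / 120) * p ^ 5 - (131 / 160) * p ^ 4 + (13 / 40) * p ^ 3 + (69 / 40) * p ^ 2 := by
    have e : (647 / 120) * p ^ 5 - (131 / 160) * p ^ 4 + (13 / 40) * p ^ 3 + (69 / 40) * p ^ 2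
        = (21789 / 10240) * a ^ 5 + (541089 / 40960) * a ^ 4 * b + (8439 / 256) * a ^ 3 * b ^ 2 + (52931 /
      1280) * a ^ 2 * b ^ 3 + (2087 / 80) * a * b ^ 4 + (3179 / 480) * b ^ 5 := by
      obtain rfl : b = 1 - a := by linarith
      rw [hpab]; ring
    rw [e]; positivity
  have h := bernT4 _ _ _ _ _ r s hr hs g0 g1 g2 g3 g4
  refine h.trans_eq ?_
  obtain rfl : s = 1 - r := by linarith
  rw [hu]; ring

theorem certB_B0m (p u l : ℝ) (hpa : (3 / 4) ≤ p) (hpb : p ≤ 1) (h1 : -p ≤ u) (h2 : u ≤ p)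
    (hl0 : (2 / 3) * p + (1 / 12) * u + (1 / 6) ≤ l) (hl : l ≤ p ^ 2) :
    0 ≤ (5 / 16) * l * p * u ^ 2 - (39 / 40) * l * p ^ 2 * u + (7 / 80) * l * u ^ 3 - (71 / 320) * p * u ^ 3
      - (113 / 160) * p ^ 2 * u ^ 2 + (53 / 40) * p ^ 3 * u + (1 / 5) * p ^ 4 + (7 / 64) * u ^ 4 - (29 /
      16) * l * p * u + (67 / 20) * l * p ^ 2 - (21 / 80) * l * u ^ 2 + (31 / 12) * l ^ 2 * p + (203 / 60)
      * l ^ 2 * u + (39 / 80) * p * u ^ 2 - (7 / 20) * p ^ 2 * u - (39 / 20) * p ^ 3 + (7 / 80) * u ^ 3 +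
      (1 / 8) * l * p + (77 / 40) * l * u - (14 / 5) * l ^ 2 - (15 / 16) * p * u + (117 / 40) * p ^ 2 -
      (21 / 80) * u ^ 2 := by
  obtain ⟨x, y, hx, hy, hxy, hlxy⟩ := conv_seg _ _ l hl0 hl
  have h := bernT2 _ _ _ y x hy hx (certB_B0m_0 p u hpa hpb h1 h2) (certB_B0m_1 p u hpa hpb h1 h2)
    (certB_B0m_2 p u hpa hpb h1 h2)
  refine h.trans_eq ?_
  obtain rfl : y = 1 - x := by linarith
  rw [hlxy]; ring

theorem certB_B0l_0 (p u : ℝ) (hpa : 1 ≤ p) (h1 : -p ≤ u) (h2 : u ≤ p) :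
    0 ≤ (7 / 240) * p ^ 2 * u ^ 3 + (5 / 48) * p ^ 3 * u ^ 2 + (11 / 216) * p ^ 4 * u + (31 / 108) * p ^ 5 -
      (3 / 10) * p * u ^ 3 - (401 / 360) * p ^ 2 * u ^ 2 + (209 / 720) * p ^ 3 * u + (181 / 180) * p ^ 4 +
      (7 / 80) * u ^ 4 + (227 / 240) * p * u ^ 2 - (259 / 360) * p ^ 2 * u - (997 / 360) * p ^ 3 + (77 /
      240) * u ^ 3 + (7 / 12) * p * u + (131 / 60) * p ^ 2 + (7 / 120) * u ^ 2 + (7 / 12) * p - (49 / 60)
      * u - (7 / 10) := by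
  obtain ⟨r, s, hr, hs, hrs, hu⟩ := conv_u p u (by linarith) h1 h2
  obtain ⟨z, hz, hpz⟩ : ∃ z, 0 ≤ z ∧ p = 1 + z := ⟨p - 1, by linarith, by ring⟩
  have g0 : 0 ≤ (14 / 45) * p ^ 5 - (1 / 90) * p ^ 4 - (57 / 40) * p ^ 3 + (199 / 120) * p ^ 2 + (7 / 5) * p - (7 /
      10) := by
    have e : (14 / 45) * p ^ 5 - (1 / 90) * p ^ 4 - (57 / 40) * p ^ 3 + (199 / 120) * p ^ 2 + (7 / 5) * p - (7 /
      10)
        = (37 / 30) + (703 / 360) * z + (77 / 180) * z ^ 2 + (197 / 120) * z ^ 3 + (139 / 90) * z ^ 4 + (14 /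
      45) * z ^ 5 := by rw [hpz]; ring
    rw [e]; positivity
  have g1 : 0 ≤ (1193 / 4320) * p ^ 5 + (299 / 480) * p ^ 4 - (3239 / 1440) * p ^ 3 + (227 / 120) * p ^ 2 + (119 /
      120) * p - (7 / 10) := by
    have e : (1193 / 4320) * p ^ 5 + (299 / 480) * p ^ 4 - (3239 / 1440) * p ^ 3 + (227 / 120) * p ^ 2 + (119 /
      120) * p - (7 / 10)
        = (3599 / 4320) + (4103 / 2160) * z + (7097 / 4320) * z ^ 2 + (12977 / 4320) * z ^ 3 + (541 / 270) * z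
      ^ 4 + (1193 / 4320) * z ^ 5 := by rw [hpz]; ring
    rw [e]; positivity
  have g2 : 0 ≤ (109 / 432) * p ^ 5 + (3163 / 2160) * p ^ 4 - (2221 / 720) * p ^ 3 + (779 / 360) * p ^ 2 + (7 / 12)
      * p - (7 / 10) := by
    have e : (109 / 432) * p ^ 5 + (3163 / 2160) * p ^ 4 - (2221 / 720) * p ^ 3 + (779 / 360) * p ^ 2 + (7 / 12)
      * p - (7 / 10)
        = (163 / 240) + (1499 / 540) * z + (9113 / 2160) * z ^ 2 + (1271 / 240) * z ^ 3 + (368 / 135) * z ^ 4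
      + (109 / 432) * z ^ 5 := by rw [hpz]; ring
    rw [e]; positivity
  have g3 : 0 ≤ (143 / 480) * p ^ 5 + (1747 / 1440) * p ^ 4 - (1579 / 480) * p ^ 3 + (99 / 40) * p ^ 2 + (7 / 40) *
      p - (7 / 10) := by
    have e : (143 / 480) * p ^ 5 + (1747 / 1440) * p ^ 4 - (1579 / 480) * p ^ 3 + (99 / 40) * p ^ 2 + (7 / 40) *
      p - (7 / 10)
        = (247 / 1440) + (1151 / 720) * z + (275 / 96) * z ^ 2 + (6541 / 1440) * z ^ 3 + (973 / 360) * z ^ 4 +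
      (143 / 480) * z ^ 5 := by rw [hpz]; ring
    rw [e]; positivity
  have g4 : 0 ≤ (509 / 1080) * p ^ 5 - (11 / 360) * p ^ 4 - (20 / 9) * p ^ 3 + (113 / 40) * p ^ 2 - (7 / 30) * p -
      (7 / 10) := by
    have e : (509 / 1080) * p ^ 5 - (11 / 360) * p ^ 4 - (20 / 9) * p ^ 3 + (113 / 40) * p ^ 2 - (7 / 30) * p -
      (7 / 10)
        = (119 / 1080) + (1063 / 1080) * z + (743 / 1080) * z ^ 2 + (1279 / 540) * z ^ 3 + (314 / 135) * z ^ 4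
      + (509 / 1080) * z ^ 5 := by rw [hpz]; ring
    rw [e]; positivity
  have h := bernT4 _ _ _ _ _ r s hr hs g0 g1 g2 g3 g4
  refine h.trans_eq ?_
  obtain rfl : s = 1 - r := by linarith
  rw [hu]; ring

theorem certB_B0l_1 (p u : ℝ) (hpa : 1 ≤ p) (h1 : -p ≤ u) (h2 : u ≤ p) :
    0 ≤ (7 / 120) * p ^ 2 * u ^ 3 + (5 / 24) * p ^ 3 * u ^ 2 + (43 / 90) * p ^ 4 * u + (31 / 36) * p ^ 5 -
      (167 / 640) * p * u ^ 3 - (1541 / 960) * p ^ 2 * u ^ 2 - (127 / 240) * p ^ 3 * u + (3 / 2) * p ^ 4 +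
      (63 / 640) * u ^ 4 + (407 / 640) * p * u ^ 2 - (7 / 30) * p ^ 2 * u - (379 / 120) * p ^ 3 + (63 /
      640) * u ^ 3 - (1 / 2) * p * u + (279 / 80) * p ^ 2 - (7 / 16) * u ^ 2 - (1 / 32) * p - (77 / 160) *
      u := by
  obtain ⟨r, s, hr, hs, hrs, hu⟩ := conv_u p u (by linarith) h1 h2
  obtain ⟨z, hz, hpz⟩ : ∃ z, 0 ≤ z ∧ p = 1 + z := ⟨p - 1, by linarith, by ring⟩
  have g0 : 0 ≤ (8 / 15) * p ^ 5 + (47 / 60) * p ^ 4 - (191 / 80) * p ^ 3 + (71 / 20) * p ^ 2 + (9 / 20) * p := by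
    have e : (8 / 15) * p ^ 5 + (47 / 60) * p ^ 4 - (191 / 80) * p ^ 3 + (71 / 20) * p ^ 2 + (9 / 20) * p
        = (703 / 240) + (99 / 16) * z + (1541 / 240) * z ^ 2 + (1459 / 240) * z ^ 3 + (69 / 20) * z ^ 4 + (8 /
      15) * z ^ 5 := by rw [hpz]; ring
    rw [e]; positivity
  have g1 : 0 ≤ (469 / 720) * p ^ 5 + (5897 / 3840) * p ^ 4 - (11491 / 3840) * p ^ 3 + (299 / 80) * p ^ 2 + (67 /
      320) * p := by
    have e : (469 / 720) * p ^ 5 + (5897 / 3840) * p ^ 4 - (11491 / 3840) * p ^ 3 + (299 / 80) * p ^ 2 + (67 /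
      320) * p
        = (3619 / 1152) + (93389 / 11520) * z + (120823 / 11520) * z ^ 2 + (111331 / 11520) * z ^ 3 + (55211 /
      11520) * z ^ 4 + (469 / 720) * z ^ 5 := by rw [hpz]; ring
    rw [e]; positivity
  have g2 : 0 ≤ (19 / 24) * p ^ 5 + (12289 / 5760) * p ^ 4 - (2157 / 640) * p ^ 3 + (109 / 30) * p ^ 2 - (1 / 32) *
      p := by
    have e : (19 / 24) * p ^ 5 + (12289 / 5760) * p ^ 4 - (2157 / 640) * p ^ 3 + (109 / 30) * p ^ 2 - (1 / 32) *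
      p
        = (2273 / 720) + (55393 / 5760) * z + (27341 / 1920) * z ^ 2 + (75343 / 5760) * z ^ 3 + (35089 / 5760)
      * z ^ 4 + (19 / 24) * z ^ 5 := by rw [hpz]; ring
    rw [e]; positivity
  have g3 : 0 ≤ (257 / 240) * p ^ 5 + (4867 / 3840) * p ^ 4 - (851 / 256) * p ^ 3 + (259 / 80) * p ^ 2 - (87 / 320)
      * p := by
    have e : (257 / 240) * p ^ 5 + (4867 / 3840) * p ^ 4 - (851 / 256) * p ^ 3 + (259 / 80) * p ^ 2 - (87 / 320)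
      * p
        = (1267 / 640) + (25553 / 3840) * z + (44459 / 3840) * z ^ 2 + (15941 / 1280) * z ^ 3 + (25427 / 3840)
      * z ^ 4 + (257 / 240) * z ^ 5 := by rw [hpz]; ring
    rw [e]; positivity
  have g4 : 0 ≤ (289 / 180) * p ^ 5 - (51 / 64) * p ^ 4 - (2551 / 960) * p ^ 3 + (51 / 20) * p ^ 2 - (41 / 80) * p := by
    have e : (289 / 180) * p ^ 5 - (51 / 64) * p ^ 4 - (2551 / 960) * p ^ 3 + (51 / 20) * p ^ 2 - (41 / 80) * p
        = (17 / 90) + (4193 / 2880) * z + (3371 / 576) * z ^ 2 + (29407 / 2880) * z ^ 3 + (4165 / 576) * z ^ 4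
      + (289 / 180) * z ^ 5 := by rw [hpz]; ring
    rw [e]; positivity
  have h := bernT4 _ _ _ _ _ r s hr hs g0 g1 g2 g3 g4
  refine h.trans_eq ?_
  obtain rfl : s = 1 - r := by linarith
  rw [hu]; ring

theorem certB_B0l_2 (p u : ℝ) (hpa : 1 ≤ p) (h1 : -p ≤ u) (h2 : u ≤ p) :
    0 ≤ (7 / 80) * p ^ 2 * u ^ 3 + (5 / 16) * p ^ 3 * u ^ 2 + (289 / 120) * p ^ 4 * u + (31 / 12) * p ^ 5 -
      (71 / 320) * p * u ^ 3 - (31 / 32) * p ^ 2 * u ^ 2 - (39 / 80) * p ^ 3 * u + (3 / 4) * p ^ 4 + (7 /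
      64) * u ^ 4 + (39 / 80) * p * u ^ 2 + (63 / 40) * p ^ 2 * u - (73 / 40) * p ^ 3 + (7 / 80) * u ^ 3 -
      (15 / 16) * p * u + (117 / 40) * p ^ 2 - (21 / 80) * u ^ 2 := by
  obtain ⟨r, s, hr, hs, hrs, hu⟩ := conv_u p u (by linarith) h1 h2
  obtain ⟨z, hz, hpz⟩ : ∃ z, 0 ≤ z ∧ p = 1 + z := ⟨p - 1, by linarith, by ring⟩
  have g0 : 0 ≤ (2 / 5) * p ^ 5 + (3 / 5) * p ^ 4 - 3 * p ^ 3 + (18 / 5) * p ^ 2 := by
    have e : (2 / 5) * p ^ 5 + (3 / 5) * p ^ 4 - 3 * p ^ 3 + (18 / 5) * p ^ 2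
        = (8 / 5) + (13 / 5) * z + (11 / 5) * z ^ 2 + (17 / 5) * z ^ 3 + (13 / 5) * z ^ 4 + (2 / 5) * z ^ 5 := by rw [hpz]; ring
    rw [e]; positivity
  have g1 : 0 ≤ (683 / 480) * p ^ 5 + (99 / 128) * p ^ 4 - (411 / 160) * p ^ 3 + (543 / 160) * p ^ 2 := by
    have e : (683 / 480) * p ^ 5 + (99 / 128) * p ^ 4 - (411 / 160) * p ^ 3 + (543 / 160) * p ^ 2
        = (5801 / 1920) + (4459 / 480) * z + (2795 / 192) * z ^ 2 + (3541 / 240) * z ^ 3 + (3029 / 384) * z ^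
      4 + (683 / 480) * z ^ 5 := by rw [hpz]; ring
    rw [e]; positivity
  have g2 : 0 ≤ (119 / 48) * p ^ 5 + (227 / 192) * p ^ 4 - (159 / 80) * p ^ 3 + (241 / 80) * p ^ 2 := by
    have e : (119 / 48) * p ^ 5 + (227 / 192) * p ^ 4 - (159 / 80) * p ^ 3 + (241 / 80) * p ^ 2
        = (4499 / 960) + (275 / 16) * z + (13889 / 480) * z ^ 2 + (413 / 15) * z ^ 3 + (869 / 64) * z ^ 4 +
      (119 / 48) * z ^ 5 := by rw [hpz]; ring
    rw [e]; positivity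
  have g3 : 0 ≤ (599 / 160) * p ^ 5 + (65 / 128) * p ^ 4 - (173 / 160) * p ^ 3 + (393 / 160) * p ^ 2 := by
    have e : (599 / 160) * p ^ 5 + (65 / 128) * p ^ 4 - (173 / 160) * p ^ 3 + (393 / 160) * p ^ 2
        = (3601 / 640) + (3587 / 160) * z + (12703 / 320) * z ^ 2 + (3071 / 80) * z ^ 3 + (2461 / 128) * z ^ 4
      + (599 / 160) * z ^ 5 := by rw [hpz]; ring
    rw [e]; positivity
  have g4 : 0 ≤ (647 / 120) * p ^ 5 - (131 / 160) * p ^ 4 + (13 / 40) * p ^ 3 + (69 / 40) * p ^ 2 := by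
    have e : (647 / 120) * p ^ 5 - (131 / 160) * p ^ 4 + (13 / 40) * p ^ 3 + (69 / 40) * p ^ 2
        = (3179 / 480) + (3373 / 120) * z + (12409 / 240) * z ^ 2 + (1529 / 30) * z ^ 3 + (12547 / 480) * z ^
      4 + (647 / 120) * z ^ 5 := by rw [hpz]; ring
    rw [e]; positivity
  have h := bernT4 _ _ _ _ _ r s hr hs g0 g1 g2 g3 g4
  refine h.trans_eq ?_
  obtain rfl : s = 1 - r := by linarith
  rw [hu]; ring

theorem certB_B0l (p u l : ℝ) (hpa : 1 ≤ p) (h1 : -p ≤ u) (h2 : u ≤ p)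
    (hl0 : (1 / 3) * p ^ 2 - (1 / 4) * u - (1 / 2) ≤ l) (hl : l ≤ p ^ 2) :
    0 ≤ (5 / 16) * l * p * u ^ 2 - (39 / 40) * l * p ^ 2 * u + (7 / 80) * l * u ^ 3 - (71 / 320) * p * u ^ 3
      - (113 / 160) * p ^ 2 * u ^ 2 + (53 / 40) * p ^ 3 * u + (1 / 5) * p ^ 4 + (7 / 64) * u ^ 4 - (29 /
      16) * l * p * u + (67 / 20) * l * p ^ 2 - (21 / 80) * l * u ^ 2 + (31 / 12) * l ^ 2 * p + (203 / 60)
      * l ^ 2 * u + (39 / 80) * p * u ^ 2 - (7 / 20) * p ^ 2 * u - (39 / 20) * p ^ 3 + (7 / 80) * u ^ 3 +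
      (1 / 8) * l * p + (77 / 40) * l * u - (14 / 5) * l ^ 2 - (15 / 16) * p * u + (117 / 40) * p ^ 2 -
      (21 / 80) * u ^ 2 := by
  obtain ⟨x, y, hx, hy, hxy, hlxy⟩ := conv_seg _ _ l hl0 hl
  have h := bernT2 _ _ _ y x hy hx (certB_B0l_0 p u hpa h1 h2) (certB_B0l_1 p u hpa h1 h2)
    (certB_B0l_2 p u hpa h1 h2)
  refine h.trans_eq ?_
  obtain rfl : y = 1 - x := by linarith
  rw [hlxy]; ring

theorem certB_B0 (p u l : ℝ) (hp : 0 < p) (h1 : -p ≤ u) (h2 : u ≤ p)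
    (hm : 2 * p + u / 4 + 1 / 2 ≤ 3 * l) (hlam : p ^ 2 - 3 / 4 * u - 3 / 2 ≤ 3 * l)
    (hl : l ≤ p ^ 2) :
    0 ≤ (5 / 16) * l * p * u ^ 2 - (39 / 40) * l * p ^ 2 * u + (7 / 80) * l * u ^ 3 - (71 / 320) * p * u ^ 3
      - (113 / 160) * p ^ 2 * u ^ 2 + (53 / 40) * p ^ 3 * u + (1 / 5) * p ^ 4 + (7 / 64) * u ^ 4 - (29 /
      16) * l * p * u + (67 / 20) * l * p ^ 2 - (21 / 80) * l * u ^ 2 + (31 / 12) * l ^ 2 * p + (203 / 60)
      * l ^ 2 * u + (39 / 80) * p * u ^ 2 - (7 / 20) * p ^ 2 * u - (39 / 20) * p ^ 3 + (7 / 80) * u ^ 3 +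
      (1 / 8) * l * p + (77 / 40) * l * u - (14 / 5) * l ^ 2 - (15 / 16) * p * u + (117 / 40) * p ^ 2 -
      (21 / 80) * u ^ 2 := by
  have h34 : (3 / 4 : ℝ) ≤ p := by
    by_contra hc
    push Not at hc
    nlinarith
  rcases le_total p 1 with h | h
  · exact certB_B0m p u l h34 h h1 h2 (by linarith) hl
  · exact certB_B0l p u l h h1 h2 (by linarith) hl

end Pool.Agent.MFK
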