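import Mathlib

/-! # Certificates (C) for the beta side of (AL): region `p ^ 2 ≤ l` -/

set_option autoImplicit false

namespace Pool.Agent.MFK

theorem conv_u (p u : ℝ) (hp : 0 < p) (h1 : -p ≤ u) (h2 : u ≤ p) :
    ∃ r s : ℝ, 0 ≤ r ∧ 0 ≤ s ∧ r + s = 1 ∧ u = p * (r - s) := by
  refine ⟨(p + u) / (2 * p), (p - u) / (2 * p), div_nonneg (by linarith) (by linarith),
    div_nonneg (by linarith) (by linarith), ?_, ?_⟩ <;> field_simp <;> ring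

theorem conv_seg (a b v : ℝ) (h1 : a ≤ v) (h2 : v ≤ b) :
    ∃ x y : ℝ, 0 ≤ x ∧ 0 ≤ y ∧ x + y = 1 ∧ v = a * x + b * y := by
  rcases eq_or_lt_of_le (h1.trans h2) with h | h
  · refine ⟨1, 0, zero_le_one, le_refl 0, by ring, ?_⟩
    have : v = a := le_antisymm (h2.trans h.symm.le) h1
    linarith
  · have hd : 0 < b - a := by linarith
    refine ⟨(b - v) / (b - a), (v - a) / (b - a), div_nonneg (by linarith) hd.le,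
      div_nonneg (by linarith) hd.le, ?_, ?_⟩ <;> field_simp <;> ring

theorem certC_g0 (p u l : ℝ) (hp : 0 < p) (h1 : -p ≤ u) (h2 : u ≤ p) (hl : p ^ 2 ≤ l) :
    0 < -(3 / 2) * l * p * u + (3 / 4) * l * u ^ 2 - (41 / 8) * p * u ^ 2 + (17 / 2) * p ^ 2 * u - 4 * p ^ 3
      + (15 / 16) * u ^ 3 + 3 * l * p - (9 / 4) * l * u + 9 * l ^ 2 - 3 * p ^ 2 + (3 / 4) * u ^ 2 + (9 /
      2) * l + (9 / 2) * p - (9 / 4) * u := by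
  obtain ⟨r, s, hr, hs, hrs, hu⟩ := conv_u p u hp h1 h2
  obtain ⟨w, hw, hlw⟩ : ∃ w, 0 ≤ w ∧ l = p ^ 2 + w := ⟨l - p ^ 2, by linarith, by ring⟩
  have key : -(3 / 2) * l * p * u + (3 / 4) * l * u ^ 2 - (41 / 8) * p * u ^ 2 + (17 / 2) * p ^ 2 * u - 4 * p ^ 3
      + (15 / 16) * u ^ 3 + 3 * l * p - (9 / 4) * l * u + 9 * l ^ 2 - 3 * p ^ 2 + (3 / 4) * u ^ 2 + (9 /
      2) * l + (9 / 2) * p - (9 / 4) * u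
      = (9 / 4) * p + (831 / 250) * p * s ^ 3 + (39 / 400) * p ^ 2 * s ^ 3 + (3 / 80) * p ^ 3 * s ^ 3 + (45
      / 4) * p ^ 2 * s ^ 3 * (p - (7 / 10)) ^ 2 + (12 / 5) * p * s ^ 3 * (p - (7 / 10)) ^ 2 + 9 * p * r *
      s ^ 2 + (219 / 64) * p ^ 2 * r * s ^ 2 + (423 / 16) * p ^ 4 * r * s ^ 2 + (21 / 16) * p ^ 2 * r * s
      ^ 2 * (p - (1 / 2)) ^ 2 + (9 / 2) * p * r ^ 2 * s + (15 / 4) * p ^ 2 * r ^ 2 * s + (89 / 16) * p ^ 3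
      * r ^ 2 * s + (99 / 4) * p ^ 4 * r ^ 2 * s + (9 / 4) * p ^ 2 * r ^ 3 + (17 / 16) * p ^ 3 * r ^ 3 +
      (33 / 4) * p ^ 4 * r ^ 3 + (9 / 2) * s ^ 2 * w + (21 / 4) * p * s ^ 2 * w + (81 / 4) * p ^ 2 * s ^ 2
      * w + 9 * r * s * w + 6 * p * r * s * w + (69 / 2) * p ^ 2 * r * s * w + (9 / 2) * r ^ 2 * w + (3 /
      4) * p * r ^ 2 * w + (69 / 4) * p ^ 2 * r ^ 2 * w + 9 * w ^ 2 := by
    obtain rfl : s = 1 - r := by linarith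
    rw [hu, hlw]; ring
  rw [key]
  positivity

theorem certC_a1 (p u l : ℝ) (hp : 0 < p) (h1 : -p ≤ u) (h2 : u ≤ p) (hl : p ^ 2 ≤ l) :
    0 ≤ (3 / 2) * l * p * u ^ 2 - (9 / 4) * l * p ^ 2 * u + (31 / 8) * p * u ^ 3 - (293 / 16) * p ^ 2 * u ^
      2 + (107 / 4) * p ^ 3 * u - 12 * p ^ 4 + (1 / 4) * l * p * u + (1 / 2) * l * p ^ 2 - (1 / 2) * l * u
      ^ 2 + 24 * l ^ 2 * p - 15 * l ^ 2 * u + (3 / 2) * p * u ^ 2 + (3 / 4) * p ^ 2 * u - (9 / 2) * p ^ 3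
      + (33 / 2) * l * p - 9 * l * u + 6 * l ^ 2 - (9 / 2) * p * u + (27 / 4) * p ^ 2 := by
  obtain ⟨r, s, hr, hs, hrs, hu⟩ := conv_u p u hp h1 h2
  obtain ⟨w, hw, hlw⟩ : ∃ w, 0 ≤ w ∧ l = p ^ 2 + w := ⟨l - p ^ 2, by linarith, by ring⟩
  have key : (3 / 2) * l * p * u ^ 2 - (9 / 4) * l * p ^ 2 * u + (31 / 8) * p * u ^ 3 - (293 / 16) * p ^ 2 * u ^
      2 + (107 / 4) * p ^ 3 * u - 12 * p ^ 4 + (1 / 4) * l * p * u + (1 / 2) * l * p ^ 2 - (1 / 2) * l * u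
      ^ 2 + 24 * l ^ 2 * p - 15 * l ^ 2 * u + (3 / 2) * p * u ^ 2 + (3 / 4) * p ^ 2 * u - (9 / 2) * p ^ 3
      + (33 / 2) * l * p - 9 * l * u + 6 * l ^ 2 - (9 / 2) * p * u + (27 / 4) * p ^ 2
      = (45 / 4) * p ^ 2 * s ^ 3 + (161 / 48) * p ^ 3 * s ^ 3 + (87 / 64) * p ^ 5 * s ^ 3 + (2649 / 64) * p
      ^ 3 * s ^ 3 * (p - (2 / 3)) ^ 2 + (99 / 4) * p ^ 2 * r * s ^ 2 + (1159 / 32) * p ^ 3 * r * s ^ 2 +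
      (2599 / 32) * p ^ 5 * r * s ^ 2 + (209 / 32) * p ^ 3 * r * s ^ 2 * (p - 1) ^ 2 + (63 / 4) * p ^ 2 *
      r ^ 2 * s + (105 / 4) * p ^ 3 * r ^ 2 * s + (283 / 16) * p ^ 4 * r ^ 2 * s + (213 / 4) * p ^ 5 * r ^
      2 * s + (9 / 4) * p ^ 2 * r ^ 3 + (21 / 4) * p ^ 3 * r ^ 3 + (105 / 16) * p ^ 4 * r ^ 3 + (33 / 4) *
      p ^ 5 * r ^ 3 + (51 / 2) * p * s ^ 2 * w + (47 / 4) * p ^ 2 * s ^ 2 * w + (327 / 4) * p ^ 3 * s ^ 2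
      * w + 33 * p * r * s * w + 26 * p ^ 2 * r * s * w + 93 * p ^ 3 * r * s * w + (15 / 2) * p * r ^ 2 *
      w + (49 / 4) * p ^ 2 * r ^ 2 * w + (69 / 4) * p ^ 3 * r ^ 2 * w + 6 * s * w ^ 2 + 39 * p * s * w ^ 2
      + 6 * r * w ^ 2 + 9 * p * r * w ^ 2 := by
    obtain rfl : s = 1 - r := by linarith
    rw [hu, hlw]; ring
  rw [key]
  positivity

theorem certC_a2 (p u l : ℝ) (hp : 0 < p) (h1 : -p ≤ u) (h2 : u ≤ p) (hl : p ^ 2 ≤ l) :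
    0 ≤ -(3 / 4) * l * p ^ 2 * u - (95 / 16) * p ^ 2 * u ^ 2 + (73 / 4) * p ^ 3 * u - 13 * p ^ 4 + (7 / 4) *
      l * p * u - (9 / 2) * l * p ^ 2 + (1 / 2) * l * u ^ 2 + 18 * l ^ 2 * p - 5 * l ^ 2 * u - (3 / 4) * p
      ^ 2 * u - (3 / 2) * p ^ 3 + (27 / 2) * l * p - 3 * l * u + 11 * l ^ 2 + (9 / 4) * p ^ 2 := by
  obtain ⟨r, s, hr, hs, hrs, hu⟩ := conv_u p u hp h1 h2
  obtain ⟨w, hw, hlw⟩ : ∃ w, 0 ≤ w ∧ l = p ^ 2 + w := ⟨l - p ^ 2, by linarith, by ring⟩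
  have key : -(3 / 4) * l * p ^ 2 * u - (95 / 16) * p ^ 2 * u ^ 2 + (73 / 4) * p ^ 3 * u - 13 * p ^ 4 + (7 / 4) *
      l * p * u - (9 / 2) * l * p ^ 2 + (1 / 2) * l * u ^ 2 + 18 * l ^ 2 * p - 5 * l ^ 2 * u - (3 / 4) * p
      ^ 2 * u - (3 / 2) * p ^ 3 + (27 / 2) * l * p - 3 * l * u + 11 * l ^ 2 + (9 / 4) * p ^ 2
      = (9 / 4) * p ^ 2 * s ^ 2 + (483 / 128) * p ^ 3 * s ^ 2 + (59 / 24) * p ^ 5 * s ^ 2 + (511 / 24) * p ^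
      3 * s ^ 2 * (p - (3 / 4)) ^ 2 + (9 / 2) * p ^ 2 * r * s + (367 / 16) * p ^ 3 * r * s + (559 / 16) *
      p ^ 5 * r * s + (17 / 16) * p ^ 3 * r * s * (p - 1) ^ 2 + (9 / 4) * p ^ 2 * r ^ 2 + (33 / 4) * p ^ 3
      * r ^ 2 + (129 / 16) * p ^ 4 * r ^ 2 + (49 / 4) * p ^ 5 * r ^ 2 + (33 / 2) * p * s ^ 2 * w + (65 /
      4) * p ^ 2 * s ^ 2 * w + (187 / 4) * p ^ 3 * s ^ 2 * w + 27 * p * r * s * w + 34 * p ^ 2 * r * s * w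
      + 72 * p ^ 3 * r * s * w + (21 / 2) * p * r ^ 2 * w + (79 / 4) * p ^ 2 * r ^ 2 * w + (101 / 4) * p ^
      3 * r ^ 2 * w + 11 * s * w ^ 2 + 23 * p * s * w ^ 2 + 11 * r * w ^ 2 + 13 * p * r * w ^ 2 := by
    obtain rfl : s = 1 - r := by linarith
    rw [hu, hlw]; ring
  rw [key]
  positivity

theorem certC_a3 (p u l : ℝ) (hp : 0 < p) (h1 : -p ≤ u) (h2 : u ≤ p) (hl : p ^ 2 ≤ l) :
    0 ≤ 4 * p ^ 3 * u - 6 * p ^ 4 - (1 / 2) * l * p * u - 2 * l * p ^ 2 + 4 * l ^ 2 * p + 3 * l * p + 6 * l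
      ^ 2 := by
  obtain ⟨r, s, hr, hs, hrs, hu⟩ := conv_u p u hp h1 h2
  obtain ⟨w, hw, hlw⟩ : ∃ w, 0 ≤ w ∧ l = p ^ 2 + w := ⟨l - p ^ 2, by linarith, by ring⟩
  have key : 4 * p ^ 3 * u - 6 * p ^ 4 - (1 / 2) * l * p * u - 2 * l * p ^ 2 + 4 * l ^ 2 * p + 3 * l * p + 6 * l
      ^ 2
      = (1 / 4) * p ^ 3 * s + (5 / 4) * p ^ 5 * s + (11 / 4) * p ^ 3 * s * (p - 1) ^ 2 + 3 * p ^ 3 * r + (3
      / 2) * p ^ 4 * r + 4 * p ^ 5 * r + 3 * p * s * w + (21 / 2) * p ^ 2 * s * w + 8 * p ^ 3 * s * w + 3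
      * p * r * w + (19 / 2) * p ^ 2 * r * w + 8 * p ^ 3 * r * w + 6 * w ^ 2 + 4 * p * w ^ 2 := by
    obtain rfl : s = 1 - r := by linarith
    rw [hu, hlw]; ring
  rw [key]
  positivity

end Pool.Agent.MFK
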