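import Pool.Agent.Work.MP_8826fd_mp.AL.Stmts

/-!
# MP_8826fd_mp, modes `k ≥ 3`: the inequalities (D)
-/

set_option autoImplicit false

noncomputable section

namespace Pool.Agent.MFK.AL

/-- the inequality `H ≥ 0`, `m ≥ 3` -/
theorem DH3 (p m k : ℝ) (hp : 0 < p) (hp2 : p ^ 2 ≤ 3 * p + 2 * m) (hm : 3 ≤ m)
    (hk : m + 1 ≤ k) :
    0 ≤ 4 * k * (k ^ 2 - 1) * (2 * m + 7 / 4 * p - 3 / 2) - 3 * (p + k) * (p + 2 * m) ^ 2 := by
  have hpm : p ≤ m + 2 := by nlinarith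
  -- the lower bound which is linear in `p`
  have e1 : p ^ 3 ≤ 9 * p + 6 * m + 2 * m * p := by
    have h := mul_le_mul_of_nonneg_left hp2 hp.le
    linarith
  have e2 : (12 * m + 3 * k) * p ^ 2 ≤ (12 * m + 3 * k) * (3 * p + 2 * m) :=
    mul_le_mul_of_nonneg_left hp2 (by linarith)
  set F0 : ℝ := 4 * k * (k ^ 2 - 1) * (2 * m - 3 / 2) - 12 * m ^ 2 * k - 18 * m -
      (12 * m + 3 * k) * (2 * m) with hF0
  set F1 : ℝ := 7 * k * (k ^ 2 - 1) - 12 * m ^ 2 - 12 * m * k - 27 - 42 * m - 9 * k with hF1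
  have e3 : F0 + p * F1 ≤
      4 * k * (k ^ 2 - 1) * (2 * m + 7 / 4 * p - 3 / 2) - 3 * (p + k) * (p + 2 * m) ^ 2 := by
    rw [hF0, hF1]
    linarith
  obtain ⟨a, ha, rfl⟩ : ∃ a : ℝ, 0 ≤ a ∧ m = 3 + a := ⟨m - 3, by linarith, by ring⟩
  obtain ⟨j, hj, rfl⟩ : ∃ j : ℝ, 0 ≤ j ∧ k = 3 + a + 1 + j :=
    ⟨k - (3 + a + 1), by linarith, by ring⟩
  have e4 : 0 ≤ F0 := by
    have h : F0 = 8 * a ^ 4 + 24 * a ^ 3 * j + 102 * a ^ 3 + 24 * a ^ 2 * j ^ 2 +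
        234 * a ^ 2 * j + 442 * a ^ 2 + 8 * a * j ^ 3 + 150 * a * j ^ 2 + 730 * a * j + 726 * a +
        18 * j ^ 3 + 216 * j ^ 2 + 720 * j + 306 := by rw [hF0]; ring
    rw [h]; positivity
  have e5 : 0 ≤ F0 + (3 + a + 2) * F1 := by
    have h : F0 + (3 + a + 2) * F1 = 15 * a ^ 4 + 45 * a ^ 3 * j + 197 * a ^ 3 +
        45 * a ^ 2 * j ^ 2 + 495 * a ^ 2 * j + 864 * a ^ 2 + 15 * a * j ^ 3 + 339 * a * j ^ 2 +
        1794 * a * j + 1315 * a + 53 * j ^ 3 + 636 * j ^ 2 + 2140 * j + 201 := by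
      rw [hF0, hF1]; ring
    rw [h]; positivity
  have e6 : 0 ≤ F0 + p * F1 := by
    have h1 : 0 < 3 + a + 2 := by linarith
    have h2 : 0 ≤ (3 + a + 2) * (F0 + p * F1) := by
      have h3 : (3 + a + 2) * (F0 + p * F1) =
          (3 + a + 2 - p) * F0 + p * (F0 + (3 + a + 2) * F1) := by ring
      rw [h3]
      exact add_nonneg (mul_nonneg (by linarith) e4) (mul_nonneg hp.le e5)
    exact nonneg_of_mul_nonneg_right h2 h1
  exact e6.trans e3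

/-- the inequality `H ≥ 0`, `m = 1` -/
theorem DH1 (p k : ℝ) (hp : 0 < p) (hp2 : p ^ 2 ≤ 3 * p + 2) (hk : 3 ≤ k) :
    0 ≤ 4 * k * (k ^ 2 - 1) * (2 * 1 + 7 / 4 * p - 3 / 2) - 3 * (p + k) * (p + 2 * 1) ^ 2 := by
  have hp3 : p ≤ 18 / 5 := by nlinarith
  obtain ⟨j, hj, rfl⟩ : ∃ j : ℝ, 0 ≤ j ∧ k = 3 + j := ⟨k - 3, by linarith, by ring⟩
  have h : 4 * (3 + j) * ((3 + j) ^ 2 - 1) * (2 * 1 + 7 / 4 * p - 3 / 2) -
      3 * (p + (3 + j)) * (p + 2 * 1) ^ 2 =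
      (12 + 120 * p - 21 * p ^ 2 - 3 * p ^ 3) + j * (40 + 170 * p - 3 * p ^ 2) +
      j ^ 2 * (36 * (1 / 2 + 7 / 4 * p)) + j ^ 3 * (4 * (1 / 2 + 7 / 4 * p)) := by ring
  rw [h]
  have h1 : 0 ≤ 12 + 120 * p - 21 * p ^ 2 - 3 * p ^ 3 := by
    have e1 : p ^ 3 ≤ p * (3 * p + 2) := by
      have := mul_le_mul_of_nonneg_left hp2 hp.le
      linarith
    nlinarith
  have h2 : 0 ≤ 40 + 170 * p - 3 * p ^ 2 := by nlinarith
  have h3 : 0 ≤ j * (40 + 170 * p - 3 * p ^ 2) := mul_nonneg hj h2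
  positivity

/-- the inequality `H ≥ 0`, `m = 2` -/
theorem DH2 (p k : ℝ) (hp : 0 < p) (hp2 : p ^ 2 ≤ 3 * p + 4) (hk : 4 ≤ k) :
    0 ≤ 4 * k * (k ^ 2 - 1) * (2 * 2 + 7 / 4 * p - 3 / 2) - 3 * (p + k) * (p + 2 * 2) ^ 2 := by
  have hp3 : p ≤ 4 := by nlinarith
  obtain ⟨j, hj, rfl⟩ : ∃ j : ℝ, 0 ≤ j ∧ k = 4 + j := ⟨k - 4, by linarith, by ring⟩
  have h : 4 * (4 + j) * ((4 + j) ^ 2 - 1) * (2 * 2 + 7 / 4 * p - 3 / 2) -
      3 * (p + (4 + j)) * (p + 2 * 2) ^ 2 =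
      (408 + 276 * p - 36 * p ^ 2 - 3 * p ^ 3) + j * (422 + 305 * p - 3 * p ^ 2) +
      j ^ 2 * (48 * (5 / 2 + 7 / 4 * p)) + j ^ 3 * (4 * (5 / 2 + 7 / 4 * p)) := by ring
  rw [h]
  have h1 : 0 ≤ 408 + 276 * p - 36 * p ^ 2 - 3 * p ^ 3 := by
    have e1 : p ^ 3 ≤ p * (3 * p + 4) := by
      have := mul_le_mul_of_nonneg_left hp2 hp.le
      linarith
    nlinarith
  have h2 : 0 ≤ 422 + 305 * p - 3 * p ^ 2 := by nlinarith
  have h3 : 0 ≤ j * (422 + 305 * p - 3 * p ^ 2) := mul_nonneg hj h2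
  positivity

/-- AM-GM reduction -/
theorem Dred (p u M k l : ℝ) (hk : 0 < k) (hk1 : 1 ≤ k) (hpk : 0 < p + k)
    (hl : (M + 3 / 4 * p - 3 / 2) / 3 ≤ l)
    (H : 0 ≤ 4 * k * (k ^ 2 - 1) * (M + 3 / 4 * p - 3 / 2) - 3 * (p + k) * M ^ 2) :
    (p + k) * (M * (k * p + u) - l * (k ^ 2 - 1)) ≤ k * (k * p + u) ^ 2 := by
  have hk2 : 0 ≤ k ^ 2 - 1 := by nlinarith
  have e1 : 0 ≤ 4 * k * l * (k ^ 2 - 1) - (p + k) * M ^ 2 := by
    have h1 := mul_le_mul_of_nonneg_left hl (mul_nonneg (mul_nonneg (by norm_num : (0 : ℝ) ≤ 4)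
      hk.le) hk2)
    nlinarith
  have e2 : 4 * k * (k * (k * p + u) ^ 2 - (p + k) * (M * (k * p + u) - l * (k ^ 2 - 1))) =
      (2 * k * (k * p + u) - (p + k) * M) ^ 2 +
        (p + k) * (4 * k * l * (k ^ 2 - 1) - (p + k) * M ^ 2) := by ring
  have e3 : 0 ≤ 4 * k * (k * (k * p + u) ^ 2 - (p + k) * (M * (k * p + u) - l * (k ^ 2 - 1))) := by
    rw [e2]
    exact add_nonneg (sq_nonneg _) (mul_nonneg hpk.le e1)
  have e4 := nonneg_of_mul_nonneg_right e3 (by linarith : (0 : ℝ) < 4 * k)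
  linarith

theorem stD : StD := by
  intro p u m k hp hu1 hu2 hl0 hl1 hm hk hmk hne
  have hkr : (3 : ℝ) ≤ k := by exact_mod_cast hk
  have hp2 : p ^ 2 ≤ 3 * p + 2 * m := by linarith
  refine Dred p u (p + 2 * m) k _ (by linarith) (by linarith) (by linarith) (by linarith) ?_
  have key : 0 ≤ 4 * (k : ℝ) * ((k : ℝ) ^ 2 - 1) * (2 * (m : ℝ) + 7 / 4 * p - 3 / 2) -
      3 * (p + k) * (p + 2 * m) ^ 2 := by
    rcases Nat.lt_or_ge m 3 with h | h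
    · interval_cases m
      · simpa using DH1 p k hp (by simpa using hp2) hkr
      · have hk4 : 4 ≤ k := by omega
        have := DH2 p k hp (by norm_num at hp2; linarith) (by exact_mod_cast hk4)
        simpa using this
    · exact DH3 p m k hp hp2 (by exact_mod_cast h) (by exact_mod_cast hmk)
  have e : 4 * (k : ℝ) * ((k : ℝ) ^ 2 - 1) * (p + 2 * (m : ℝ) + 3 / 4 * p - 3 / 2) -
      3 * (p + k) * (p + 2 * m) ^ 2 = 4 * (k : ℝ) * ((k : ℝ) ^ 2 - 1) *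
      (2 * (m : ℝ) + 7 / 4 * p - 3 / 2) - 3 * (p + k) * (p + 2 * m) ^ 2 := by ring
  rw [e]; exact key

theorem stD23 : StD23 := by
  intro p u hp hu1 hu2 hl0 hl1
  have hp4 : p ≤ 4 := by nlinarith
  have hp2 : (0 : ℝ) < p + 2 := by linarith
  set A : ℝ := p + 3 - (p ^ 2 - u) / (p + 2) with hA
  have hA1 : A * (p + 2) = 5 * p + 6 + u := by
    rw [hA]; field_simp; ring
  have hA0 : 0 < A := by
    have h : 0 < A * (p + 2) := by rw [hA1]; linarith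
    exact (mul_pos_iff_of_pos_right hp2).1 h
  -- linear in `u`
  have hlin : (5 * p + 6 + u) * (p + 4) ^ 2 ≤ 32 * (p + 2) * (2 * p + u / 4 + 5 / 2) := by
    have h1 : 0 ≤ -6 * p ^ 3 + 18 * p ^ 2 + 80 * p + 64 := by
      nlinarith [mul_nonneg hp.le (mul_nonneg hp.le (sub_nonneg.2 hp4)), mul_nonneg hp.le
        (sub_nonneg.2 hp4)]
    have h2 : 0 ≤ -4 * p ^ 3 + 18 * p ^ 2 + 80 * p + 64 := by
      nlinarith [mul_nonneg hp.le (mul_nonneg hp.le (sub_nonneg.2 hp4)), mul_nonneg hp.le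
        (sub_nonneg.2 hp4)]
    have h3 : 2 * p * (32 * (p + 2) * (2 * p + u / 4 + 5 / 2) - (5 * p + 6 + u) * (p + 4) ^ 2) =
        (p + u) * (-6 * p ^ 3 + 18 * p ^ 2 + 80 * p + 64) +
        (p - u) * (-4 * p ^ 3 + 18 * p ^ 2 + 80 * p + 64) := by ring
    have h4 : 0 ≤ 2 * p * (32 * (p + 2) * (2 * p + u / 4 + 5 / 2) -
        (5 * p + 6 + u) * (p + 4) ^ 2) := by
      rw [h3]
      exact add_nonneg (mul_nonneg (by linarith) h1) (mul_nonneg (by linarith) h2)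
    have h5 := nonneg_of_mul_nonneg_right h4 (by linarith : (0 : ℝ) < 2 * p)
    linarith
  have hAM : A * (p + 4) ^ 2 ≤ 32 * (2 * p + u / 4 + 5 / 2) := by
    have h : (A * (p + 4) ^ 2) * (p + 2) ≤ (32 * (2 * p + u / 4 + 5 / 2)) * (p + 2) := by
      calc (A * (p + 4) ^ 2) * (p + 2) = (A * (p + 2)) * (p + 4) ^ 2 := by ring
        _ = (5 * p + 6 + u) * (p + 4) ^ 2 := by rw [hA1]
        _ ≤ 32 * (p + 2) * (2 * p + u / 4 + 5 / 2) := hlin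
        _ = _ := by ring
    exact le_of_mul_le_mul_right h hp2
  have e2 : 12 * (3 * (3 * p + u) ^ 2 - A * ((p + 4) * (3 * p + u) -
      (2 * p + 4 + u / 4 - 3 / 2) / 3 * 8)) =
      (6 * (3 * p + u) - A * (p + 4)) ^ 2 +
        A * (32 * (2 * p + u / 4 + 5 / 2) - A * (p + 4) ^ 2) := by ring
  have e3 : 0 ≤ 12 * (3 * (3 * p + u) ^ 2 - A * ((p + 4) * (3 * p + u) -
      (2 * p + 4 + u / 4 - 3 / 2) / 3 * 8)) := by
    rw [e2]
    exact add_nonneg (sq_nonneg _) (mul_nonneg hA0.le (by linarith))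
  linarith

end Pool.Agent.MFK.AL
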