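import Pool.Agent.Work.MP_8826fd_mp.Bd.B01
import Pool.Agent.Work.MP_8826fd_mp.AL.Stmts

/-!
# Modes `k ≥ 3`: the comparison family

With `c_k = k p + q`, `d_k = k p - q`, `q = p ^ 2 - lam` and a parameter `l`:
`al k ≤ k c_k ^ 2 / (M c_k - l (k ^ 2 - 1))`, `be k < k d_k ^ 2 / (M d_k + l (k ^ 2 - 1))`.
-/

set_option autoImplicit false

namespace Pool.Agent.MFK.AL

variable {p M lam : ℝ} {m : ℕ} {al be : ℕ → ℝ}

theorem be_step_id (M p q l k x : ℝ) :
    ((k + 1) * ((k + 1) * p - q) ^ 2 * (M + k - x)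
      - (M * ((k + 1) * p - q) + l * ((k + 1) ^ 2 - 1))
        * ((1 + M + k) * x - (k - p) * (k - p + 1) + (p ^ 2 - q))) * (M * (k * p - q) + l * (k ^ 2 - 1))
    = k * (k + 1) * FB M p q l k
      + ((k + 1) * ((k + 1) * p - q) ^ 2
          + (M * ((k + 1) * p - q) + l * ((k + 1) ^ 2 - 1)) * (1 + M + k))
        * (k * (k * p - q) ^ 2 - x * (M * (k * p - q) + l * (k ^ 2 - 1))) := by
  unfold FB; ring

theorem al_step_id (M p q l k x : ℝ) :
    ((k + 1) * ((k + 1) * p + q) ^ 2 * (x + M - k)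
      - (M * ((k + 1) * p + q) - l * ((k + 1) ^ 2 - 1))
        * ((M - k - 1) * x + (p + k) * (p + k + 1) - (p ^ 2 - q)))
      * (k * (k * p + q) ^ 2 + (M - k) * (M * (k * p + q) - l * (k ^ 2 - 1)))
    = (x + M - k) * (k * (k + 1) * FA M p q l k)
      + (M * ((k + 1) * p + q) - l * ((k + 1) ^ 2 - 1)) * ((M - k) * (M - k - 1)
          - ((p + k) * (p + k + 1) - (p ^ 2 - q)))
        * (k * (k * p + q) ^ 2 - x * (M * (k * p + q) - l * (k ^ 2 - 1))) := by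
  unfold FA; ring

/-- positivity of the denominators of the `be` comparison -/
theorem E_pos (F : Facts p M lam m al be) {l : ℝ} (hl : 0 < l) {k : ℕ} (hk : 2 ≤ k) :
    0 < M * (k * p - (p ^ 2 - lam)) + l * ((k : ℝ) ^ 2 - 1) := by
  have hk' : (2 : ℝ) ≤ k := by exact_mod_cast hk
  have hp := F.hp
  have hM := AL0.M_pos F
  have hq := abs_le.1 (AL0.q_bd F)
  have h1 : 0 ≤ k * p - (p ^ 2 - lam) := by nlinarith
  have h2 : 0 < (k : ℝ) ^ 2 - 1 := by nlinarith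
  positivity

theorem be_step (F : Facts p M lam m al be) {l : ℝ} (hl : 0 < l) {k : ℕ} (hk : 2 ≤ k)
    (hB : 0 ≤ FB M p (p ^ 2 - lam) l k)
    (h : be k * (M * (k * p - (p ^ 2 - lam)) + l * ((k : ℝ) ^ 2 - 1))
      < k * (k * p - (p ^ 2 - lam)) ^ 2) :
    be (k + 1) * (M * (((k + 1 : ℕ) : ℝ) * p - (p ^ 2 - lam)) + l * (((k + 1 : ℕ) : ℝ) ^ 2 - 1))
      < ((k + 1 : ℕ) : ℝ) * (((k + 1 : ℕ) : ℝ) * p - (p ^ 2 - lam)) ^ 2 := by
  have hk' : (2 : ℝ) ≤ k := by exact_mod_cast hk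
  have hE := E_pos F hl hk
  have hE' := E_pos F hl (show 2 ≤ k + 1 by omega)
  have hd := F.be_den k
  have hr := F.be_rec k
  have hM := AL0.M_pos F
  push_cast at hE' ⊢
  have id := be_step_id M p (p ^ 2 - lam) l k (be k)
  have h1 : 0 < ((k : ℝ) + 1) * ((k + 1) * p - (p ^ 2 - lam)) ^ 2
      + (M * ((k + 1) * p - (p ^ 2 - lam)) + l * (((k : ℝ) + 1) ^ 2 - 1)) * (1 + M + k) := by
    positivity
  have h2 : 0 < (((k : ℝ) + 1) * ((k + 1) * p - (p ^ 2 - lam)) ^ 2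
      + (M * ((k + 1) * p - (p ^ 2 - lam)) + l * (((k : ℝ) + 1) ^ 2 - 1)) * (1 + M + k))
      * (k * (k * p - (p ^ 2 - lam)) ^ 2
        - be k * (M * (k * p - (p ^ 2 - lam)) + l * ((k : ℝ) ^ 2 - 1))) :=
    mul_pos h1 (by linarith)
  have h3 : 0 ≤ (k : ℝ) * (k + 1) * FB M p (p ^ 2 - lam) l k := by positivity
  rw [show (1 + M + (k : ℝ)) * be k - (k - p) * (k - p + 1) + (p ^ 2 - (p ^ 2 - lam))
      = be (k + 1) * (M + k - be k) by rw [hr]; ring] at id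
  have h4 : 0 < ((k : ℝ) + 1) * ((k + 1) * p - (p ^ 2 - lam)) ^ 2 * (M + k - be k)
      - (M * ((k + 1) * p - (p ^ 2 - lam)) + l * (((k : ℝ) + 1) ^ 2 - 1))
        * (be (k + 1) * (M + k - be k)) := by
    refine (mul_pos_iff_of_pos_right hE).1 ?_
    rw [id]; linarith
  have h5 : 0 < (((k : ℝ) + 1) * ((k + 1) * p - (p ^ 2 - lam)) ^ 2
      - be (k + 1) * (M * ((k + 1) * p - (p ^ 2 - lam)) + l * (((k : ℝ) + 1) ^ 2 - 1)))
      * (M + k - be k) := by linarith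
  have h6 := (mul_pos_iff_of_pos_right hd).1 h5
  linarith

theorem be_step_neg (F : Facts p M lam m al be) {l : ℝ} (hl : 0 < l) {k : ℕ} (hk : 2 ≤ k)
    (hB : FB M p (p ^ 2 - lam) l k ≤ 0)
    (h : k * (k * p - (p ^ 2 - lam)) ^ 2
      ≤ be k * (M * (k * p - (p ^ 2 - lam)) + l * ((k : ℝ) ^ 2 - 1))) :
    ((k + 1 : ℕ) : ℝ) * (((k + 1 : ℕ) : ℝ) * p - (p ^ 2 - lam)) ^ 2 ≤
    be (k + 1) * (M * (((k + 1 : ℕ) : ℝ) * p - (p ^ 2 - lam))
      + l * (((k + 1 : ℕ) : ℝ) ^ 2 - 1)) := by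
  have hk' : (2 : ℝ) ≤ k := by exact_mod_cast hk
  have hE := E_pos F hl hk
  have hE' := E_pos F hl (show 2 ≤ k + 1 by omega)
  have hd := F.be_den k
  have hr := F.be_rec k
  have hM := AL0.M_pos F
  push_cast at hE' ⊢
  have id := be_step_id M p (p ^ 2 - lam) l k (be k)
  have h1 : 0 < ((k : ℝ) + 1) * ((k + 1) * p - (p ^ 2 - lam)) ^ 2
      + (M * ((k + 1) * p - (p ^ 2 - lam)) + l * (((k : ℝ) + 1) ^ 2 - 1)) * (1 + M + k) := by
    positivity
  have h2 : 0 ≤ (((k : ℝ) + 1) * ((k + 1) * p - (p ^ 2 - lam)) ^ 2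
      + (M * ((k + 1) * p - (p ^ 2 - lam)) + l * (((k : ℝ) + 1) ^ 2 - 1)) * (1 + M + k))
      * (be k * (M * (k * p - (p ^ 2 - lam)) + l * ((k : ℝ) ^ 2 - 1))
        - k * (k * p - (p ^ 2 - lam)) ^ 2) :=
    mul_nonneg h1.le (by linarith)
  have h3 : (k : ℝ) * (k + 1) * FB M p (p ^ 2 - lam) l k ≤ 0 :=
    mul_nonpos_of_nonneg_of_nonpos (by positivity) hB
  rw [show (1 + M + (k : ℝ)) * be k - (k - p) * (k - p + 1) + (p ^ 2 - (p ^ 2 - lam))
      = be (k + 1) * (M + k - be k) by rw [hr]; ring] at id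
  have h4 : 0 ≤ (M * ((k + 1) * p - (p ^ 2 - lam)) + l * (((k : ℝ) + 1) ^ 2 - 1))
        * (be (k + 1) * (M + k - be k))
      - ((k : ℝ) + 1) * ((k + 1) * p - (p ^ 2 - lam)) ^ 2 * (M + k - be k) := by
    refine nonneg_of_mul_nonneg_left ?_ hE
    linarith
  have h5 : 0 ≤ (be (k + 1) * (M * ((k + 1) * p - (p ^ 2 - lam)) + l * (((k : ℝ) + 1) ^ 2 - 1))
      - ((k : ℝ) + 1) * ((k + 1) * p - (p ^ 2 - lam)) ^ 2) * (M + k - be k) := by linarith
  have h6 := nonneg_of_mul_nonneg_left h5 hd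
  linarith

/-- the `be` comparison: forward while `FB ≥ 0`, from infinity afterwards -/
theorem be_key (F : Facts p M lam m al be) {l : ℝ} (hl : 0 < l) (hlp : l < p ^ 2)
    (hB : ∀ k : ℕ, 2 ≤ k → FB M p (p ^ 2 - lam) l k ≤ 0 →
      FB M p (p ^ 2 - lam) l ((k + 1 : ℕ) : ℝ) ≤ 0)
    (k : ℕ) (hk : 2 ≤ k) (hF : FB M p (p ^ 2 - lam) l k ≤ 0) :
    be k * (M * (k * p - (p ^ 2 - lam)) + l * ((k : ℝ) ^ 2 - 1))
      < k * (k * p - (p ^ 2 - lam)) ^ 2 := by
  by_contra hcon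
  push Not at hcon
  have hall : ∀ j : ℕ, FB M p (p ^ 2 - lam) l ((k + j : ℕ) : ℝ) ≤ 0 ∧
      ((k + j : ℕ) : ℝ) * (((k + j : ℕ) : ℝ) * p - (p ^ 2 - lam)) ^ 2 ≤
        be (k + j) * (M * (((k + j : ℕ) : ℝ) * p - (p ^ 2 - lam))
          + l * (((k + j : ℕ) : ℝ) ^ 2 - 1)) := by
    intro j
    induction j with
    | zero => exact ⟨by simpa using hF, by simpa using hcon⟩
    | succ j ih =>
      have hkj : 2 ≤ k + j := by omega
      exact ⟨hB (k + j) hkj ih.1, be_step_neg F hl hkj ih.1 ih.2⟩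
  set q := p ^ 2 - lam with hq
  obtain ⟨j, hj⟩ := exists_nat_gt ((|2 * p * q + M * p| + |q ^ 2 + M * q + l| + 1) / (p ^ 2 - l))
  have hd : 0 < p ^ 2 - l := by linarith
  rw [div_lt_iff₀ hd] at hj
  have hj2 := (hall j).2
  have hble := AL0.be_le F (k + j)
  have hE := E_pos F hl (show 2 ≤ k + j by omega)
  rw [← hq] at hE
  have hx1 : (1 : ℝ) ≤ ((k + j : ℕ) : ℝ) := by exact_mod_cast (by omega : 1 ≤ k + j)
  have hxj : (j : ℝ) ≤ ((k + j : ℕ) : ℝ) := by exact_mod_cast (by omega : j ≤ k + j)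
  set x : ℝ := ((k + j : ℕ) : ℝ) with hx
  have h3 : x * (x * p - q) ^ 2 ≤ x * (M * (x * p - q) + l * (x ^ 2 - 1)) :=
    hj2.trans (mul_le_mul_of_nonneg_right hble hE.le)
  have h4 : (x * p - q) ^ 2 ≤ M * (x * p - q) + l * (x ^ 2 - 1) :=
    le_of_mul_le_mul_left h3 (by linarith)
  have h5 : |2 * p * q + M * p| + |q ^ 2 + M * q + l| + 1 < x * (p ^ 2 - l) :=
    hj.trans_le (mul_le_mul_of_nonneg_right hxj hd.le)
  have h6 := le_abs_self (2 * p * q + M * p)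
  have h7 := neg_abs_le (q ^ 2 + M * q + l)
  have h8 := abs_nonneg (q ^ 2 + M * q + l)
  nlinarith [mul_le_mul_of_nonneg_left h5.le (by linarith : (0 : ℝ) ≤ x),
    mul_le_mul_of_nonneg_left h6 (by linarith : (0 : ℝ) ≤ x),
    mul_nonneg (sub_nonneg.2 hx1) h8]

/-- one sign change, decreasing direction -/
theorem desc_neg {a0 a1 a2 a3 a4 w0 w1 w2 y z : ℝ} (hw0 : 0 < w0) (hw1 : 0 < w1) (hw2 : 0 < w2)
    (h0 : w0 * a1 ≤ a0) (h1 : w1 * a2 ≤ a1) (h2 : w2 * a3 ≤ a2) (h4 : a4 ≤ 0)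
    (hy : 0 ≤ y) (hyz : y ≤ z)
    (hF : a0 + a1 * y + a2 * y ^ 2 + a3 * y ^ 3 + a4 * y ^ 4 ≤ 0) :
    a0 + a1 * z + a2 * z ^ 2 + a3 * z ^ 3 + a4 * z ^ 4 ≤ 0 := by
  have hz : 0 ≤ z := hy.trans hyz
  have p2 : y ^ 2 ≤ z ^ 2 := pow_le_pow_left₀ hy hyz 2
  have p3 : y ^ 3 ≤ z ^ 3 := pow_le_pow_left₀ hy hyz 3
  have p4 : y ^ 4 ≤ z ^ 4 := pow_le_pow_left₀ hy hyz 4
  have d4 : a4 * z ^ 4 ≤ a4 * y ^ 4 := mul_le_mul_of_nonpos_left p4 h4
  rcases le_or_gt a1 0 with c1 | c1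
  · have c2 : a2 ≤ 0 := by
      by_contra hc; push Not at hc; have := mul_pos hw1 hc; linarith
    have c3 : a3 ≤ 0 := by
      by_contra hc; push Not at hc; have := mul_pos hw2 hc; linarith
    have d1 := mul_le_mul_of_nonpos_left hyz c1
    have d2 := mul_le_mul_of_nonpos_left p2 c2
    have d3 := mul_le_mul_of_nonpos_left p3 c3
    linarith
  have c0 : 0 < a0 := lt_of_lt_of_le (mul_pos hw0 c1) h0
  have hy' : 0 < y := by
    rcases hy.lt_or_eq with h | h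
    · exact h
    · exfalso; rw [← h] at hF; simp at hF; linarith
  have hz' : 0 < z := lt_of_lt_of_le hy' hyz
  rcases le_or_gt a2 0 with c2 | c2
  · have c3 : a3 ≤ 0 := by
      by_contra hc; push Not at hc; have := mul_pos hw2 hc; linarith
    -- multiply by y
    have e1 : y * (a0 + a1 * z + a2 * z ^ 2 + a3 * z ^ 3 + a4 * z ^ 4)
        ≤ z * (a0 + a1 * y + a2 * y ^ 2 + a3 * y ^ 3 + a4 * y ^ 4) := by
      have t0 : 0 ≤ a0 * (z - y) := mul_nonneg c0.le (by linarith)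
      have t2 : 0 ≤ (-a2) * (z * y * (z - y)) :=
        mul_nonneg (by linarith) (mul_nonneg (mul_nonneg hz hy) (by linarith))
      have t3 : 0 ≤ (-a3) * (z * y * (z ^ 2 - y ^ 2)) :=
        mul_nonneg (by linarith) (mul_nonneg (mul_nonneg hz hy) (by linarith))
      have t4 : 0 ≤ (-a4) * (z * y * (z ^ 3 - y ^ 3)) :=
        mul_nonneg (by linarith) (mul_nonneg (mul_nonneg hz hy) (by linarith))
      linarith
    have e2 := mul_nonpos_of_nonneg_of_nonpos hz hF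
    by_contra hc; push Not at hc
    have := mul_pos hy' hc
    linarith
  rcases le_or_gt a3 0 with c3 | c3
  · have e1 : y ^ 2 * (a0 + a1 * z + a2 * z ^ 2 + a3 * z ^ 3 + a4 * z ^ 4)
        ≤ z ^ 2 * (a0 + a1 * y + a2 * y ^ 2 + a3 * y ^ 3 + a4 * y ^ 4) := by
      have t0 : 0 ≤ a0 * (z ^ 2 - y ^ 2) := mul_nonneg c0.le (by linarith)
      have t1 : 0 ≤ a1 * (z * y * (z - y)) :=
        mul_nonneg c1.le (mul_nonneg (mul_nonneg hz hy) (by linarith))
      have t3 : 0 ≤ (-a3) * (z ^ 2 * y ^ 2 * (z - y)) :=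
        mul_nonneg (by linarith) (mul_nonneg (by positivity) (by linarith))
      have t4 : 0 ≤ (-a4) * (z ^ 2 * y ^ 2 * (z ^ 2 - y ^ 2)) :=
        mul_nonneg (by linarith) (mul_nonneg (by positivity) (by linarith))
      linarith
    have e2 := mul_nonpos_of_nonneg_of_nonpos (sq_nonneg z) hF
    by_contra hc; push Not at hc
    have := mul_pos (pow_pos hy' 2) hc
    linarith
  · have e1 : y ^ 3 * (a0 + a1 * z + a2 * z ^ 2 + a3 * z ^ 3 + a4 * z ^ 4)
        ≤ z ^ 3 * (a0 + a1 * y + a2 * y ^ 2 + a3 * y ^ 3 + a4 * y ^ 4) := by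
      have t0 : 0 ≤ a0 * (z ^ 3 - y ^ 3) := mul_nonneg c0.le (by linarith)
      have t1 : 0 ≤ a1 * (z * y * (z ^ 2 - y ^ 2)) :=
        mul_nonneg c1.le (mul_nonneg (mul_nonneg hz hy) (by linarith))
      have t2 : 0 ≤ a2 * (z ^ 2 * y ^ 2 * (z - y)) :=
        mul_nonneg c2.le (mul_nonneg (by positivity) (by linarith))
      have t4 : 0 ≤ (-a4) * (z ^ 3 * y ^ 3 * (z - y)) :=
        mul_nonneg (by linarith) (mul_nonneg (by positivity) (by linarith))
      linarith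
    have e2 := mul_nonpos_of_nonneg_of_nonpos (pow_nonneg hz 3) hF
    by_contra hc; push Not at hc
    have := mul_pos (pow_pos hy' 3) hc
    linarith

/-- the parameter -/
theorem params (F : Facts p M lam m al be) (hm : 1 ≤ m) {l : ℝ}
    (hl : 3 * l = M + p + (p ^ 2 - lam) / 4 - 3 / 2) :
    M = 3 * l - p - (p ^ 2 - lam) / 4 + 3 / 2 ∧ 0 < l ∧
      p ^ 2 - 3 / 4 * (p ^ 2 - lam) - 3 / 2 ≤ 3 * l ∧ 2 * p + (p ^ 2 - lam) / 4 + 1 / 2 ≤ 3 * l := by
  have hm' : (1 : ℝ) ≤ m := by exact_mod_cast hm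
  have hM := F.hM
  have hp := F.hp
  have hq := abs_le.1 (AL0.q_bd F)
  have hlt := F.lam_lt
  refine ⟨by linarith, by linarith, by linarith, by linarith⟩

theorem be_cmp (hC : StC) (hB : StB) (F : Facts p M lam m al be) (hm : 1 ≤ m) {l : ℝ}
    (hl : 3 * l = M + p + (p ^ 2 - lam) / 4 - 3 / 2) (k : ℕ) (hk : 2 ≤ k) :
    be k * (M * (k * p - (p ^ 2 - lam)) + l * ((k : ℝ) ^ 2 - 1))
      < k * (k * p - (p ^ 2 - lam)) ^ 2 := by
  obtain ⟨hMl, hl0, h1, h2⟩ := params F hm hl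
  have hp := F.hp
  have hM := AL0.M_pos F
  have hq := abs_le.1 (AL0.q_bd F)
  set u := p ^ 2 - lam with hu
  -- first step
  have first : 0 < g0 p u l → be 2 * (M * (2 * p - u) + 3 * l) < 2 * (2 * p - u) ^ 2 := by
    intro hg
    have hb := AL0.be_two F
    rw [← hu] at hb
    have hd := F.be_den 1
    have hb1 := AL0.be_one F
    rw [← hu] at hb1
    push_cast at hd
    have hden : 0 < M ^ 2 + M - p + u := by
      have := mul_pos hM hd
      nlinarith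
    have id : 2 * (2 * p - u) ^ 2 * (M ^ 2 + M - p + u)
        - (M * (2 * p - u) + 3 * l) * (2 * (M * (2 * p - u - 1) + (p - u))) = 2 * g0 p u l := by
      rw [hMl]; unfold g0; ring
    have h3 : 0 < (2 * (2 * p - u) ^ 2 - be 2 * (M * (2 * p - u) + 3 * l)) * (M ^ 2 + M - p + u) := by
      have e : (2 * (2 * p - u) ^ 2 - be 2 * (M * (2 * p - u) + 3 * l)) * (M ^ 2 + M - p + u)
          = 2 * g0 p u l := by rw [← id, ← hb]; ring
      rw [e]; linarith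
    have := (mul_pos_iff_of_pos_right hden).1 h3
    linarith
  have e2 : ((2 : ℕ) : ℝ) ^ 2 - 1 = 3 := by norm_num
  rcases le_or_gt (p ^ 2) l with hc | hc
  · obtain ⟨c0, c1, c2, c3⟩ := hC p u l hp hq.1 hq.2 hc
    have hpos : ∀ k : ℕ, 2 ≤ k → 0 ≤ FB M p u l k := by
      intro k hk
      have hk' : (2 : ℝ) ≤ k := by exact_mod_cast hk
      have e := FB_shift1 p u l ((k : ℝ) - 1)
      rw [← hMl, show (1 : ℝ) + (k - 1) = k by ring] at e
      rw [e]
      have hy : (0 : ℝ) ≤ k - 1 := by linarith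
      have t0 : 0 ≤ (p - u) * g0 p u l := mul_nonneg (by linarith) c0.le
      have t4 : 0 ≤ l ^ 2 - p ^ 4 := by nlinarith [sq_nonneg p]
      have := mul_nonneg c1 hy
      have := mul_nonneg c2 (pow_nonneg hy 2)
      have := mul_nonneg c3 (pow_nonneg hy 3)
      have := mul_nonneg t4 (pow_nonneg hy 4)
      linarith
    induction k, hk using Nat.le_induction with
    | base =>
      rw [e2]; push_cast; linarith [first c0]
    | succ k hk ih => exact be_step F hl0 hk (hpos k hk) ih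
  · obtain ⟨c0, c1, c2, c3⟩ := hB p u l hp hq.1 hq.2 hc.le h1 h2
    have hdec : ∀ k : ℕ, 2 ≤ k → FB M p u l k ≤ 0 → FB M p u l ((k + 1 : ℕ) : ℝ) ≤ 0 := by
      intro k hk hF
      have hk' : (2 : ℝ) ≤ k := by exact_mod_cast hk
      have e := FB_shift2 p u l ((k : ℝ) - 2)
      rw [← hMl, show (2 : ℝ) + (k - 2) = k by ring] at e
      have e' := FB_shift2 p u l ((k : ℝ) + 1 - 2)
      rw [← hMl, show (2 : ℝ) + (k + 1 - 2) = k + 1 by ring] at e'
      push_cast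
      rw [e] at hF
      rw [e']
      have w0 : 0 < (33 / 50 * p - 1 / 5 * u) / p := by apply div_pos _ hp; linarith
      have w1 : 0 < (2 * p - 3 / 5 * u) / p := by apply div_pos _ hp; linarith
      have w2 : 0 < (11 / 2 * p - 3 / 2 * u) / p := by apply div_pos _ hp; linarith
      refine desc_neg w0 w1 w2 ?_ ?_ ?_ ?_ (by linarith) (by linarith) hF
      · rw [div_mul_eq_mul_div, div_le_iff₀ hp]; linarith
      · rw [div_mul_eq_mul_div, div_le_iff₀ hp]; linarith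
      · rw [div_mul_eq_mul_div, div_le_iff₀ hp]; linarith
      · nlinarith [sq_nonneg p]
    induction k, hk using Nat.le_induction with
    | base =>
      rcases le_or_gt (FB M p u l ((2 : ℕ) : ℝ)) 0 with h | h
      · exact be_key F hl0 hc hdec 2 le_rfl h
      · have e := FB_shift2 p u l 0
        rw [← hMl] at e
        norm_num at e h
        have hg : 0 < g0 p u l := by
          have h3 : 0 < p * g0 p u l := by linarith
          exact (mul_pos_iff_of_pos_left hp).1 h3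
        rw [e2]; push_cast; linarith [first hg]
    | succ k hk ih =>
      rcases le_or_gt (FB M p u l k) 0 with h | h
      · exact be_key F hl0 hc hdec (k + 1) (by omega) (hdec k hk h)
      · exact be_step F hl0 hk h.le ih

theorem al_step (F : Facts p M lam m al be) {l : ℝ} (hl : 0 < l) {k : ℕ} (hk : 2 ≤ k) (hkm : k + 1 ≤ m)
    (hA : 0 < M * (((k : ℝ) + 1) * p + (p ^ 2 - lam)) - l * (((k : ℝ) + 1) ^ 2 - 1) →
      0 ≤ FA M p (p ^ 2 - lam) l k)
    (h : al k * (M * (k * p + (p ^ 2 - lam)) - l * ((k : ℝ) ^ 2 - 1))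
      ≤ k * (k * p + (p ^ 2 - lam)) ^ 2) :
    al (k + 1) * (M * (((k + 1 : ℕ) : ℝ) * p + (p ^ 2 - lam)) - l * (((k + 1 : ℕ) : ℝ) ^ 2 - 1))
      ≤ ((k + 1 : ℕ) : ℝ) * (((k + 1 : ℕ) : ℝ) * p + (p ^ 2 - lam)) ^ 2 := by
  push_cast
  have hk' : (2 : ℝ) ≤ k := by exact_mod_cast hk
  have hkm' : (k : ℝ) + 1 ≤ m := by exact_mod_cast hkm
  rcases le_or_gt (M * (((k : ℝ) + 1) * p + (p ^ 2 - lam)) - l * (((k : ℝ) + 1) ^ 2 - 1)) 0
    with hD | hD
  · have h1 := mul_nonpos_of_nonneg_of_nonpos (F.al_nonneg (k + 1)) hD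
    have h2 : 0 ≤ ((k : ℝ) + 1) * (((k : ℝ) + 1) * p + (p ^ 2 - lam)) ^ 2 := by positivity
    linarith
  have hA' := hA hD
  have hM := AL0.M_pos F
  have hMm := F.hM
  have hp := F.hp
  have hlam := F.lam_pos
  have hq := abs_le.1 (AL0.q_bd F)
  have hd := F.al_den k
  have hr := F.al_rec k
  set q := p ^ 2 - lam with hqd
  -- positivity of D_k
  have hDk : 0 < M * (k * p + q) - l * ((k : ℝ) ^ 2 - 1) := by
    have e : (k : ℝ) * (M * (k * p + q) - l * ((k : ℝ) ^ 2 - 1))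
        = M * (p + q) + ((k : ℝ) - 1) * (M * (((k : ℝ) + 1) * p + q) - l * (((k : ℝ) + 1) ^ 2 - 1))
          + l * k * (k - 1) := by ring
    have h1 : 0 ≤ M * (p + q) := mul_nonneg hM.le (by linarith)
    have h2 : 0 < ((k : ℝ) - 1) * (M * (((k : ℝ) + 1) * p + q) - l * (((k : ℝ) + 1) ^ 2 - 1)) :=
      mul_pos (by linarith) hD
    have h3 : 0 ≤ l * k * (k - 1) := mul_nonneg (by positivity) (by linarith)
    have h4 : 0 < (k : ℝ) * (M * (k * p + q) - l * ((k : ℝ) ^ 2 - 1)) := by rw [e]; linarith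
    exact (mul_pos_iff_of_pos_left (by linarith : (0 : ℝ) < k)).1 h4
  have hMk : 0 < M - k := by rw [hMm]; linarith
  have hP : 0 < k * (k * p + q) ^ 2 + (M - k) * (M * (k * p + q) - l * ((k : ℝ) ^ 2 - 1)) := by
    have h1 := mul_pos hMk hDk
    have h2 : 0 ≤ (k : ℝ) * (k * p + q) ^ 2 := by positivity
    linarith
  have hdet : 0 ≤ (M - k) * (M - k - 1) - ((p + k) * (p + k + 1) - (p ^ 2 - q)) := by
    have e : (M - k) * (M - k - 1) - ((p + k) * (p + k + 1) - (p ^ 2 - q))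
        = (2 * (m - k) - 1) * (2 * p + 2 * m) + lam := by rw [hMm, hqd]; ring
    rw [e]
    have h1 : 0 ≤ (2 * ((m : ℝ) - k) - 1) * (2 * p + 2 * m) := mul_nonneg (by linarith) (by linarith)
    linarith
  have id := al_step_id M p q l k (al k)
  have h1 : 0 ≤ (al k + M - k) * (k * (k + 1) * FA M p q l k) := by positivity
  have h2 : 0 ≤ (M * (((k : ℝ) + 1) * p + q) - l * (((k : ℝ) + 1) ^ 2 - 1)) * ((M - k) * (M - k - 1)
          - ((p + k) * (p + k + 1) - (p ^ 2 - q)))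
        * (k * (k * p + q) ^ 2 - al k * (M * (k * p + q) - l * ((k : ℝ) ^ 2 - 1))) :=
    mul_nonneg (mul_nonneg hD.le hdet) (by linarith)
  rw [show (M - (k : ℝ) - 1) * al k + (p + k) * (p + k + 1) - (p ^ 2 - q)
      = al (k + 1) * (al k + M - k) by rw [hr]; ring] at id
  have h3 : 0 ≤ ((k : ℝ) + 1) * (((k : ℝ) + 1) * p + q) ^ 2 * (al k + M - k)
      - (M * (((k : ℝ) + 1) * p + q) - l * (((k : ℝ) + 1) ^ 2 - 1))
        * (al (k + 1) * (al k + M - k)) := by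
    refine nonneg_of_mul_nonneg_left ?_ hP
    rw [id]; linarith
  have h4 : 0 ≤ (((k : ℝ) + 1) * (((k : ℝ) + 1) * p + q) ^ 2
      - al (k + 1) * (M * (((k : ℝ) + 1) * p + q) - l * (((k : ℝ) + 1) ^ 2 - 1)))
        * (al k + M - k) := by linarith
  have h5 := nonneg_of_mul_nonneg_left h4 hd
  linarith

/-- one sign change, increasing direction -/
theorem desc_pos {a0 a1 a2 a3 a4 w1 w2 y z : ℝ} (hw1 : 0 < w1) (hw2 : 0 < w2)
    (h0 : 0 ≤ a0) (h1 : w1 * a2 ≤ a1) (h2 : w2 * a3 ≤ a2) (h4 : a4 ≤ 0)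
    (hy : 0 < y) (hyz : y ≤ z)
    (hF : 0 ≤ a0 + a1 * z + a2 * z ^ 2 + a3 * z ^ 3 + a4 * z ^ 4) :
    0 ≤ a0 + a1 * y + a2 * y ^ 2 + a3 * y ^ 3 + a4 * y ^ 4 := by
  have hz' : 0 < z := hy.trans_le hyz
  have hz : 0 ≤ z := hz'.le
  have hy0 : 0 ≤ y := hy.le
  have p2 : y ^ 2 ≤ z ^ 2 := pow_le_pow_left₀ hy0 hyz 2
  have p3 : y ^ 3 ≤ z ^ 3 := pow_le_pow_left₀ hy0 hyz 3
  have p4 : y ^ 4 ≤ z ^ 4 := pow_le_pow_left₀ hy0 hyz 4
  have d4 : a4 * z ^ 4 ≤ a4 * y ^ 4 := mul_le_mul_of_nonpos_left p4 h4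
  rcases le_or_gt a1 0 with c1 | c1
  · have c2 : a2 ≤ 0 := by
      by_contra hc; push Not at hc; have := mul_pos hw1 hc; linarith
    have c3 : a3 ≤ 0 := by
      by_contra hc; push Not at hc; have := mul_pos hw2 hc; linarith
    have d1 := mul_le_mul_of_nonpos_left hyz c1
    have d2 := mul_le_mul_of_nonpos_left p2 c2
    have d3 := mul_le_mul_of_nonpos_left p3 c3
    linarith
  rcases le_or_gt a2 0 with c2 | c2
  · have c3 : a3 ≤ 0 := by
      by_contra hc; push Not at hc; have := mul_pos hw2 hc; linarith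
    have e1 : y * (a0 + a1 * z + a2 * z ^ 2 + a3 * z ^ 3 + a4 * z ^ 4)
        ≤ z * (a0 + a1 * y + a2 * y ^ 2 + a3 * y ^ 3 + a4 * y ^ 4) := by
      have t0 : 0 ≤ a0 * (z - y) := mul_nonneg h0 (by linarith)
      have t2 : 0 ≤ (-a2) * (z * y * (z - y)) :=
        mul_nonneg (by linarith) (mul_nonneg (mul_nonneg hz hy0) (by linarith))
      have t3 : 0 ≤ (-a3) * (z * y * (z ^ 2 - y ^ 2)) :=
        mul_nonneg (by linarith) (mul_nonneg (mul_nonneg hz hy0) (by linarith))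
      have t4 : 0 ≤ (-a4) * (z * y * (z ^ 3 - y ^ 3)) :=
        mul_nonneg (by linarith) (mul_nonneg (mul_nonneg hz hy0) (by linarith))
      linarith
    have e2 := mul_nonneg hy0 hF
    exact nonneg_of_mul_nonneg_right (e2.trans e1) hz'
  rcases le_or_gt a3 0 with c3 | c3
  · have e1 : y ^ 2 * (a0 + a1 * z + a2 * z ^ 2 + a3 * z ^ 3 + a4 * z ^ 4)
        ≤ z ^ 2 * (a0 + a1 * y + a2 * y ^ 2 + a3 * y ^ 3 + a4 * y ^ 4) := by
      have t0 : 0 ≤ a0 * (z ^ 2 - y ^ 2) := mul_nonneg h0 (by linarith)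
      have t1 : 0 ≤ a1 * (z * y * (z - y)) :=
        mul_nonneg c1.le (mul_nonneg (mul_nonneg hz hy0) (by linarith))
      have t3 : 0 ≤ (-a3) * (z ^ 2 * y ^ 2 * (z - y)) :=
        mul_nonneg (by linarith) (mul_nonneg (by positivity) (by linarith))
      have t4 : 0 ≤ (-a4) * (z ^ 2 * y ^ 2 * (z ^ 2 - y ^ 2)) :=
        mul_nonneg (by linarith) (mul_nonneg (by positivity) (by linarith))
      linarith
    have e2 := mul_nonneg (sq_nonneg y) hF
    exact nonneg_of_mul_nonneg_right (e2.trans e1) (pow_pos hz' 2)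
  · have e1 : y ^ 3 * (a0 + a1 * z + a2 * z ^ 2 + a3 * z ^ 3 + a4 * z ^ 4)
        ≤ z ^ 3 * (a0 + a1 * y + a2 * y ^ 2 + a3 * y ^ 3 + a4 * y ^ 4) := by
      have t0 : 0 ≤ a0 * (z ^ 3 - y ^ 3) := mul_nonneg h0 (by linarith)
      have t1 : 0 ≤ a1 * (z * y * (z ^ 2 - y ^ 2)) :=
        mul_nonneg c1.le (mul_nonneg (mul_nonneg hz hy0) (by linarith))
      have t2 : 0 ≤ a2 * (z ^ 2 * y ^ 2 * (z - y)) :=
        mul_nonneg c2.le (mul_nonneg (by positivity) (by linarith))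
      have t4 : 0 ≤ (-a4) * (z ^ 3 * y ^ 3 * (z - y)) :=
        mul_nonneg (by linarith) (mul_nonneg (by positivity) (by linarith))
      linarith
    have e2 := mul_nonneg (pow_nonneg hy0 3) hF
    exact nonneg_of_mul_nonneg_right (e2.trans e1) (pow_pos hz' 3)

theorem FA_id (M p q l k : ℝ) :
    k * (k + 1) * FA M p q l k
      = (k + 1) * ((k + 1) * p + q) ^ 2 * (k * (k * p + q) ^ 2
          + (M - k) * (M * (k * p + q) - l * (k ^ 2 - 1)))
        - (M * ((k + 1) * p + q) - l * ((k + 1) ^ 2 - 1))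
          * ((M - k - 1) * (k * (k * p + q) ^ 2)
            + ((p + k) * (p + k + 1) - (p ^ 2 - q)) * (M * (k * p + q) - l * (k ^ 2 - 1))) := by
  unfold FA; ring

/-- `FA ≥ 0` where it is needed -/
theorem FA_nonneg (hA0 : StA0) (hA1 : StA1) (hA2 : StA2) {p u l M k : ℝ} (hp : 0 < p)
    (hu1 : -p ≤ u) (hu2 : u ≤ p) (h1 : p ^ 2 - 3 / 4 * u - 3 / 2 ≤ 3 * l)
    (h2 : 2 * p + u / 4 + 5 / 2 ≤ 3 * l) (hM : M = 3 * l - p - u / 4 + 3 / 2) (hk : 2 ≤ k)
    (hkM : k ≤ M) (hD : 0 ≤ M * ((k + 1) * p + u) - l * ((k + 1) ^ 2 - 1)) :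
    0 ≤ FA M p u l k := by
  have hf0 := hA0 p u l hp hu1 hu2 h1 h2
  have t0 : 0 ≤ (p + u) * f0 p u l := mul_nonneg (by linarith) hf0
  have hl0 : 0 < l := by linarith
  have e := FA_shift1 p u l (k - 1)
  rw [← hM, show (1 : ℝ) + (k - 1) = k by ring] at e
  have hy : (0 : ℝ) < k - 1 := by linarith
  rcases le_or_gt l (p ^ 2) with hc | hc
  · obtain ⟨c1, c2, c3⟩ := hA1 p u l hp hu1 hu2 hc h1 h2
    rw [e]
    have t4 : 0 ≤ p ^ 4 - l ^ 2 := by nlinarith [sq_nonneg p]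
    have := mul_nonneg c1 hy.le
    have := mul_nonneg c2 (pow_nonneg hy.le 2)
    have := mul_nonneg c3 (pow_nonneg hy.le 3)
    have := mul_nonneg t4 (pow_nonneg hy.le 4)
    linarith
  obtain ⟨c1, c2⟩ := hA2 p u l hp hu1 hu2 hc.le h1 h2
  have hpl : p ≤ l := by nlinarith [sq_nonneg (p - 1)]
  have hM0 : 0 < M := by linarith
  -- the zero of D(K + 1)
  have hcont : ContinuousOn (fun x : ℝ => M * ((x + 1) * p + u) - l * ((x + 1) ^ 2 - 1)) (Set.Icc k M) := by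
    apply Continuous.continuousOn; fun_prop
  have hend : M * ((M + 1) * p + u) - l * ((M + 1) ^ 2 - 1) ≤ 0 := by
    have h3 : M * ((M + 1) * p + u) ≤ M * ((M + 2) * l) := by
      apply mul_le_mul_of_nonneg_left _ hM0.le
      have := mul_le_mul_of_nonneg_left hpl (by linarith : (0 : ℝ) ≤ M + 2)
      linarith
    nlinarith
  obtain ⟨K, hK, hK0⟩ := intermediate_value_Icc' hkM hcont ⟨hend, hD⟩
  simp only at hK0
  have hK1 : k ≤ K := hK.1
  have hK2 : K ≤ M := hK.2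
  have hKpos : 0 < K := by linarith
  have hDK : 0 ≤ M * (K * p + u) - l * (K ^ 2 - 1) := by
    have e : K * (M * (K * p + u) - l * (K ^ 2 - 1))
        = M * (p + u) + (K - 1) * (M * ((K + 1) * p + u) - l * ((K + 1) ^ 2 - 1))
          + l * K * (K - 1) := by ring
    rw [hK0] at e
    have h3 : 0 ≤ M * (p + u) := mul_nonneg hM0.le (by linarith)
    have h4 : 0 ≤ l * K * (K - 1) := mul_nonneg (by positivity) (by linarith)
    have h5 : 0 ≤ (M * (K * p + u) - l * (K ^ 2 - 1)) * K := by linarith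
    exact nonneg_of_mul_nonneg_left h5 hKpos
  have hFK : 0 ≤ FA M p u l K := by
    have id := FA_id M p u l K
    rw [hK0, zero_mul, sub_zero] at id
    have h3 : 0 ≤ (M - K) * (M * (K * p + u) - l * (K ^ 2 - 1)) := mul_nonneg (by linarith) hDK
    have h4 : 0 ≤ K * (K * p + u) ^ 2 := by positivity
    have h5 : 0 ≤ K * (K + 1) * FA M p u l K := by rw [id]; positivity
    exact nonneg_of_mul_nonneg_right h5 (by positivity)
  have e' := FA_shift1 p u l (K - 1)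
  rw [← hM, show (1 : ℝ) + (K - 1) = K by ring] at e'
  rw [e'] at hFK
  rw [e]
  exact desc_pos (by norm_num : (0 : ℝ) < 3 / 5) (by norm_num : (0 : ℝ) < 23 / 10) t0 c1 c2
    (by nlinarith [sq_nonneg p]) hy (by linarith) hFK

/-- `FA ≥ 0` for real `k ≥ 2` where it is needed (direct form) -/
def StA : Prop := ∀ p u M k : ℝ, 0 < p → -p ≤ u → u ≤ p → p ^ 2 - u ≤ M + p → 2 ≤ k →
  p + 2 * (k + 1) ≤ M →
  (M + p + u / 4 - 3 / 2) / 3 * ((k + 1) ^ 2 - 1) ≤ M * ((k + 1) * p + u) →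
  0 ≤ FA M p u ((M + p + u / 4 - 3 / 2) / 3) k

theorem stA_of (hA0 : StA0) (hA1 : StA1) (hA2 : StA2) : StA := by
  intro p u M k hp hu1 hu2 hlt hk hkM hD
  exact FA_nonneg hA0 hA1 hA2 hp hu1 hu2 (by linarith) (by linarith) (by linarith) hk (by linarith)
    (by linarith)

theorem al_cmp (hA0 : StA0) (hA : StA) (F : Facts p M lam m al be) {l : ℝ}
    (hm : 2 ≤ m) (hl : 3 * l = M + p + (p ^ 2 - lam) / 4 - 3 / 2) (k : ℕ) (hk : 2 ≤ k)
    (hkm : k ≤ m) :
    al k * (M * (k * p + (p ^ 2 - lam)) - l * ((k : ℝ) ^ 2 - 1))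
      ≤ k * (k * p + (p ^ 2 - lam)) ^ 2 := by
  obtain ⟨hMl, hl0, h1, -⟩ := params F (by omega) hl
  have hp := F.hp
  have hM := AL0.M_pos F
  have hMm := F.hM
  have hq := abs_le.1 (AL0.q_bd F)
  have hm' : (2 : ℝ) ≤ m := by exact_mod_cast hm
  have h2 : 2 * p + (p ^ 2 - lam) / 4 + 5 / 2 ≤ 3 * l := by linarith
  set u := p ^ 2 - lam with hu
  induction k, hk using Nat.le_induction with
  | base =>
    have e2 : ((2 : ℕ) : ℝ) ^ 2 - 1 = 3 := by norm_num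
    rw [e2]; push_cast
    have hb := AL0.al_two F
    rw [← hu] at hb
    have hd := F.al_den 1
    have hb1 := AL0.al_one F
    rw [← hu] at hb1
    push_cast at hd
    have hden : 0 < M ^ 2 - M + p + u := by
      have := mul_pos hM hd
      nlinarith
    have id : 2 * (2 * p + u) ^ 2 * (M ^ 2 - M + p + u)
        - (M * (2 * p + u) - 3 * l) * (2 * (M * (2 * p + u + 1) - (p + u))) = 2 * f0 p u l := by
      rw [hMl]; unfold f0; ring
    have hf := hA0 p u l hp hq.1 hq.2 h1 h2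
    have h3 : 0 ≤ (2 * (2 * p + u) ^ 2 - al 2 * (M * (2 * p + u) - 3 * l)) * (M ^ 2 - M + p + u) := by
      have e : (2 * (2 * p + u) ^ 2 - al 2 * (M * (2 * p + u) - 3 * l)) * (M ^ 2 - M + p + u)
          = 2 * f0 p u l := by rw [← id, ← hb]; ring
      rw [e]; linarith
    have := nonneg_of_mul_nonneg_left h3 hden
    linarith
  | succ k hk ih =>
    have hk' : (2 : ℝ) ≤ k := by exact_mod_cast hk
    have hkm' : (k : ℝ) + 1 ≤ m := by exact_mod_cast hkm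
    refine al_step F hl0 hk hkm (fun hD => ?_) (ih (by omega))
    have hl' : l = (M + p + u / 4 - 3 / 2) / 3 := by linarith
    rw [hl']
    rw [hl'] at hD
    exact hA p u M k hp hq.1 hq.2 (by linarith) hk' (by rw [hMm]; linarith) (by linarith)

/-- the modes `k > m` -/
theorem al_far (hD : StD) (hD23 : StD23) (F : Facts p M lam m al be) {l : ℝ}
    (hm : 1 ≤ m) (hl : 3 * l = M + p + (p ^ 2 - lam) / 4 - 3 / 2) (k : ℕ) (hk : 3 ≤ k)
    (hkm : m + 1 ≤ k) :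
    al k * (M * (k * p + (p ^ 2 - lam)) - l * ((k : ℝ) ^ 2 - 1))
      ≤ k * (k * p + (p ^ 2 - lam)) ^ 2 := by
  have hp := F.hp
  have hMm := F.hM
  have hq := abs_le.1 (AL0.q_bd F)
  have hlam := F.lam_pos
  have hlt := F.lam_lt
  have hm' : (1 : ℝ) ≤ m := by exact_mod_cast hm
  rcases le_or_gt (M * (k * p + (p ^ 2 - lam)) - l * ((k : ℝ) ^ 2 - 1)) 0 with h0 | h0
  · have h1 := mul_nonpos_of_nonneg_of_nonpos (F.al_nonneg k) h0
    have h2 : 0 ≤ (k : ℝ) * (k * p + (p ^ 2 - lam)) ^ 2 := by positivity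
    linarith
  have hl' : l = (2 * p + 2 * m + (p ^ 2 - lam) / 4 - 3 / 2) / 3 := by linarith
  by_cases hex : m ≠ 2 ∨ k ≠ 3
  · have h1 := hD p (p ^ 2 - lam) m k hp hq.1 hq.2 (by linarith) (by linarith) hm hk hkm hex
    rw [← hl', ← hMm] at h1
    exact (mul_le_mul_of_nonneg_right (F.al_le k (by omega)) h0.le).trans h1
  · push Not at hex
    obtain ⟨rfl, rfl⟩ := hex
    have h1 := hD23 p (p ^ 2 - lam) hp hq.1 hq.2 (by linarith) (by push_cast at *; linarith)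
    have hr := F.al_rec 2
    have ha := F.al_nonneg 2
    push_cast at hMm hr h0 hl' ⊢
    have hM4 : M = p + 4 := by linarith
    have hb : al 3 ≤ p + 3 - lam / (p + 2) := by
      have hden : 0 < al 2 + M - 2 := by rw [hM4]; linarith
      have hp2 : 0 < p + 2 := by linarith
      have h3 : (p + 3 - lam / (p + 2)) * (al 2 + M - 2) - al 3 * (al 2 + M - 2)
          = al 2 * (2 * p + 4 - lam) / (p + 2) := by
        rw [show al 3 = al (2 + 1) from rfl, hr, hM4]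
        field_simp
        ring
      have h4 : 0 ≤ al 2 * (2 * p + 4 - lam) / (p + 2) :=
        div_nonneg (mul_nonneg ha (by linarith)) hp2.le
      have h5 : 0 ≤ (p + 3 - lam / (p + 2) - al 3) * (al 2 + M - 2) := by linarith
      linarith [nonneg_of_mul_nonneg_left h5 hden]
    have e9 : (3 : ℝ) ^ 2 - 1 = 8 := by norm_num
    rw [e9] at h0 ⊢
    have hl4 : l = (2 * p + 4 + (p ^ 2 - lam) / 4 - 3 / 2) / 3 := by linarith
    rw [← hl4, ← hM4, show p ^ 2 - (p ^ 2 - lam) = lam by ring] at h1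
    exact (mul_le_mul_of_nonneg_right hb h0.le).trans h1

/-- the inequality of all modes `k ≥ 3` -/
theorem mode_ge_three_of (hC : StC) (hB : StB) (hA0 : StA0) (hA : StA) (hD : StD)
    (hD23 : StD23) (F : Facts p M lam m al be) (hm : 1 ≤ m) (k : ℕ) (hk : 3 ≤ k) :
    2 * p * M < (k * p + (p ^ 2 - lam)) ^ 2 / al k + (k * p - (p ^ 2 - lam)) ^ 2 / be k := by
  obtain ⟨l, hl⟩ : ∃ l : ℝ, 3 * l = M + p + (p ^ 2 - lam) / 4 - 3 / 2 :=
    ⟨(M + p + (p ^ 2 - lam) / 4 - 3 / 2) / 3, by ring⟩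
  have ha := AL0.al_pos F (show 2 ≤ k by omega)
  have hb := AL0.be_pos F (show 2 ≤ k by omega)
  have hk0 : (0 : ℝ) < k := by exact_mod_cast (by omega : 0 < k)
  have h1 : al k * (M * (k * p + (p ^ 2 - lam)) - l * ((k : ℝ) ^ 2 - 1))
      ≤ k * (k * p + (p ^ 2 - lam)) ^ 2 := by
    rcases le_or_gt k m with h | h
    · exact al_cmp hA0 hA F (by omega) hl k (by omega) h
    · exact al_far hD hD23 F hm hl k hk h
  have h2 := be_cmp hC hB F hm hl k (by omega)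
  have h3 : (M * (k * p + (p ^ 2 - lam)) - l * ((k : ℝ) ^ 2 - 1)) / k
      ≤ (k * p + (p ^ 2 - lam)) ^ 2 / al k := by
    rw [div_le_div_iff₀ hk0 ha]; linarith
  have h4 : (M * (k * p - (p ^ 2 - lam)) + l * ((k : ℝ) ^ 2 - 1)) / k
      < (k * p - (p ^ 2 - lam)) ^ 2 / be k := by
    rw [div_lt_div_iff₀ hk0 hb]; linarith
  have h5 : (M * (k * p + (p ^ 2 - lam)) - l * ((k : ℝ) ^ 2 - 1)) / k
      + (M * (k * p - (p ^ 2 - lam)) + l * ((k : ℝ) ^ 2 - 1)) / k = 2 * p * M := by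
    field_simp; ring
  linarith

end Pool.Agent.MFK.AL
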