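import Pool.Agent.Work.MP_8826fd_mp.AL.Frame
import Pool.Agent.Work.MP_8826fd_mp.AL.CB
import Pool.Agent.Work.MP_8826fd_mp.AL.D
import Pool.Agent.Work.MP_8826fd_mp.AL.A0
import Pool.Agent.Work.MP_8826fd_mp.AL.A

/-! # The inequality of all modes `k ≥ 3` -/

set_option autoImplicit false

namespace Pool.Agent.MFK

theorem mode_ge_three {p M lam : ℝ} {m : ℕ} {al be : ℕ → ℝ} (F : Facts p M lam m al be)
    (hm : 1 ≤ m) (k : ℕ) (hk : 3 ≤ k) :
    2 * p * M < (k * p + (p ^ 2 - lam)) ^ 2 / al k + (k * p - (p ^ 2 - lam)) ^ 2 / be k :=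
  AL.mode_ge_three_of AL.stC AL.stB AL.stA0 AL.stA AL.stD AL.stD23 F hm k hk

/-- the algebraic lemma for all modes `k ≥ 2` -/
theorem stAL : StAL :=
  AL0.stAL_of (fun _ _ _ _ _ _ F hm k hk => mode_ge_three F hm k hk)

end Pool.Agent.MFK
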